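import Pool.Agent.Lib.EPI.Spec

/-!
Assembly of the independence theorem on `π^π` (MP_4c2ad3_nt).
-/

open Complex Module

namespace EPI

private theorem ASM_pi (h1 : S_PI1) (h2 : S_PI2) : Transcendental ℚ Real.pi := by
  intro h
  have hI : IsAlgebraic ℚ I := by
    apply IsAlgebraic.of_pow (n := 2) (by norm_num)
    rw [Complex.I_sq]
    exact isAlgebraic_one.neg
  have hp : IsAlgebraic ℚ (Real.pi : ℂ) := h.algebraMap
  have hz : 1 + cexp ((Real.pi : ℂ) * I) = 0 := by
    rw [Complex.exp_pi_mul_I]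
    ring
  obtain ⟨f, m, h3, h4, h5⟩ := h1 _ (hp.mul hI) hz
  exact h2 f m h3 h4 h5

private theorem ASM_mono (hCL : S_CL) {S T : Set ℂ} (h : S ⊆ T) {n : ℕ} (hS : Ge S n) : Ge T n := by
  obtain ⟨f, hf, hS⟩ := hS
  exact ⟨f, hf, fun i => hCL.2.1 S T (h.trans (hCL.1 T)) (hS i)⟩

theorem tASM : S_ASM := by
  intro hPI1 hPI2 hCL hTUP hBASE hGEN hSORT hEP hHYP hLOG r hr0 hr1 hralg
  obtain ⟨L, g, hg⟩ := hGEN (ASM_pi hPI1 hPI2)
  obtain ⟨l1, l2, l3, l4, l5, l6, l7⟩ := hLOG L g hg r hr0 hr1 hralg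
  obtain ⟨B0, C0, r0, hB0, hC0, hi0, hs0, hr0'⟩ := hSORT L g hg false 2 ![L, Real.pi * L]
    ![Real.log Real.pi, Real.log r] l1 l2 l4 l5
  obtain ⟨B1, C1, r1, hB1, hC1, hi1, hs1, hr1'⟩ := hSORT L g hg true 1 ![2 * Real.pi]
    ![2 * Real.pi] l3 l3 l6 l7
  have v0 : r0 L = Real.log Real.pi := by
    have h := hr0' (Sum.inl 0)
    simpa [domF, imF] using h
  have v1 : r0 (Real.pi * L) = Real.log r := by
    have h := hr0' (Sum.inl 1)
    simpa [domF, imF] using h
  have v2 : r1 (2 * Real.pi) = 2 * Real.pi := by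
    have h := hr1' (Sum.inl 0)
    simpa [domF, imF] using h
  obtain ⟨e1, e2, e3, e4, e5, e6, e7⟩ := hEP r0 r1 v2
  have hind : AlgebraicIndependent ℚ ![Real.pi, L] := by
    have h := hg.1.comp Sum.inl Sum.inl_injective
    rwa [Sum.elim_comp_inl] at h
  obtain ⟨b1, b2⟩ := hBASE L hind
  have hH := hHYP L g hg r hr0 hr1 hralg B0 C0 B1 C1 r0 r1 hB0 hC0 hB1 hC1 hi0 hs0 hi1 hs1 hr0' hr1'
  have main1 : ∀ (n : ℕ) (z : Fin n → ℂ), LinearIndependent ℚ z →
      (Submodule.span ℚ (Set.range z) ⊓ Submodule.span ℚ (Set.range (b3 L)) : Submodule ℚ ℂ) ≠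
        Submodule.span ℚ (Set.range (b3 L)) →
      (n : Cardinal) ≤ Algebra.trdeg ℚ
        (IntermediateField.adjoin ℚ (Set.range z ∪ Set.range (fun i => EE r0 r1 (z i)))) := by
    intro n z hz hne
    have hfin : FiniteDimensional ℚ (Submodule.span ℚ (Set.range z)) :=
      FiniteDimensional.span_of_finite ℚ (Set.finite_range z)
    have hn : finrank ℚ (Submodule.span ℚ (Set.range z)) = n := by
      rw [finrank_span_eq_card hz, Fintype.card_fin]
    have h1 := (b2 _ (inf_le_right (a := Submodule.span ℚ (Set.range z)))).1 hne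
    have h2 := hH (Submodule.span ℚ (Set.range z)) hfin _ (ASM_mono hCL Set.subset_union_left h1)
    have h3 : finrank ℚ (Submodule.span ℚ (Set.range z) ⊓
        Submodule.span ℚ (Set.range (b3 L)) : Submodule ℚ ℂ) ≤
        finrank ℚ (Submodule.span ℚ (Set.range z)) := Submodule.finrank_mono inf_le_left
    rw [Nat.add_sub_cancel' h3, hn] at h2
    exact hTUP (EE r0 r1) e1 e2 n z n h2
  refine ⟨EE r0 r1, L, e1, e3, e4, e5, e6, ?_, ?_, ?_, ?_⟩
  · have h := e7 false L
    simp only [jj, ee, Bool.false_eq_true, if_false] at h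
    rw [h, v0, ← Complex.ofReal_exp, Real.exp_log Real.pi_pos]
  · have h := e7 false (Real.pi * L)
    simp only [jj, ee, Bool.false_eq_true, if_false] at h
    rw [← Complex.ofReal_mul, h, v1, ← Complex.ofReal_exp, Real.exp_log hr0]
  · intro n z hz hnot
    refine main1 n z hz fun heq => hnot ?_
    have hle : Submodule.span ℚ (Set.range (b3 L)) ≤ Submodule.span ℚ (Set.range z) :=
      inf_eq_right.1 heq
    have hmem : ∀ i, b3 L i ∈ Submodule.span ℚ (Set.range z) :=
      fun i => hle (Submodule.subset_span ⟨i, rfl⟩)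
    have m0 := hmem 0
    have m1 := hmem 1
    have m2 := hmem 2
    simp only [b3, Matrix.cons_val_zero, Matrix.cons_val_one, Matrix.cons_val_two, Matrix.head_cons,
      Matrix.tail_cons] at m0 m1 m2
    rw [Complex.ofReal_mul] at m2
    intro x hx
    simp only [Set.mem_insert_iff, Set.mem_singleton_iff] at hx
    rcases hx with rfl | rfl | rfl
    · exact m0
    · exact m1
    · exact m2
  · intro n z hz
    by_cases heq : (Submodule.span ℚ (Set.range z) ⊓ Submodule.span ℚ (Set.range (b3 L)) :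
        Submodule ℚ ℂ) = Submodule.span ℚ (Set.range (b3 L))
    · have hfin : FiniteDimensional ℚ (Submodule.span ℚ (Set.range z)) :=
        FiniteDimensional.span_of_finite ℚ (Set.finite_range z)
      have hn : finrank ℚ (Submodule.span ℚ (Set.range z)) = n := by
        rw [finrank_span_eq_card hz, Fintype.card_fin]
      have hle : Submodule.span ℚ (Set.range (b3 L)) ≤ Submodule.span ℚ (Set.range z) :=
        inf_eq_right.1 heq
      have h3 : finrank ℚ (Submodule.span ℚ (Set.range (b3 L))) = 3 := by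
        rw [finrank_span_eq_card b1, Fintype.card_fin]
      have h4 : 3 ≤ n := by
        rw [← h3, ← hn]
        exact Submodule.finrank_mono hle
      have h1 := (b2 _ (inf_le_right (a := Submodule.span ℚ (Set.range z)))).2 heq
      have h2 := hH (Submodule.span ℚ (Set.range z)) hfin _ (ASM_mono hCL Set.subset_union_left h1)
      rw [heq, h3, hn] at h2
      have h5 := hTUP (EE r0 r1) e1 e2 n z _ h2
      have h6 : (n : Cardinal.{0}) = ((2 + (n - 3) : ℕ) : Cardinal.{0}) + 1 := by
        have h7 : n = 2 + (n - 3) + 1 := by omega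
        exact_mod_cast congrArg (Nat.cast (R := Cardinal.{0})) h7
      rw [h6]
      gcongr
    · exact (main1 n z hz heq).trans (self_le_add_right _ _)

end EPI
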