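import Pool.Agent.Lib.EPI.Spec

/-!
# The three base numbers `2 π i, L, π L` (module BASE)
-/

open Complex Module

namespace EPI

private theorem BASE_ind {L : ℝ} (h : AlgebraicIndependent ℚ ![Real.pi, L]) :
    AlgebraicIndependent ℚ ![(Real.pi : ℂ), (L : ℂ)] := by
  have h1 := h.map' (f := (Algebra.ofId ℝ ℂ).restrictScalars ℚ) Complex.ofReal_injective
  have h2 : ((Algebra.ofId ℝ ℂ).restrictScalars ℚ : ℝ → ℂ) ∘ ![Real.pi, L] =
      ![(Real.pi : ℂ), (L : ℂ)] := by
    funext i
    fin_cases i <;> rfl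
  rw [h2] at h1
  exact h1

private theorem BASE_not0 {x y : ℂ} (h : AlgebraicIndependent ℚ ![x, y]) : x ∉ cl {y} := by
  have h1 := h.transcendental_adjoin (s := {1}) (i := 0) (by simp)
  have h2 : (![x, y] '' {1} : Set ℂ) = {y} := by simp
  rw [h2] at h1
  rw [mem_cl]
  exact IntermediateField.transcendental_adjoin_iff.2 h1

private theorem BASE_not1 {x y : ℂ} (h : AlgebraicIndependent ℚ ![x, y]) : y ∉ cl {x} := by
  have h1 := h.transcendental_adjoin (s := {0}) (i := 1) (by simp)
  have h2 : (![x, y] '' {0} : Set ℂ) = {x} := by simp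
  rw [h2] at h1
  rw [mem_cl]
  exact IntermediateField.transcendental_adjoin_iff.2 h1

private theorem BASE_rat (S : Set ℂ) (q : ℚ) : (q : ℂ) ∈ cl S := by
  have h := (cl S).algebraMap_mem q
  rwa [eq_ratCast] at h

private theorem BASE_mono (hCL : S_CL) {S T : Set ℂ} (h : S ⊆ T) : cl S ≤ cl T :=
  hCL.2.1 S T (h.trans (hCL.1 T))

private theorem BASE_star (hCL : S_CL) {x y κ : ℂ} (hx : x ∉ cl {y}) (hy : y ∉ cl {x}) (hκ : κ ∈ cl ∅)
    (hκ0 : κ ≠ 0) (a b c : ℚ) (h : a ≠ 0 ∨ b ≠ 0 ∨ c ≠ 0) :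
    (a : ℂ) * x + b * y + c * (κ * (x * y)) ∉ cl ∅ := by
  intro hw
  have ey : cl (∅ : Set ℂ) ≤ cl {y} := BASE_mono hCL (Set.empty_subset _)
  have ex : cl (∅ : Set ℂ) ≤ cl {x} := BASE_mono hCL (Set.empty_subset _)
  have hyy : y ∈ cl {y} := hCL.1 {y} rfl
  have hy0 : y ∉ cl ∅ := fun h1 => hy (ex h1)
  by_cases hac : (a : ℂ) + c * κ * y = 0
  · have hc : c = 0 := by
      by_contra hc
      have hcC : (c : ℂ) ≠ 0 := by exact_mod_cast hc
      apply hy0
      have e : y = -(a : ℂ) / (c * κ) := by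
        rw [eq_div_iff (mul_ne_zero hcC hκ0)]
        linear_combination hac
      rw [e]
      exact (cl _).div_mem ((cl _).neg_mem (BASE_rat _ a)) ((cl _).mul_mem (BASE_rat _ c) hκ)
    have ha : a = 0 := by
      rw [hc] at hac
      have : (a : ℂ) = 0 := by simpa using hac
      exact_mod_cast this
    have hb : b ≠ 0 := by
      rcases h with h | h | h
      · exact absurd ha h
      · exact h
      · exact absurd hc h
    have hbC : (b : ℂ) ≠ 0 := by exact_mod_cast hb
    apply hy0
    have e : y = ((a : ℂ) * x + b * y + c * (κ * (x * y))) / b := by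
      rw [eq_div_iff hbC, ha, hc]
      push_cast
      ring
    rw [e]
    exact (cl _).div_mem hw (BASE_rat _ b)
  · apply hx
    have e : x = (((a : ℂ) * x + b * y + c * (κ * (x * y))) - b * y) / (a + c * κ * y) := by
      rw [eq_div_iff hac]
      ring
    rw [e]
    exact (cl _).div_mem ((cl _).sub_mem (ey hw) ((cl _).mul_mem (BASE_rat _ b) hyy))
      ((cl _).add_mem (BASE_rat _ a) ((cl _).mul_mem ((cl _).mul_mem (BASE_rat _ c) (ey hκ)) hyy))

/-- a root of a quadratic equation over `cl S` with a nonzero coefficient of `X` -/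
private theorem BASE_quad {S : Set ℂ} {A B C x : ℂ} (hA : A ∈ cl S) (hB : B ∈ cl S) (hC : C ∈ cl S)
    (hB0 : B ≠ 0) (h : A * x ^ 2 + B * x + C = 0) : x ∈ cl S := by
  by_cases hA0 : A = 0
  · have e : x = -C / B := by
      rw [eq_div_iff hB0]
      rw [hA0] at h
      linear_combination h
    rw [e]
    exact (cl S).div_mem ((cl S).neg_mem hC) hB
  · have two : (2 : ℂ) ∈ cl S := by
      have := BASE_rat S 2
      simpa using this
    have four : (4 : ℂ) ∈ cl S := by
      have := BASE_rat S 4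
      simpa using this
    have h1 : (2 * A * x + B) ^ 2 ∈ cl S := by
      have e : (2 * A * x + B) ^ 2 = B * B - 4 * (A * C) := by
        linear_combination (4 * A) * h
      rw [e]
      exact (cl S).sub_mem ((cl S).mul_mem hB hB) ((cl S).mul_mem four ((cl S).mul_mem hA hC))
    have h2 : 2 * A * x + B ∈ cl S := mem_cl_of_pow (by norm_num) h1
    have e : x = (2 * A * x + B - B) / (2 * A) := by
      rw [eq_div_iff (mul_ne_zero two_ne_zero hA0)]
      ring
    rw [e]
    exact (cl S).div_mem ((cl S).sub_mem h2 hB) ((cl S).mul_mem two hA)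

private theorem BASE_key (hCL : S_CL) {x y κ : ℂ} (hx : x ∉ cl {y}) (hy : y ∉ cl {x}) (hκ : κ ∈ cl ∅)
    (hκ0 : κ ≠ 0) {S : Set ℂ} {a b c α β : ℚ} {u v : ℂ}
    (hu : u = (a : ℂ) * x + b * y + c * (κ * (x * y))) (hv : v = (α : ℂ) * x + β * y)
    (huS : u ∈ cl S) (hvS : v ∈ cl S) (hαβ : α ≠ 0 ∨ β ≠ 0) (hc : c ≠ 0 ∨ a * β - b * α ≠ 0) :
    x ∈ cl S ∧ y ∈ cl S := by
  have e0 : cl (∅ : Set ℂ) ≤ cl S := BASE_mono hCL (Set.empty_subset _)
  have hv0 : v ∉ cl ∅ := by
    have h1 := BASE_star hCL hx hy hκ hκ0 α β 0 (by tauto)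
    have e : v = (α : ℂ) * x + β * y + ((0 : ℚ) : ℂ) * (κ * (x * y)) := by
      rw [hv]
      push_cast
      ring
    rw [e]
    exact h1
  have hxS0 : x ∉ cl ∅ := fun h1 => hx (BASE_mono hCL (Set.empty_subset _) h1)
  by_cases hβ : β = 0
  · have hα : α ≠ 0 := by tauto
    have hαC : (α : ℂ) ≠ 0 := by exact_mod_cast hα
    have hxS : x ∈ cl S := by
      have e : x = v / α := by
        rw [eq_div_iff hαC, hv, hβ]
        push_cast
        ring
      rw [e]
      exact (cl S).div_mem hvS (BASE_rat _ α)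
    refine ⟨hxS, ?_⟩
    have hne : (b : ℂ) + c * κ * x ≠ 0 := by
      intro h0
      by_cases hc0 : c = 0
      · rcases hc with h | h
        · exact h hc0
        · rw [hβ, mul_zero, zero_sub] at h
          rw [hc0] at h0
          have hb : (b : ℂ) = 0 := by simpa using h0
          have hb' : b = 0 := by exact_mod_cast hb
          rw [hb'] at h
          simp at h
      · have hcC : (c : ℂ) ≠ 0 := by exact_mod_cast hc0
        apply hxS0
        have e : x = -(b : ℂ) / (c * κ) := by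
          rw [eq_div_iff (mul_ne_zero hcC hκ0)]
          linear_combination h0
        rw [e]
        exact (cl _).div_mem ((cl _).neg_mem (BASE_rat _ b)) ((cl _).mul_mem (BASE_rat _ c) hκ)
    have e : y = (u - a * x) / (b + c * κ * x) := by
      rw [eq_div_iff hne, hu]
      ring
    rw [e]
    exact (cl S).div_mem ((cl S).sub_mem huS ((cl S).mul_mem (BASE_rat _ a) hxS))
      ((cl S).add_mem (BASE_rat _ b) ((cl S).mul_mem ((cl S).mul_mem (BASE_rat _ c) (e0 hκ)) hxS))
  · have hβC : (β : ℂ) ≠ 0 := by exact_mod_cast hβ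
    have hxS : x ∈ cl S := by
      refine BASE_quad (A := c * κ * α) (B := -(((a * β - b * α : ℚ) : ℂ) + c * κ * v))
        (C := β * u - b * v) ?_ ?_ ?_ ?_ ?_
      · exact (cl S).mul_mem ((cl S).mul_mem (BASE_rat _ c) (e0 hκ)) (BASE_rat _ α)
      · exact (cl S).neg_mem ((cl S).add_mem (BASE_rat _ _)
          ((cl S).mul_mem ((cl S).mul_mem (BASE_rat _ c) (e0 hκ)) hvS))
      · exact (cl S).sub_mem ((cl S).mul_mem (BASE_rat _ β) huS) ((cl S).mul_mem (BASE_rat _ b) hvS)
      · intro h0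
        rw [neg_eq_zero] at h0
        by_cases hc0 : c = 0
        · rcases hc with h | h
          · exact h hc0
          · rw [hc0] at h0
            apply h
            have : ((a * β - b * α : ℚ) : ℂ) = 0 := by simpa using h0
            exact_mod_cast this
        · have hcC : (c : ℂ) ≠ 0 := by exact_mod_cast hc0
          apply hv0
          have e : v = -((a * β - b * α : ℚ) : ℂ) / (c * κ) := by
            rw [eq_div_iff (mul_ne_zero hcC hκ0)]
            linear_combination h0
          rw [e]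
          exact (cl _).div_mem ((cl _).neg_mem (BASE_rat _ _)) ((cl _).mul_mem (BASE_rat _ c) hκ)
      · rw [hu, hv]
        push_cast
        ring
    refine ⟨hxS, ?_⟩
    have e : y = (v - α * x) / β := by
      rw [eq_div_iff hβC, hv]
      ring
    rw [e]
    exact (cl S).div_mem ((cl S).sub_mem hvS ((cl S).mul_mem (BASE_rat _ α) hxS)) (BASE_rat _ β)

private theorem BASE_two (hCL : S_CL) {x y κ : ℂ} (hx : x ∉ cl {y}) (hy : y ∉ cl {x}) (hκ : κ ∈ cl ∅)
    (hκ0 : κ ≠ 0) {S : Set ℂ} {a b c a' b' c' : ℚ} {u v : ℂ}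
    (hu : u = (a : ℂ) * x + b * y + c * (κ * (x * y)))
    (hv : v = (a' : ℂ) * x + b' * y + c' * (κ * (x * y)))
    (huS : u ∈ cl S) (hvS : v ∈ cl S) (hli : ∀ s t : ℚ, (s : ℂ) * u + t * v = 0 → s = 0 ∧ t = 0) :
    x ∈ cl S ∧ y ∈ cl S := by
  by_cases hc : c = 0
  · by_cases hc' : c' = 0
    · refine BASE_key hCL hx hy hκ hκ0 (α := a') (β := b') hu ?_ huS hvS ?_ (Or.inr ?_)
      · rw [hv, hc']
        push_cast
        ring
      · by_contra hn
        push Not at hn
        have h1 := hli 0 1 (by rw [hv, hc', hn.1, hn.2]; push_cast; ring)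
        exact one_ne_zero h1.2
      · intro h0
        have hC : (a : ℂ) * b' - b * a' = 0 := by exact_mod_cast h0
        have h1 := hli b' (-b) (by
          rw [hu, hv, hc', hc]
          push_cast
          linear_combination x * hC)
        have h2 := hli a' (-a) (by
          rw [hu, hv, hc', hc]
          push_cast
          linear_combination (-y) * hC)
        have h3 := hli 0 1 (by rw [hv, hc', h2.1, h1.1]; push_cast; ring)
        exact one_ne_zero h3.2
    · have e := BASE_key hCL hx hy hκ hκ0 (α := c' * a - c * a') (β := c' * b - c * b') hv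
        (v := c' * u - c * v) (by rw [hu, hv]; push_cast; ring) hvS
        ((cl S).sub_mem ((cl S).mul_mem (BASE_rat _ c') huS) ((cl S).mul_mem (BASE_rat _ c) hvS)) ?_
        (Or.inl hc')
      · exact e
      · by_contra hn
        push Not at hn
        have e1 : (c' : ℂ) * a - c * a' = 0 := by exact_mod_cast hn.1
        have e2 : (c' : ℂ) * b - c * b' = 0 := by exact_mod_cast hn.2
        have h1 := hli c' (-c) (by
          rw [hu, hv]
          push_cast
          linear_combination x * e1 + y * e2)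
        exact hc' h1.1
  · have e := BASE_key hCL hx hy hκ hκ0 (α := c * a' - c' * a) (β := c * b' - c' * b) hu
      (v := c * v - c' * u) (by rw [hu, hv]; push_cast; ring) huS
      ((cl S).sub_mem ((cl S).mul_mem (BASE_rat _ c) hvS) ((cl S).mul_mem (BASE_rat _ c') huS)) ?_
      (Or.inl hc)
    · exact e
    · by_contra hn
      push Not at hn
      have e1 : (c : ℂ) * a' - c' * a = 0 := by exact_mod_cast hn.1
      have e2 : (c : ℂ) * b' - c' * b = 0 := by exact_mod_cast hn.2
      have h1 := hli (-c') c (by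
        rw [hu, hv]
        push_cast
        linear_combination x * e1 + y * e2)
      exact hc h1.2

private theorem BASE_I (hCL : S_CL) (S : Set ℂ) : (2 * I)⁻¹ ∈ cl S :=
  (cl S).inv_mem ((cl S).mul_mem (by simp) (hCL.2.2.2 S))

private theorem BASE_sum (L : ℝ) (q : Fin 3 → ℚ) : ∑ i, q i • b3 L i =
    (q 0 : ℂ) * (2 * (Real.pi : ℂ) * I) + q 1 * (L : ℂ) +
      q 2 * ((2 * I)⁻¹ * ((2 * (Real.pi : ℂ) * I) * (L : ℂ))) := by
  rw [Fin.sum_univ_three]
  have e : (2 * I)⁻¹ * ((2 * (Real.pi : ℂ) * I) * (L : ℂ)) = ((Real.pi * L : ℝ) : ℂ) := by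
    have hI : (2 * I : ℂ) ≠ 0 := mul_ne_zero two_ne_zero I_ne_zero
    rw [inv_mul_eq_iff_eq_mul₀ hI]
    push_cast
    ring
  rw [e]
  simp only [b3, Rat.smul_def, Matrix.cons_val_zero, Matrix.cons_val_one, Matrix.cons_val_two,
    Matrix.head_cons, Matrix.tail_cons]

private theorem BASE_one {w : ℂ} (hw : w ∉ cl ∅) : AlgebraicIndependent ℚ (fun _ : Fin 1 => w) := by
  rw [algebraicIndependent_unique_type_iff]
  intro h
  apply hw
  rw [mem_cl]
  exact h.extendScalars (algebraMap ℚ _).injective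

theorem tBASE : S_CL → S_BASE := by
  intro hCL L hL
  have hi := BASE_ind hL
  have hp := BASE_not0 hi
  have hl := BASE_not1 hi
  have hI0 : (2 * I : ℂ) ≠ 0 := mul_ne_zero two_ne_zero I_ne_zero
  have hκ0 : ((2 * I)⁻¹ : ℂ) ≠ 0 := inv_ne_zero hI0
  have pi_of : ∀ S : Set ℂ, 2 * (Real.pi : ℂ) * I ∈ cl S → (Real.pi : ℂ) ∈ cl S := by
    intro S h
    have e : (Real.pi : ℂ) = (2 * I)⁻¹ * (2 * (Real.pi : ℂ) * I) := by
      rw [eq_inv_mul_iff_mul_eq₀ hI0]
      ring
    rw [e]
    exact (cl S).mul_mem (BASE_I hCL S) h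
  have hx : 2 * (Real.pi : ℂ) * I ∉ cl {(L : ℂ)} := fun h => hp (pi_of _ h)
  have hy : (L : ℂ) ∉ cl {2 * (Real.pi : ℂ) * I} := by
    intro h
    apply hl
    refine hCL.2.1 {2 * (Real.pi : ℂ) * I} {(Real.pi : ℂ)} ?_ h
    intro z hz
    rw [Set.mem_singleton_iff] at hz
    rw [hz]
    exact (cl _).mul_mem ((cl _).mul_mem (by simp)
      (hCL.1 _ rfl)) (hCL.2.2.2 _)
  have star := BASE_star hCL hx hy (BASE_I hCL ∅) hκ0
  have hli : LinearIndependent ℚ (b3 L) := by
    rw [Fintype.linearIndependent_iff]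
    intro q hq
    by_contra hn
    rw [BASE_sum] at hq
    have h1 := star (q 0) (q 1) (q 2) (by
      by_contra hn2
      push Not at hn2
      apply hn
      intro i
      fin_cases i
      · exact hn2.1
      · exact hn2.2.1
      · exact hn2.2.2)
    rw [hq] at h1
    exact h1 (cl ∅).zero_mem
  refine ⟨hli, fun W hW => ?_⟩
  have hfin : FiniteDimensional ℚ (Submodule.span ℚ (Set.range (b3 L))) :=
    FiniteDimensional.span_of_finite ℚ (Set.finite_range _)
  have hD : finrank ℚ (Submodule.span ℚ (Set.range (b3 L))) = 3 := by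
    rw [finrank_span_eq_card hli, Fintype.card_fin]
  have hWf : FiniteDimensional ℚ W := Submodule.finiteDimensional_of_le hW
  have co : ∀ w ∈ W, ∃ q : Fin 3 → ℚ, w = (q 0 : ℂ) * (2 * (Real.pi : ℂ) * I) + q 1 * (L : ℂ) +
      q 2 * ((2 * I)⁻¹ * ((2 * (Real.pi : ℂ) * I) * (L : ℂ))) := by
    intro w hw
    obtain ⟨q, hq⟩ := (Submodule.mem_span_range_iff_exists_fun ℚ).1 (hW hw)
    refine ⟨q, ?_⟩
    rw [← BASE_sum, hq]
  have fin2 : 2 * (Real.pi : ℂ) * I ∈ cl (W : Set ℂ) ∧ (L : ℂ) ∈ cl (W : Set ℂ) → Ge (W : Set ℂ) 2 := by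
    intro h
    refine ⟨![(Real.pi : ℂ), (L : ℂ)], hi, ?_⟩
    intro i
    fin_cases i
    · exact pi_of _ h.1
    · exact h.2
  refine ⟨fun hne => ?_, fun he => ?_⟩
  · have hlt : finrank ℚ W < 3 := by
      rw [← hD]
      exact Submodule.finrank_lt_finrank_of_lt (lt_of_le_of_ne hW hne)
    obtain h0 | h1 | h2 : finrank ℚ W = 0 ∨ finrank ℚ W = 1 ∨ finrank ℚ W = 2 := by omega
    · rw [h0]
      exact ⟨fun i => i.elim0, algebraicIndependent_empty_type_iff.2 (algebraMap ℚ ℂ).injective,
        fun i => i.elim0⟩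
    · rw [h1]
      have hne0 : W ≠ ⊥ := by
        intro h
        rw [h] at h1
        simp at h1
      obtain ⟨w, hw, hw0⟩ := Submodule.exists_mem_ne_zero_of_ne_bot hne0
      obtain ⟨q, hq⟩ := co w hw
      have hw1 : w ∉ cl ∅ := by
        rw [hq]
        apply star
        by_contra hn
        push Not at hn
        apply hw0
        rw [hq, hn.1, hn.2.1, hn.2.2]
        push_cast
        ring
      exact ⟨fun _ => w, BASE_one hw1, fun _ => hCL.1 _ hw⟩
    · rw [h2]
      apply fin2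
      let B := finBasisOfFinrankEq ℚ W h2
      obtain ⟨q, hq⟩ := co (B 0 : ℂ) (B 0).2
      obtain ⟨q', hq'⟩ := co (B 1 : ℂ) (B 1).2
      refine BASE_two hCL hx hy (BASE_I hCL ∅) hκ0 hq hq' (hCL.1 _ (B 0).2) (hCL.1 _ (B 1).2) ?_
      intro s t hst
      have hB : LinearIndependent ℚ ![B 0, B 1] := by
        have e : ![B 0, B 1] = (B : Fin 2 → W) := by
          funext i
          fin_cases i <;> rfl
        rw [e]
        exact B.linearIndependent
      rw [LinearIndependent.pair_iff] at hB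
      apply hB s t
      apply Subtype.ext
      rw [Submodule.coe_add, Submodule.coe_smul, Submodule.coe_smul, Rat.smul_def, Rat.smul_def, hst]
      rfl
  · apply fin2
    constructor
    · apply hCL.1
      rw [he]
      exact Submodule.subset_span ⟨0, rfl⟩
    · apply hCL.1
      rw [he]
      exact Submodule.subset_span ⟨1, rfl⟩

end EPI
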