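import Pool.Agent.Lib.EPI.Spec

/-!
The back and forth, pure linear algebra over `ℚ` (MP_4c2ad3_nt).
-/

open Complex Module

namespace EPI

/-- a basis from a chain of subspaces -/
theorem tCHAIN : S_CHAIN := by
  intro W κ v ι0 p hp hpW hv hdisj hsup hex
  let f : ι0 ⊕ (Σ n, κ n) → ℝ := Sum.elim p (fun x : Σ n, κ n => v x.1 x.2)
  let s : ℕ → Set (ι0 ⊕ (Σ n, κ n)) := fun N => {i | ∀ x, i = Sum.inr x → x.1 < N}
  let j : ∀ N, κ N → ι0 ⊕ (Σ n, κ n) := fun N a => Sum.inr ⟨N, a⟩
  have hj : ∀ N, Function.Injective (j N) := by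
    intro N a b hab
    have h1 : (⟨N, a⟩ : Σ n, κ n) = ⟨N, b⟩ := Sum.inr_injective hab
    exact eq_of_heq (Sigma.mk.inj_iff.1 h1).2
  have hs0 : s 0 = Set.range (Sum.inl : ι0 → ι0 ⊕ (Σ n, κ n)) := by
    ext i
    constructor
    · intro hi
      rcases i with i | x
      · exact ⟨i, rfl⟩
      · exact absurd (hi x rfl) (Nat.not_lt_zero _)
    · rintro ⟨i, rfl⟩ x hx
      exact absurd hx (by simp)
  have hsS : ∀ N, s (N + 1) = s N ∪ Set.range (j N) := by
    intro N
    ext i
    constructor
    · intro hi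
      rcases i with i | ⟨n, a⟩
      · left
        intro x hx
        exact absurd hx (by simp)
      · have h1 : n < N + 1 := hi ⟨n, a⟩ rfl
        rcases Nat.lt_succ_iff_lt_or_eq.1 h1 with h2 | h2
        · left
          intro x hx
          rw [← Sum.inr_injective hx]
          exact h2
        · right
          subst h2
          exact ⟨a, rfl⟩
    · rintro (hi | ⟨a, rfl⟩)
      · intro x hx
        exact (hi x hx).trans (Nat.lt_succ_self N)
      · intro x hx
        rw [← Sum.inr_injective hx]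
        exact Nat.lt_succ_self N
  have hft : ∀ N, f '' Set.range (j N) = Set.range (v N) := by
    intro N
    rw [← Set.range_comp]
    rfl
  have hmain : ∀ N, LinearIndepOn ℚ f (s N) ∧ Submodule.span ℚ (f '' s N) = W N := by
    intro N
    induction N with
    | zero =>
      rw [hs0]
      constructor
      · rw [linearIndepOn_range_iff Sum.inl_injective]
        exact hp
      · rw [← Set.range_comp]
        exact hpW
    | succ N ih =>
      rw [hsS]
      constructor
      · refine ih.1.union ?_ ?_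
        · rw [linearIndepOn_range_iff (hj N)]
          exact hv N
        · rw [ih.2, hft]
          exact hdisj N
      · rw [Set.image_union, Submodule.span_union, ih.2, hft]
        exact hsup N
  constructor
  · have h1 : LinearIndepOn ℚ f (⋃ N, s N) := by
      refine linearIndepOn_iUnion_of_directed (directed_of_isDirected_le ?_) fun N => (hmain N).1
      intro M N hMN i hi x hx
      exact (hi x hx).trans_le hMN
    have h2 : (⋃ N, s N) = Set.univ := by
      apply Set.eq_univ_of_forall
      intro i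
      rw [Set.mem_iUnion]
      rcases i with i | x
      · exact ⟨0, fun x hx => absurd hx (by simp)⟩
      · refine ⟨x.1 + 1, fun y hy => ?_⟩
        rw [← Sum.inr_injective hy]
        exact Nat.lt_succ_self _
    rw [h2] at h1
    exact linearIndepOn_univ_iff.1 h1
  · rw [eq_top_iff]
    intro x _
    obtain ⟨n, hn⟩ := hex x
    rw [← (hmain n).2] at hn
    exact Submodule.span_mono (Set.image_subset_range f (s n)) hn

/-- a complement given by a linearly independent set -/
private theorem BFcompl (D X : Submodule ℚ ℝ) : ∃ B : Set ℝ, D ≤ X →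
    B ⊆ X ∧ LinearIndependent ℚ (fun b : B => (b : ℝ)) ∧ Disjoint D (Submodule.span ℚ B) ∧
      D ⊔ Submodule.span ℚ B = X := by
  by_cases h : D ≤ X
  · obtain ⟨b, hbD, hbs, hbi⟩ := exists_linearIndependent ℚ (D : Set ℝ)
    have hbD' : Submodule.span ℚ b = D := by rw [hbs, Submodule.span_eq]
    have hbi' : LinearIndepOn ℚ id b := hbi
    obtain ⟨c, hcX, hbc, hXc, hci⟩ := exists_linearIndepOn_id_extension hbi'
      (show b ⊆ (X : Set ℝ) from hbD.trans h)
    have hc : b ∪ (c \ b) = c := Set.union_sdiff_cancel hbc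
    have hcX' : Submodule.span ℚ c = X :=
      le_antisymm (Submodule.span_le.2 hcX) hXc
    have hci' : LinearIndepOn ℚ id (b ∪ (c \ b)) := by rw [hc]; exact hci
    obtain ⟨-, h2, h3⟩ := (linearIndepOn_id_union_iff Set.disjoint_sdiff_right).1 hci'
    refine ⟨c \ b, fun _ => ⟨Set.sdiff_subset.trans hcX, h2, ?_, ?_⟩⟩
    · rw [← hbD']
      exact h3
    · rw [← hcX', ← hbD', ← Submodule.span_union, hc]
  · exact ⟨∅, fun h' => absurd h' h⟩

/-- independence modulo a subspace gives disjointness from it -/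
private theorem BFdisj (X : Submodule ℚ ℝ) (C : Set ℝ) (s : ℝ → ℝ)
    (h : LinearIndependent ℚ (fun y => X.mkQ (s y))) :
    LinearIndependent ℚ (fun y : C => s y) ∧
      Disjoint X (Submodule.span ℚ (Set.range (fun y : C => s y))) := by
  have h1 : LinearIndependent ℚ (fun y : C => X.mkQ (s y)) := h.comp _ Subtype.val_injective
  refine ⟨LinearIndependent.of_comp X.mkQ h1, ?_⟩
  rw [Submodule.disjoint_def]
  intro z hzX hz
  rw [← Finsupp.range_linearCombination] at hz
  obtain ⟨c, rfl⟩ := hz
  have h2 : Finsupp.linearCombination ℚ (fun y : C => X.mkQ (s y)) c = 0 := by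
    have h3 := Finsupp.apply_linearCombination ℚ X.mkQ (fun y : C => s y) c
    have h4 : X.mkQ (Finsupp.linearCombination ℚ (fun y : C => s y) c) = 0 := by
      rw [Submodule.mkQ_apply, Submodule.Quotient.mk_eq_zero]
      exact hzX
    rw [h4] at h3
    exact h3.symm
  have h5 : c = 0 := linearIndependent_iff.1 h1 c h2
  rw [h5, map_zero]

/-- one step of the chain -/
private theorem BFstep (D X : Submodule ℚ ℝ) (B C : Set ℝ) (s : ℝ → ℝ)
    (hDB : Disjoint D (Submodule.span ℚ B))
    (hX : D ⊔ Submodule.span ℚ B = X) (h : LinearIndependent ℚ (fun y => X.mkQ (s y))) :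
    LinearIndependent ℚ (fun y : C => s y) ∧
    Disjoint (Submodule.span ℚ (Set.range (fun b : B => (b : ℝ))))
      (Submodule.span ℚ (Set.range (fun y : C => s y))) ∧
    Disjoint D (Submodule.span ℚ (Set.range (fun b : B => (b : ℝ))) ⊔
      Submodule.span ℚ (Set.range (fun y : C => s y))) ∧
    D ⊔ (Submodule.span ℚ (Set.range (fun b : B => (b : ℝ))) ⊔
      Submodule.span ℚ (Set.range (fun y : C => s y))) =
      X ⊔ Submodule.span ℚ (Set.range (fun y : C => s y)) := by
  obtain ⟨h1, h2⟩ := BFdisj X C s h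
  rw [Subtype.range_coe]
  refine ⟨h1, h2.mono_left ?_, ?_, ?_⟩
  · rw [← hX]
    exact le_sup_right
  · apply Disjoint.disjoint_sup_right_of_disjoint_sup_left hDB
    rw [hX]
    exact h2
  · rw [← sup_assoc, hX]

/-- the back and forth -/
theorem tBF : S_CHAIN → S_BF := by
  intro hCHAIN X Y t s k p q hX hY hXe hYe ht hs hti hsi hp hq hpX hqY
  choose Bf hBf using BFcompl
  let P : ℕ → Submodule ℚ ℝ × Submodule ℚ ℝ := fun n => Nat.rec
    (Submodule.span ℚ (Set.range p), Submodule.span ℚ (Set.range q))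
    (fun n DJ => (X n ⊔ Submodule.span ℚ (Set.range (fun y : Bf DJ.2 (Y n) => s n y)),
      Y n ⊔ Submodule.span ℚ (Set.range (fun b : Bf DJ.1 (X n) => t n b)))) n
  let B : ℕ → Set ℝ := fun n => Bf (P n).1 (X n)
  let C : ℕ → Set ℝ := fun n => Bf (P n).2 (Y n)
  have hP1 : ∀ n, (P (n + 1)).1 = X n ⊔ Submodule.span ℚ (Set.range (fun y : C n => s n y)) :=
    fun _ => rfl
  have hP2 : ∀ n, (P (n + 1)).2 = Y n ⊔ Submodule.span ℚ (Set.range (fun b : B n => t n b)) :=
    fun _ => rfl
  have hPX : ∀ n, (P n).1 ≤ X n := by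
    intro n
    cases n with
    | zero =>
      refine Submodule.span_le.2 ?_
      rintro _ ⟨i, rfl⟩
      exact hpX i
    | succ n =>
      rw [hP1]
      refine sup_le (hX n) (Submodule.span_le.2 ?_)
      rintro _ ⟨y, rfl⟩
      exact hs n y
  have hPY : ∀ n, (P n).2 ≤ Y n := by
    intro n
    cases n with
    | zero =>
      refine Submodule.span_le.2 ?_
      rintro _ ⟨i, rfl⟩
      exact hqY i
    | succ n =>
      rw [hP2]
      refine sup_le (hY n) (Submodule.span_le.2 ?_)
      rintro _ ⟨y, rfl⟩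
      exact ht n y
  have hB := fun n => hBf (P n).1 (X n) (hPX n)
  have hC := fun n => hBf (P n).2 (Y n) (hPY n)
  have hD := fun n => BFstep (P n).1 (X n) (B n) (C n) (s n) (hB n).2.2.1 (hB n).2.2.2 (hsi n)
  have hJ := fun n => BFstep (P n).2 (Y n) (C n) (B n) (t n) (hC n).2.2.1 (hC n).2.2.2 (hti n)
  -- the domain
  obtain ⟨hd1, hd2⟩ := hCHAIN (fun n => (P n).1) (fun n => B n ⊕ C n)
    (fun n => Sum.elim (fun b : B n => (b : ℝ)) (fun y : C n => s n y)) (Fin k) p hp rfl
    (fun n => (hB n).2.1.sum_type (hD n).1 (hD n).2.1)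
    (fun n => by
      rw [Set.Sum.elim_range, Submodule.span_union]
      exact (hD n).2.2.1)
    (fun n => by
      rw [Set.Sum.elim_range, Submodule.span_union, hP1]
      exact (hD n).2.2.2)
    (fun x => by
      obtain ⟨n, hn⟩ := hXe x
      refine ⟨n + 1, ?_⟩
      rw [hP1]
      exact Submodule.mem_sup_left hn)
  -- the image
  obtain ⟨hj1, hj2⟩ := hCHAIN (fun n => (P n).2) (fun n => B n ⊕ C n)
    (fun n => Sum.elim (fun b : B n => t n b) (fun y : C n => (y : ℝ))) (Fin k) q hq rfl
    (fun n => (hJ n).1.sum_type (hC n).2.1 (hJ n).2.1.symm)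
    (fun n => by
      rw [Set.Sum.elim_range, Submodule.span_union, sup_comm]
      exact (hJ n).2.2.1)
    (fun n => by
      rw [Set.Sum.elim_range, Submodule.span_union, hP2, sup_comm (Submodule.span ℚ _)]
      exact (hJ n).2.2.2)
    (fun x => by
      obtain ⟨n, hn⟩ := hYe x
      refine ⟨n + 1, ?_⟩
      rw [hP2]
      exact Submodule.mem_sup_left hn)
  let e : Fin k ⊕ (Σ n, (B n ⊕ C n)) ≃ Fin k ⊕ ((Σ n, B n) ⊕ (Σ n, C n)) :=
    Equiv.sumCongr (Equiv.refl _) (Equiv.sigmaSumDistrib _ _)
  have hdom : domF s p B C ∘ e = Sum.elim p (fun x : Σ n, (B n ⊕ C n) =>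
      Sum.elim (fun b : B x.1 => (b : ℝ)) (fun y : C x.1 => s x.1 y) x.2) := by
    funext i
    rcases i with i | ⟨n, b | c⟩ <;> rfl
  have him : imF t q B C ∘ e = Sum.elim q (fun x : Σ n, (B n ⊕ C n) =>
      Sum.elim (fun b : B x.1 => t x.1 b) (fun y : C x.1 => (y : ℝ)) x.2) := by
    funext i
    rcases i with i | ⟨n, b | c⟩ <;> rfl
  refine ⟨B, C, fun n => (hB n).1, fun n => (hC n).1, ?_, ?_, ?_, ?_⟩
  · rw [← linearIndependent_equiv e, hdom]
    exact hd1
  · rw [← e.surjective.range_comp (domF s p B C), hdom]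
    exact hd2
  · rw [← linearIndependent_equiv e, him]
    exact hj1
  · rw [← e.surjective.range_comp (imF t q B C), him]
    exact hj2

end EPI
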