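import Pool.Agent.Lib.EPI.Spec

/-!
`cl S` is the closure in the matroid of algebraic independence; one step up.
-/

open Complex Module

namespace EPI

private theorem CL_key (S : Set ℂ) (x : ℂ) :
    x ∈ cl S ↔ x ∈ (AlgebraicIndependent.matroid ℚ ℂ).closure S := by
  rw [mem_cl, AlgebraicIndependent.matroid_closure_eq]
  exact IntermediateField.isAlgebraic_adjoin_iff

private theorem CL_sub (S T : Set ℂ) :
    S ⊆ cl T ↔ S ⊆ (AlgebraicIndependent.matroid ℚ ℂ).closure T := by
  constructor
  · intro h x hx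
    exact (CL_key T x).1 (h hx)
  · intro h x hx
    exact (CL_key T x).2 (h hx)

theorem tCL : S_CL := by
  refine ⟨?_, ?_, ?_, ?_⟩
  · intro S x hx
    exact (CL_key S x).2 ((AlgebraicIndependent.matroid ℚ ℂ).subset_closure S (by simp) hx)
  · intro S T h x hx
    rw [CL_key] at hx ⊢
    have h1 := (CL_sub S T).1 h
    have h2 := (AlgebraicIndependent.matroid ℚ ℂ).closure_subset_closure_of_subset_closure h1
    exact h2 hx
  · intro S x hx
    rw [CL_key] at hx
    obtain ⟨F, hF, hfin, -, hx2⟩ := Matroid.exists_mem_finite_closure_of_mem_closure hx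
    refine ⟨hfin.toFinset, by simpa using hF, ?_⟩
    rw [CL_key]
    simpa using hx2
  · intro S
    rw [mem_cl]
    refine ⟨Polynomial.X ^ 2 + Polynomial.C 1, ?_, ?_⟩
    · exact Polynomial.X_pow_add_C_ne_zero (by norm_num) 1
    · simp

theorem tTD2 : S_CL → S_TD2 := by
  intro hC S S' T x n hG hST hSS' hx hxT
  obtain ⟨f, hf, hfS⟩ := hG
  have h1 : ∀ i, f i ∈ cl T := fun i => hC.2.1 S T hST (hfS i)
  have h2 : ∀ i, f i ∈ cl S' := fun i => hC.2.1 S S' hSS' (hfS i)
  have h3 : Transcendental (Algebra.adjoin ℚ (Set.range f)) x := by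
    intro h4
    apply hxT
    have h5 : x ∈ cl (Set.range f) := by
      rw [mem_cl]
      exact IntermediateField.isAlgebraic_adjoin_iff.2 h4
    exact hC.2.1 (Set.range f) T (by rintro _ ⟨i, rfl⟩; exact h1 i) h5
  have h6 := (hf.option_iff_transcendental x).2 h3
  refine ⟨fun i => (finSuccEquiv n i).elim x f, ?_, ?_⟩
  · exact h6.comp (finSuccEquiv n) (finSuccEquiv n).injective
  · intro i
    rcases h : finSuccEquiv n i with _ | j
    · simpa [h] using hx
    · simpa [h] using h2 j

end EPI
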