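import Pool.Agent.Lib.EPI.Spec

/-!
Module CRIT of the independence theorem on `π^π` (MP_4c2ad3_nt): the abstract criterion for the
inequality of Schanuel.
-/

open Complex Module

namespace EPI

private theorem CRIT_zero {E : ℂ → ℂ} (ha : ∀ x y, E (x + y) = E x * E y) (hn : ∀ x, E x ≠ 0) :
    E 0 = 1 := by
  have h := ha 0 0
  rw [add_zero] at h
  exact mul_left_cancel₀ (hn 0) (by rw [← h, mul_one])

private theorem CRIT_nsmul {E : ℂ → ℂ} (ha : ∀ x y, E (x + y) = E x * E y) (hn : ∀ x, E x ≠ 0)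
    (n : ℕ) (x : ℂ) : E (n • x) = E x ^ n := by
  induction n with
  | zero => rw [zero_smul, pow_zero, CRIT_zero ha hn]
  | succ n ih => rw [succ_nsmul, ha, ih, pow_succ]

private theorem CRIT_neg {E : ℂ → ℂ} (ha : ∀ x y, E (x + y) = E x * E y) (hn : ∀ x, E x ≠ 0)
    (x : ℂ) : E (-x) = (E x)⁻¹ := by
  have h := ha x (-x)
  rw [add_neg_cancel, CRIT_zero ha hn] at h
  exact eq_inv_of_mul_eq_one_right h.symm

/-- the numbers `w` with `E w` in `cl S` -/
private noncomputable def CRIT_M {E : ℂ → ℂ} (ha : ∀ x y, E (x + y) = E x * E y)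
    (hn : ∀ x, E x ≠ 0) (S : Set ℂ) : Submodule ℚ ℂ where
  carrier := {w | E w ∈ cl S}
  zero_mem' := by
    show E 0 ∈ cl S
    rw [CRIT_zero ha hn]
    exact (cl S).one_mem
  add_mem' := by
    intro a b h1 h2
    show E (a + b) ∈ cl S
    rw [ha]
    exact (cl S).mul_mem h1 h2
  smul_mem' := by
    intro q x hx
    show E (q • x) ∈ cl S
    refine mem_cl_of_pow (n := q.den) q.den_pos ?_
    rw [← CRIT_nsmul ha hn]
    have h : q.den • (q • x) = q.num • x := by
      rw [← Nat.cast_smul_eq_nsmul ℚ, smul_smul, Rat.den_mul_eq_num, Int.cast_smul_eq_zsmul]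
    rw [h]
    rcases Int.eq_nat_or_neg q.num with ⟨k, hk | hk⟩
    · rw [hk, natCast_zsmul, CRIT_nsmul ha hn]
      exact pow_mem hx k
    · rw [hk, neg_smul, natCast_zsmul, CRIT_neg ha hn, CRIT_nsmul ha hn]
      exact inv_mem (pow_mem hx k)

private theorem CRIT_mem_M {E : ℂ → ℂ} (ha : ∀ x y, E (x + y) = E x * E y)
    (hn : ∀ x, E x ≠ 0) (S : Set ℂ) (w : ℂ) : w ∈ CRIT_M ha hn S ↔ E w ∈ cl S := Iff.rfl

/-- `cl S` as a subspace -/
private noncomputable def CRIT_K (S : Set ℂ) : Submodule ℚ ℂ := (cl S).toSubalgebra.toSubmodule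

private theorem CRIT_mem_K (S : Set ℂ) (w : ℂ) : w ∈ CRIT_K S ↔ w ∈ cl S := Iff.rfl

/-- the kernel of a functional on a subspace -/
private theorem CRIT_dim (V : Submodule ℚ ℂ) [FiniteDimensional ℚ V] (c : ℂ →ₗ[ℚ] ℚ)
    (hc : ∃ v ∈ V, c v ≠ 0) :
    finrank ℚ (V ⊓ LinearMap.ker c : Submodule ℚ ℂ) + 1 = finrank ℚ V := by
  obtain ⟨v, hv, hcv⟩ := hc
  have h1 := LinearMap.finrank_range_add_finrank_ker (c ∘ₗ V.subtype)
  have h2 : LinearMap.range (c ∘ₗ V.subtype) = ⊤ := by
    rw [eq_top_iff]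
    intro x _
    refine ⟨(x / c v) • ⟨v, hv⟩, ?_⟩
    rw [map_smul, LinearMap.comp_apply, Submodule.subtype_apply, smul_eq_mul]
    field_simp
  rw [h2, finrank_top, finrank_self, LinearMap.ker_comp] at h1
  rw [← Submodule.map_comap_subtype, Submodule.finrank_map_subtype_eq]
  omega

private theorem CRIT_fin {κ : Type} (B : Basis κ ℚ ℂ) (V : Submodule ℚ ℂ)
    [FiniteDimensional ℚ V] : {j : κ | ∃ v ∈ V, B.repr v j ≠ 0}.Finite := by
  classical
  obtain ⟨s, hs⟩ := (IsNoetherian.noetherian (⊤ : Submodule ℚ V)).map V.subtype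
  rw [Submodule.map_top, Submodule.range_subtype] at hs
  have h1 : (⋃ v ∈ (s : Set ℂ), {j : κ | B.repr v j ≠ 0}).Finite := by
    refine s.finite_toSet.biUnion fun v _ => ?_
    refine (B.repr v).support.finite_toSet.subset fun j hj => ?_
    exact Finsupp.mem_support_iff.2 hj
  refine h1.subset ?_
  rintro j ⟨v, hv, hj⟩
  by_contra hcon
  have h2 : ∀ w ∈ s, B.repr w j = 0 := by
    intro w hw
    by_contra h3
    exact hcon (Set.mem_biUnion (x := w) hw h3)
  have h4 : V ≤ LinearMap.ker (B.coord j) := by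
    rw [← hs, Submodule.span_le]
    intro w hw
    exact h2 w hw
  exact hj (h4 hv)

theorem tCRIT : S_CL → S_TD2 → S_CRIT := by
  intro hCL hTD E ha hn ι k0 b0 b st T hli hsp H1 H0 Hx
  classical
  obtain ⟨hC1, -, -, -⟩ := hCL
  obtain ⟨B, hB⟩ : ∃ B : Basis (Fin k0 ⊕ ι) ℚ ℂ, ∀ j, B j = Sum.elim b0 b j :=
    ⟨Basis.mk hli (by rw [hsp]), fun j => Basis.mk_apply _ _ j⟩
  have hDz : ∀ v ∈ Submodule.span ℚ (Set.range b0), ∀ h, B.repr v (Sum.inr h) = 0 := by
    intro v hv h
    have h1 : Submodule.span ℚ (Set.range b0) ≤ LinearMap.ker (B.coord (Sum.inr h)) := by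
      rw [Submodule.span_le]
      rintro _ ⟨i, rfl⟩
      have h2 : b0 i = B (Sum.inl i) := by rw [hB]; rfl
      show B.repr (b0 i) (Sum.inr h) = 0
      rw [h2, B.repr_self, Finsupp.single_apply, if_neg Sum.inl_ne_inr]
    exact h1 hv
  have hDm : ∀ v, (∀ h, B.repr v (Sum.inr h) = 0) → v ∈ Submodule.span ℚ (Set.range b0) := by
    intro v hv
    rw [← B.linearCombination_repr v, Finsupp.linearCombination_apply]
    refine Submodule.sum_mem _ fun j hj => ?_
    rcases j with i | h
    · refine Submodule.smul_mem _ _ ?_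
      rw [hB]
      exact Submodule.subset_span ⟨i, rfl⟩
    · exact absurd (hv h) (Finsupp.mem_support_iff.1 hj)
  have hN : ∀ (h : ι) (w : ℂ), B.repr w (Sum.inr h) = 0 →
      (∀ h', B.repr w (Sum.inr h') ≠ 0 → st h' ≤ st h) →
      w ∈ CRIT_K (T h) ⊓ CRIT_M ha hn (T h) := by
    intro h w hw hw'
    rw [← B.linearCombination_repr w, Finsupp.linearCombination_apply]
    refine Submodule.sum_mem _ fun j hj => Submodule.smul_mem _ _ ?_
    rw [hB]
    rcases j with i | h'
    · exact ⟨(H0 h i).1, (H0 h i).2⟩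
    · have hj' := Finsupp.mem_support_iff.1 hj
      have hne : h' ≠ h := by
        rintro rfl
        exact hj' hw
      exact ⟨(H1 h h' hne (hw' h' hj')).1, (H1 h h' hne (hw' h' hj')).2⟩
  have main : ∀ (n : ℕ) (V : Submodule ℚ ℂ), FiniteDimensional ℚ V → finrank ℚ V = n →
      ∀ k : ℕ, Ge (((V ⊓ Submodule.span ℚ (Set.range b0) : Submodule ℚ ℂ) : Set ℂ) ∪
        E '' ((V ⊓ Submodule.span ℚ (Set.range b0) : Submodule ℚ ℂ) : Set ℂ)) k →
      Ge ((V : Set ℂ) ∪ E '' (V : Set ℂ)) (k + (finrank ℚ V -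
        finrank ℚ (V ⊓ Submodule.span ℚ (Set.range b0) : Submodule ℚ ℂ))) := by
    intro n
    induction n using Nat.strong_induction_on with
    | _ n ih =>
      intro V hV hVn k hk
      by_cases hVD : V ≤ Submodule.span ℚ (Set.range b0)
      · rw [inf_eq_left.2 hVD] at hk ⊢
        rw [Nat.sub_self, add_zero]
        exact hk
      · obtain ⟨F, hF⟩ : ∃ F : Set ι, F = {h : ι | ∃ v ∈ V, B.repr v (Sum.inr h) ≠ 0} :=
          ⟨_, rfl⟩
        have hFf : F.Finite := by
          have h1 : (Sum.inr ⁻¹' {j : Fin k0 ⊕ ι | ∃ v ∈ V, B.repr v j ≠ 0}).Finite :=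
            (CRIT_fin B V).preimage Sum.inr_injective.injOn
          rw [hF]
          exact h1
        have hFn : F.Nonempty := by
          by_contra hcon
          refine hVD fun v hv => hDm v fun h => ?_
          by_contra h3
          exact hcon ⟨h, by rw [hF]; exact ⟨v, hv, h3⟩⟩
        obtain ⟨h, hh, hmax⟩ := Set.exists_max_image F st hFf hFn
        have hmax' : ∀ v ∈ V, ∀ h', B.repr v (Sum.inr h') ≠ 0 → st h' ≤ st h := by
          intro v hv h' hv'
          exact hmax h' (by rw [hF]; exact ⟨v, hv, hv'⟩)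
        rw [hF] at hh
        obtain ⟨v, hv, hvh⟩ := hh
        obtain ⟨V1, hV1⟩ : ∃ V1 : Submodule ℚ ℂ, V1 = V ⊓ LinearMap.ker (B.coord (Sum.inr h)) :=
          ⟨_, rfl⟩
        have hV1V : V1 ≤ V := by rw [hV1]; exact inf_le_left
        have hV1z : ∀ w ∈ V1, B.repr w (Sum.inr h) = 0 := by
          intro w hw
          rw [hV1] at hw
          exact hw.2
        have hdim : finrank ℚ V1 + 1 = finrank ℚ V := by
          rw [hV1]
          exact CRIT_dim V (B.coord (Sum.inr h)) ⟨v, hv, hvh⟩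
        have hfd : FiniteDimensional ℚ V1 := Submodule.finiteDimensional_of_le hV1V
        have hinf : V1 ⊓ Submodule.span ℚ (Set.range b0) =
            V ⊓ Submodule.span ℚ (Set.range b0) := by
          apply le_antisymm
          · exact inf_le_inf_right _ hV1V
          · intro w hw
            refine ⟨?_, hw.2⟩
            rw [hV1]
            exact ⟨hw.1, hDz w hw.2 h⟩
        have hle : finrank ℚ (V ⊓ Submodule.span ℚ (Set.range b0) : Submodule ℚ ℂ) ≤
            finrank ℚ V1 := by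
          rw [← hinf]
          exact Submodule.finrank_mono inf_le_left
        have hG := ih (finrank ℚ V1) (by omega) V1 hfd rfl k (by rw [hinf]; exact hk)
        rw [hinf] at hG
        have hcount : k + (finrank ℚ V -
            finrank ℚ (V ⊓ Submodule.span ℚ (Set.range b0) : Submodule ℚ ℂ)) =
            k + (finrank ℚ V1 -
            finrank ℚ (V ⊓ Submodule.span ℚ (Set.range b0) : Submodule ℚ ℂ)) + 1 := by
          omega
        rw [hcount]
        -- the space `V1` lies in `cl (T h)`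
        have hS : (V1 : Set ℂ) ∪ E '' (V1 : Set ℂ) ⊆ cl (T h) := by
          rintro x (hx | ⟨w, hw, rfl⟩)
          · exact (hN h x (hV1z x hx) (hmax' x (hV1V hx))).1
          · exact (hN h w (hV1z w hw) (hmax' w (hV1V hw))).2
        have hS' : (V1 : Set ℂ) ∪ E '' (V1 : Set ℂ) ⊆ cl ((V : Set ℂ) ∪ E '' (V : Set ℂ)) :=
          (Set.union_subset_union hV1V (Set.image_mono hV1V)).trans (hC1 _)
        -- the remaining part of `v`
        obtain ⟨c, hc⟩ : ∃ c : ℚ, c = B.repr v (Sum.inr h) := ⟨_, rfl⟩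
        have hc0 : c ≠ 0 := by rw [hc]; exact hvh
        have hbh : b h = B (Sum.inr h) := by rw [hB]; rfl
        have hw : v - c • b h ∈ CRIT_K (T h) ⊓ CRIT_M ha hn (T h) := by
          have hr : ∀ h', B.repr (v - c • b h) (Sum.inr h') =
              B.repr v (Sum.inr h') - if h = h' then c else 0 := by
            intro h'
            rw [map_sub, map_smul, hbh, B.repr_self, Finsupp.sub_apply, Finsupp.smul_apply,
              Finsupp.single_apply, smul_eq_mul]
            by_cases hh' : h = h'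
            · rw [if_pos hh', if_pos (by rw [hh']), mul_one]
            · rw [if_neg hh', if_neg (fun h4 => hh' (Sum.inr_injective h4)), mul_zero]
          apply hN h
          · rw [hr, if_pos rfl, hc, sub_self]
          · intro h' hh'
            rw [hr] at hh'
            by_cases h4 : h = h'
            · rw [h4]
            · rw [if_neg h4, sub_zero] at hh'
              exact hmax' v hv h' hh'
        have key : ∀ P : Submodule ℚ ℂ, v - c • b h ∈ P → v ∈ P → b h ∈ P := by
          intro P h5 h6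
          have h7 : c • b h ∈ P := by
            have h8 := P.sub_mem h6 h5
            rwa [sub_sub_cancel] at h8
          have h9 := P.smul_mem c⁻¹ h7
          rwa [smul_smul, inv_mul_cancel₀ hc0, one_smul] at h9
        rcases Hx h with ⟨_, h5⟩ | ⟨_, h5⟩
        · refine hTD _ _ (T h) (E v) _ hG hS hS' (hC1 _ (Or.inr ⟨v, hv, rfl⟩)) fun h6 => ?_
          exact h5 (key (CRIT_M ha hn (T h)) hw.2 h6)
        · refine hTD _ _ (T h) v _ hG hS hS' (hC1 _ (Or.inl hv)) fun h6 => ?_
          exact h5 (key (CRIT_K (T h)) hw.1 h6)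
  intro V hV k hk
  exact main _ V hV rfl k hk

end EPI
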