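import Mathlib

/-!
Definitions for the independence theorem on `π^π` (MP_4c2ad3_nt).
-/

open Complex

namespace EPI

/-- the algebraic closure in `ℂ` of the field `ℚ(S)` -/
noncomputable def cl (S : Set ℂ) : IntermediateField ℚ ℂ :=
  (algebraicClosure (IntermediateField.adjoin ℚ S) ℂ).restrictScalars ℚ

/-- there are `n` algebraically independent numbers which are algebraic over `ℚ(S)` -/
def Ge (S : Set ℂ) (n : ℕ) : Prop :=
  ∃ f : Fin n → ℂ, AlgebraicIndependent ℚ f ∧ ∀ i, f i ∈ cl S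

/-- the embedding of the real (`s = false`) or imaginary (`s = true`) line -/
noncomputable def jj (s : Bool) (x : ℝ) : ℂ := if s then (x : ℂ) * I else (x : ℂ)

/-- exponential on this line -/
noncomputable def ee (s : Bool) (y : ℝ) : ℂ := cexp (jj s y)

/-- logarithm of a generic value: `ee false (hh false x) = |x|`,
`ee true (hh true x) = (1 + x i) / (1 - x i)` -/
noncomputable def hh (s : Bool) (x : ℝ) : ℝ := if s then 2 * Real.arctan x else Real.log |x|

/-- number of the family of generic elements used for values (domain element given) -/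
def ta (s : Bool) : Fin 4 := if s then 1 else 0

/-- number of the family of generic elements used for arguments (value given) -/
def sa (s : Bool) : Fin 4 := if s then 3 else 2

/-- `π`, `L` and the `g n a c` form a transcendence basis of `ℝ` over `ℚ` -/
def Gen (L : ℝ) (g : ℕ → Fin 4 → ℝ → ℝ) : Prop :=
  IsTranscendenceBasis ℚ (Sum.elim ![Real.pi, L] (fun i : ℕ × Fin 4 × ℝ => g i.1 i.2.1 i.2.2))

/-- generators of stage `n` -/
def GS (L : ℝ) (g : ℕ → Fin 4 → ℝ → ℝ) (n : ℕ) : Set ℂ :=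
  {((Real.pi : ℝ) : ℂ), (L : ℂ)} ∪ {z | ∃ m < n, ∃ a c, z = ((g m a c : ℝ) : ℂ)}

/-- generators of stage `n + 1` without `g n a c` -/
def GG (L : ℝ) (g : ℕ → Fin 4 → ℝ → ℝ) (n : ℕ) (a : Fin 4) (c : ℝ) : Set ℂ :=
  GS L g n ∪ {z | ∃ a' c', (a', c') ≠ (a, c) ∧ z = ((g n a' c' : ℝ) : ℂ)}

theorem mem_cl {S : Set ℂ} {x : ℂ} :
    x ∈ cl S ↔ IsAlgebraic (IntermediateField.adjoin ℚ S) x := by
  unfold cl
  rw [IntermediateField.mem_restrictScalars]
  exact mem_algebraicClosure_iff

theorem mem_cl_of_pow {S : Set ℂ} {x : ℂ} {n : ℕ} (hn : 0 < n) (h : x ^ n ∈ cl S) : x ∈ cl S := by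
  rw [mem_cl] at *
  exact h.of_pow hn

/-- real numbers in `cl S` -/
noncomputable def XX (S : Set ℂ) : Submodule ℚ ℝ where
  carrier := {x | (x : ℂ) ∈ cl S}
  zero_mem' := by simp [(cl S).zero_mem]
  add_mem' := by
    intro a b ha hb
    simp only [Set.mem_ofPred_eq, ofReal_add] at *
    exact (cl S).add_mem ha hb
  smul_mem' := by
    intro q x hx
    simp only [Set.mem_ofPred_eq] at *
    have : ((q • x : ℝ) : ℂ) = (q : ℂ) * x := by
      rw [Rat.smul_def]; push_cast; ring
    rw [this]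
    refine (cl S).mul_mem ?_ hx
    have := (cl S).algebraMap_mem q
    simpa using this

theorem ee_add (s : Bool) (x y : ℝ) : ee s (x + y) = ee s x * ee s y := by
  unfold ee jj
  cases s <;> simp [← Complex.exp_add, add_mul]

theorem ee_zero (s : Bool) : ee s 0 = 1 := by
  unfold ee jj
  cases s <;> simp

theorem ee_nsmul (s : Bool) (n : ℕ) (x : ℝ) : ee s (n * x) = ee s x ^ n := by
  induction n with
  | zero => simp [ee_zero]
  | succ n ih => rw [pow_succ, ← ih, ← ee_add]; push_cast; ring_nf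

theorem ee_neg (s : Bool) (x : ℝ) : ee s (-x) = (ee s x)⁻¹ := by
  have h := ee_add s x (-x)
  rw [add_neg_cancel, ee_zero] at h
  exact eq_inv_of_mul_eq_one_right h.symm

/-- `{y : ee s y ∈ cl S}` -/
noncomputable def YY (s : Bool) (S : Set ℂ) : Submodule ℚ ℝ where
  carrier := {y | ee s y ∈ cl S}
  zero_mem' := by simp [ee_zero, (cl S).one_mem]
  add_mem' := by
    intro a b ha hb
    simp only [Set.mem_ofPred_eq, ee_add] at *
    exact (cl S).mul_mem ha hb
  smul_mem' := by
    intro q x hx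
    simp only [Set.mem_ofPred_eq] at *
    have hz : ∀ m : ℤ, ee s (m * x) ∈ cl S := by
      intro m
      rcases Int.eq_nat_or_neg m with ⟨k, rfl | rfl⟩
      · have h1 : ee s x ^ k ∈ cl S := pow_mem hx k
        rw [← ee_nsmul] at h1
        simpa using h1
      · have h1 : (ee s x ^ k)⁻¹ ∈ cl S := inv_mem (pow_mem hx k)
        rw [← ee_nsmul, ← ee_neg] at h1
        have h2 : ((-(k : ℤ) : ℤ) : ℝ) * x = -((k : ℝ) * x) := by push_cast; ring
        rw [h2]
        exact h1
    refine mem_cl_of_pow (n := q.den) q.den_pos ?_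
    rw [← ee_nsmul]
    have : ((q.den : ℕ) : ℝ) * (q • x) = ((q.num : ℤ) : ℝ) * x := by
      rw [Rat.smul_def, ← mul_assoc]
      congr 1
      have := Rat.den_mul_eq_num q
      exact_mod_cast this
    rw [this]
    exact hz _

/-- the basis of the domain produced by the back and forth -/
def domF (s : ℕ → ℝ → ℝ) {k : ℕ} (p : Fin k → ℝ) (B C : ℕ → Set ℝ) :
    Fin k ⊕ ((Σ n, B n) ⊕ (Σ n, C n)) → ℝ :=
  Sum.elim p (Sum.elim (fun x => (x.2 : ℝ)) (fun x => s x.1 x.2))

/-- the basis of the image produced by the back and forth -/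
def imF (t : ℕ → ℝ → ℝ) {k : ℕ} (q : Fin k → ℝ) (B C : ℕ → Set ℝ) :
    Fin k ⊕ ((Σ n, B n) ⊕ (Σ n, C n)) → ℝ :=
  Sum.elim q (Sum.elim (fun x => t x.1 x.2) (fun x => (x.2 : ℝ)))

/-- the exponential built from two linear bijections -/
noncomputable def EE (r0 r1 : ℝ ≃ₗ[ℚ] ℝ) (z : ℂ) : ℂ := cexp ((r0 z.re : ℂ) + (r1 z.im : ℂ) * I)

end EPI
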