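import Pool.Agent.Lib.EPI.Spec

/-!
Elementary properties of the exponential built from two linear bijections, and the base of the
two lines.
-/

open Complex Module

namespace EPI

private theorem EP_add (r0 r1 : ℝ ≃ₗ[ℚ] ℝ) (x y : ℂ) :
    EE r0 r1 (x + y) = EE r0 r1 x * EE r0 r1 y := by
  unfold EE
  rw [← Complex.exp_add, Complex.add_re, Complex.add_im, map_add, map_add]
  congr 1
  push_cast
  ring

private theorem EP_int (r1 : ℝ ≃ₗ[ℚ] ℝ) (h : r1 (2 * Real.pi) = 2 * Real.pi) (n : ℤ) :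
    r1 ((n : ℝ) * (2 * Real.pi)) = (n : ℝ) * (2 * Real.pi) := by
  have h1 : (n : ℝ) * (2 * Real.pi) = ((n : ℚ)) • (2 * Real.pi) := by
    rw [Rat.smul_def]
    push_cast
    rfl
  rw [h1, map_smul, h]

private theorem EP_ker (r0 r1 : ℝ ≃ₗ[ℚ] ℝ) (h : r1 (2 * Real.pi) = 2 * Real.pi) (x : ℂ) :
    EE r0 r1 x = 1 ↔ ∃ n : ℤ, x = n * (2 * Real.pi * I) := by
  unfold EE
  rw [Complex.exp_eq_one_iff]
  constructor
  · rintro ⟨n, hn⟩
    refine ⟨n, ?_⟩
    have hre := congrArg Complex.re hn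
    have him := congrArg Complex.im hn
    simp at hre him
    have h2 : r1 x.im = r1 ((n : ℝ) * (2 * Real.pi)) := by rw [EP_int r1 h n, him]
    have h3 : x.im = (n : ℝ) * (2 * Real.pi) := r1.injective h2
    apply Complex.ext
    · simp [hre]
    · simp [h3]
  · rintro ⟨n, hn⟩
    refine ⟨n, ?_⟩
    have hre : x.re = 0 := by rw [hn]; simp
    have him : x.im = (n : ℝ) * (2 * Real.pi) := by rw [hn]; simp
    rw [hre, him, EP_int r1 h n, map_zero]
    push_cast
    ring

private theorem EP_sur (r0 r1 : ℝ ≃ₗ[ℚ] ℝ) (y : ℂ) (hy : y ≠ 0) : ∃ x, EE r0 r1 x = y := by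
  refine ⟨((r0.symm (Complex.log y).re : ℝ) : ℂ) + ((r1.symm (Complex.log y).im : ℝ) : ℂ) * I, ?_⟩
  unfold EE
  have hre : (((r0.symm (Complex.log y).re : ℝ) : ℂ) +
      ((r1.symm (Complex.log y).im : ℝ) : ℂ) * I).re = r0.symm (Complex.log y).re := by simp
  have him : (((r0.symm (Complex.log y).re : ℝ) : ℂ) +
      ((r1.symm (Complex.log y).im : ℝ) : ℂ) * I).im = r1.symm (Complex.log y).im := by simp
  rw [hre, him, LinearEquiv.apply_symm_apply, LinearEquiv.apply_symm_apply, Complex.re_add_im,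
    Complex.exp_log hy]

private theorem EP_conj (r0 r1 : ℝ ≃ₗ[ℚ] ℝ) (z : ℂ) :
    EE r0 r1 ((starRingEnd ℂ) z) = (starRingEnd ℂ) (EE r0 r1 z) := by
  unfold EE
  rw [← Complex.exp_conj, Complex.conj_re, Complex.conj_im, map_neg]
  congr 1
  simp

private theorem EP_pos (r0 r1 : ℝ ≃ₗ[ℚ] ℝ) (x : ℝ) :
    ∃ y : ℝ, 0 < y ∧ EE r0 r1 x = y := by
  refine ⟨Real.exp (r0 x), Real.exp_pos _, ?_⟩
  unfold EE
  simp

private theorem EP_jj (r0 r1 : ℝ ≃ₗ[ℚ] ℝ) (s : Bool) (x : ℝ) :
    EE r0 r1 (jj s x) = ee s ((if s then r1 else r0) x) := by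
  unfold EE ee jj
  cases s <;> simp

theorem tEP : S_EP := by
  intro r0 r1 h
  exact ⟨EP_add r0 r1, fun x => Complex.exp_ne_zero _, EP_ker r0 r1 h, EP_sur r0 r1,
    EP_conj r0 r1, EP_pos r0 r1, EP_jj r0 r1⟩

private theorem EP_pi_tr {L : ℝ} {g : ℕ → Fin 4 → ℝ → ℝ} (h : Gen L g) :
    Transcendental ℚ Real.pi := by
  have h1 := h.1.transcendental (Sum.inl 0)
  simpa using h1

private theorem EP_L_tr {L : ℝ} {g : ℕ → Fin 4 → ℝ → ℝ} (h : Gen L g) :
    Transcendental ℚ L := by
  have h1 := h.1.transcendental (Sum.inl 1)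
  simpa using h1

private theorem EP_clalg {S : Set ℂ} {r : ℝ} (h : IsAlgebraic ℚ r) : (r : ℂ) ∈ cl S := by
  rw [mem_cl]
  have h1 : IsAlgebraic ℚ (r : ℂ) := by
    have := h.algebraMap (A := ℂ)
    simpa using this
  exact h1.tower_top _

private theorem EP_clsub (h : S_CL) {S : Set ℂ} {x : ℂ} (hx : x ∈ S) : x ∈ cl S := h.1 S hx

private theorem EP_rat_ind {a b : ℝ} (h : ∀ p q : ℤ, (p : ℝ) * a + (q : ℝ) * b = 0 → p = 0 ∧ q = 0) :
    LinearIndependent ℚ ![a, b] := by
  rw [LinearIndependent.pair_iff]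
  intro s t hst
  have h1 : (((s.num * t.den : ℤ)) : ℝ) * a + (((t.num * s.den : ℤ)) : ℝ) * b = 0 := by
    rw [Rat.smul_def, Rat.smul_def] at hst
    have hs : (s : ℝ) * (s.den : ℝ) = (s.num : ℝ) := by
      have := Rat.mul_den_eq_num s
      exact_mod_cast this
    have ht : (t : ℝ) * (t.den : ℝ) = (t.num : ℝ) := by
      have := Rat.mul_den_eq_num t
      exact_mod_cast this
    push_cast
    rw [← hs, ← ht]
    have : (s : ℝ) * (s.den : ℝ) * (t.den : ℝ) * a + (t : ℝ) * (t.den : ℝ) * (s.den : ℝ) * b =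
      (s.den : ℝ) * (t.den : ℝ) * ((s : ℝ) * a + (t : ℝ) * b) := by ring
    rw [this, hst, mul_zero]
  obtain ⟨h2, h3⟩ := h _ _ h1
  constructor
  · have : s.num = 0 := by
      rcases mul_eq_zero.mp h2 with h4 | h4
      · exact h4
      · exact absurd h4 (by exact_mod_cast t.den_ne_zero)
    exact Rat.num_eq_zero.mp this
  · have : t.num = 0 := by
      rcases mul_eq_zero.mp h3 with h4 | h4
      · exact h4
      · exact absurd h4 (by exact_mod_cast s.den_ne_zero)
    exact Rat.num_eq_zero.mp this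

private theorem EP_alg_zpow {x : ℝ} (h : IsAlgebraic ℚ x) (n : ℤ) : IsAlgebraic ℚ (x ^ n) := by
  have h1 : x ∈ algebraicClosure ℚ ℝ := mem_algebraicClosure_iff.mpr h
  exact mem_algebraicClosure_iff.mp (zpow_mem h1 n)

private theorem EP_tr_zpow {x : ℝ} (h : Transcendental ℚ x) (n : ℤ) (hn : n ≠ 0) :
    Transcendental ℚ (x ^ n) := by
  intro h1
  apply h
  rcases Int.natAbs_eq n with h2 | h2
  · rw [h2, zpow_natCast] at h1
    exact h1.of_pow (Int.natAbs_pos.mpr hn)
  · rw [h2, zpow_neg, zpow_natCast] at h1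
    have h3 := h1.inv
    rw [inv_inv] at h3
    exact h3.of_pow (Int.natAbs_pos.mpr hn)

theorem tLOG : S_CL → S_LOG := by
  intro hcl L g hg r hr0 hr1 hra
  have hpi := EP_pi_tr hg
  have hL := EP_L_tr hg
  have hpimem : ((Real.pi : ℝ) : ℂ) ∈ cl (GS L g 0) := by
    apply EP_clsub hcl
    left
    simp
  have hLmem : (L : ℂ) ∈ cl (GS L g 0) := by
    apply EP_clsub hcl
    left
    simp
  refine ⟨?_, ?_, ?_, ?_, ?_, ?_, ?_⟩
  · apply EP_rat_ind
    intro p q hpq
    have hL0 : L ≠ 0 := by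
      rintro rfl
      exact hL isAlgebraic_zero
    have h1 : ((p : ℝ) + (q : ℝ) * Real.pi) * L = 0 := by rw [← hpq]; ring
    have h2 : (p : ℝ) + (q : ℝ) * Real.pi = 0 := by
      rcases mul_eq_zero.mp h1 with h | h
      · exact h
      · exact absurd h hL0
    have hq : q = 0 := by
      by_contra hq
      apply hpi
      have hq' : (q : ℝ) ≠ 0 := by exact_mod_cast hq
      have h3 : Real.pi = ((-(p : ℚ) / (q : ℚ) : ℚ) : ℝ) := by
        push_cast
        field_simp
        linarith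
      rw [h3]
      exact isAlgebraic_algebraMap (R := ℚ) (A := ℝ) _
    refine ⟨?_, hq⟩
    rw [hq] at h2
    simp at h2
    exact h2
  · apply EP_rat_ind
    intro p q hpq
    have h1 : Real.pi ^ p * r ^ q = 1 := by
      have h2 : Real.log (Real.pi ^ p * r ^ q) = 0 := by
        rw [Real.log_mul (zpow_ne_zero _ Real.pi_pos.ne') (zpow_ne_zero _ hr0.ne'),
          Real.log_zpow, Real.log_zpow]
        exact hpq
      have h3 : 0 < Real.pi ^ p * r ^ q := mul_pos (zpow_pos Real.pi_pos _) (zpow_pos hr0 _)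
      exact Real.eq_one_of_pos_of_log_eq_zero h3 h2
    have hp : p = 0 := by
      by_contra hp
      apply EP_tr_zpow hpi p hp
      have h4 : Real.pi ^ p = (r ^ q)⁻¹ := eq_inv_of_mul_eq_one_left h1
      rw [h4]
      exact (EP_alg_zpow hra q).inv
    refine ⟨hp, ?_⟩
    rw [hp] at hpq
    simp at hpq
    rcases hpq with h | h
    · exact h
    · exfalso
      rcases h with h | h | h
      · exact hr0.ne' h
      · exact hr1 h
      · linarith
  · rw [linearIndependent_unique_iff]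
    simp [Real.pi_ne_zero]
  · intro i
    fin_cases i
    · exact hLmem
    · change (((Real.pi * L : ℝ)) : ℂ) ∈ cl (GS L g 0)
      push_cast
      exact mul_mem hpimem hLmem
  · intro i
    fin_cases i
    · change ee false (Real.log Real.pi) ∈ cl (GS L g 0)
      have : ee false (Real.log Real.pi) = ((Real.pi : ℝ) : ℂ) := by
        unfold ee jj
        simp only [Bool.false_eq_true, if_false]
        rw [← Complex.ofReal_exp, Real.exp_log Real.pi_pos]
      rw [this]
      exact hpimem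
    · change ee false (Real.log r) ∈ cl (GS L g 0)
      have : ee false (Real.log r) = (r : ℂ) := by
        unfold ee jj
        simp only [Bool.false_eq_true, if_false]
        rw [← Complex.ofReal_exp, Real.exp_log hr0]
      rw [this]
      exact EP_clalg hra
  · intro i
    fin_cases i
    change (((2 * Real.pi : ℝ)) : ℂ) ∈ cl (GS L g 0)
    push_cast
    refine mul_mem ?_ hpimem
    simp
  · intro i
    fin_cases i
    change ee true (2 * Real.pi) ∈ cl (GS L g 0)
    have : ee true (2 * Real.pi) = 1 := by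
      unfold ee jj
      simp only [if_true]
      push_cast
      exact Complex.exp_two_pi_mul_I
    rw [this]
    exact one_mem _

end EPI
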