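import Pool.Agent.Lib.EPI.Spec

/-!
Generic elements and exhaustion (MP_4c2ad3_nt).
-/

open Complex Module

namespace EPI

private theorem EXH_cl_mono (h : S_CL) {S T : Set ℂ} (hST : S ⊆ T) : cl S ≤ cl T :=
  h.2.1 S T (hST.trans (h.1 T))

private theorem EXH_basis {L : ℝ} {g : ℕ → Fin 4 → ℝ → ℝ} (hG : Gen L g) :
    IsTranscendenceBasis ℚ (algebraMap ℝ ℂ ∘
      (Sum.elim ![Real.pi, L] (fun i : ℕ × Fin 4 × ℝ => g i.1 i.2.1 i.2.2))) := by
  have h : IsTranscendenceBasis ℚ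
      (Sum.elim ![Real.pi, L] (fun i : ℕ × Fin 4 × ℝ => g i.1 i.2.1 i.2.2)) := hG
  exact h.algebraMap_comp

private theorem EXH_GS_mono (L : ℝ) (g : ℕ → Fin 4 → ℝ → ℝ) {m n : ℕ} (hmn : m ≤ n) :
    GS L g m ⊆ GS L g n := by
  rintro z (hz | ⟨k, hk, a, c, hz⟩)
  · exact Or.inl hz
  · exact Or.inr ⟨k, lt_of_lt_of_le hk hmn, a, c, hz⟩

/-- `g n a c` is not in the algebraic closure of the others -/
theorem tNOT : S_CL → S_NOT := by
  intro hCL L g hG n a c hmem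
  have hb := EXH_basis hG
  have htr := hb.1.transcendental_adjoin
    (s := {i | i ≠ (Sum.inr (n, a, c) : Fin 2 ⊕ (ℕ × Fin 4 × ℝ))}) (i := Sum.inr (n, a, c))
    (by simp)
  apply htr
  rw [← IntermediateField.isAlgebraic_adjoin_iff]
  have hle : cl (GG L g n a c) ≤ cl ((algebraMap ℝ ℂ ∘
      (Sum.elim ![Real.pi, L] (fun i : ℕ × Fin 4 × ℝ => g i.1 i.2.1 i.2.2))) ''
      {i | i ≠ (Sum.inr (n, a, c) : Fin 2 ⊕ (ℕ × Fin 4 × ℝ))}) := by
    apply EXH_cl_mono hCL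
    rintro z ((hz | ⟨m, hm, a', c', hz⟩) | ⟨a', c', hne, hz⟩)
    · rcases hz with hz | hz
      · exact ⟨Sum.inl 0, by simp, hz.symm⟩
      · exact ⟨Sum.inl 1, by simp, hz.symm⟩
    · refine ⟨Sum.inr (m, a', c'), ?_, hz.symm⟩
      intro h
      have h2 := congrArg Prod.fst (Sum.inr_injective h)
      simp only at h2
      omega
    · refine ⟨Sum.inr (n, a', c'), ?_, hz.symm⟩
      intro h
      exact hne (congrArg Prod.snd (Sum.inr_injective h))
  exact mem_cl.1 (hle hmem)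

/-- exhaustion by the stages -/
theorem tEXH : S_CL → S_EXH := by
  classical
  intro hCL L g hG z
  have hb := EXH_basis hG
  have halg := hb.isAlgebraic_field
  have hz : z ∈ cl (Set.range (algebraMap ℝ ℂ ∘
      (Sum.elim ![Real.pi, L] (fun i : ℕ × Fin 4 × ℝ => g i.1 i.2.1 i.2.2)))) :=
    mem_cl.2 (halg.isAlgebraic z)
  obtain ⟨F, hF, hzF⟩ := hCL.2.2.1 _ z hz
  have hn : ∃ n, (F : Set ℂ) ⊆ GS L g n := by
    clear hzF
    induction F using Finset.induction_on with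
    | empty => exact ⟨0, by simp⟩
    | insert w F hw ih =>
      obtain ⟨n, hn⟩ := ih (fun x hx => hF (by simp [Finset.mem_coe.1 hx]))
      have hw2 : ∃ m, w ∈ GS L g m := by
        obtain ⟨i, hi⟩ := hF (by simp : w ∈ ((insert w F : Finset ℂ) : Set ℂ))
        rcases i with i | ⟨m, a, c⟩
        · fin_cases i
          · exact ⟨0, Or.inl (Or.inl hi.symm)⟩
          · exact ⟨0, Or.inl (Or.inr hi.symm)⟩
        · exact ⟨m + 1, Or.inr ⟨m, Nat.lt_succ_self m, a, c, hi.symm⟩⟩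
      obtain ⟨m, hm⟩ := hw2
      refine ⟨max n m, ?_⟩
      intro x hx
      rcases Finset.mem_insert.1 (Finset.mem_coe.1 hx) with rfl | hx
      · exact EXH_GS_mono L g (le_max_right n m) hm
      · exact EXH_GS_mono L g (le_max_left n m) (hn (Finset.mem_coe.2 hx))
  obtain ⟨n, hn⟩ := hn
  exact ⟨n, EXH_cl_mono hCL hn hzF⟩

end EPI
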