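import Pool.Agent.Lib.EPI.Spec

/-!
The modules NOT, EXH, VAL, IND, SORT of the independence theorem on `π^π` (MP_4c2ad3_nt) over a
general finite algebraically independent family `P` instead of `π, L` (proofs of the seats which
wrote EXH.lean, IND.lean, SORT.lean, adapted).
-/

set_option autoImplicit false

open Complex Module

namespace EPI

/-- the `P i` and the `g n a c` form a transcendence basis of `ℝ` over `ℚ` -/
def Gen2 {N : ℕ} (P : Fin N → ℝ) (g : ℕ → Fin 4 → ℝ → ℝ) : Prop :=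
  IsTranscendenceBasis ℚ (Sum.elim P (fun i : ℕ × Fin 4 × ℝ => g i.1 i.2.1 i.2.2))

/-- generators of stage `n` -/
def GS2 {N : ℕ} (P : Fin N → ℝ) (g : ℕ → Fin 4 → ℝ → ℝ) (n : ℕ) : Set ℂ :=
  Set.range (fun i => ((P i : ℝ) : ℂ)) ∪ {z | ∃ m < n, ∃ a c, z = ((g m a c : ℝ) : ℂ)}

/-- generators of stage `n + 1` without `g n a c` -/
def GG2 {N : ℕ} (P : Fin N → ℝ) (g : ℕ → Fin 4 → ℝ → ℝ) (n : ℕ) (a : Fin 4) (c : ℝ) : Set ℂ :=
  GS2 P g n ∪ {z | ∃ a' c', (a', c') ≠ (a, c) ∧ z = ((g n a' c' : ℝ) : ℂ)}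

def S_NOT2 : Prop := ∀ (N : ℕ) (P : Fin N → ℝ) g, Gen2 P g →
  ∀ n a c, ((g n a c : ℝ) : ℂ) ∉ cl (GG2 P g n a c)

def S_EXH2 : Prop := ∀ (N : ℕ) (P : Fin N → ℝ) g, Gen2 P g → ∀ z : ℂ, ∃ n, z ∈ cl (GS2 P g n)

def S_VAL2 : Prop := ∀ (N : ℕ) (P : Fin N → ℝ) g, Gen2 P g → ∀ (s : Bool) (n : ℕ) (b : ℝ),
  (∀ T : Set ℂ, ((g n (ta s) b : ℝ) : ℂ) ∈ cl T → ee s (hh s (g n (ta s) b)) ∈ cl T) ∧
  (∀ T : Set ℂ, ee s (hh s (g n (ta s) b)) ∈ cl T → ((g n (ta s) b : ℝ) : ℂ) ∈ cl T)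

def S_IND2 : Prop := ∀ (N : ℕ) (P : Fin N → ℝ) g, Gen2 P g → ∀ (s : Bool) (n : ℕ),
  LinearIndependent ℚ (fun b : ℝ => (YY s (GS2 P g n)).mkQ (hh s (g n (ta s) b))) ∧
  LinearIndependent ℚ (fun y : ℝ => (XX (GS2 P g n)).mkQ (g n (sa s) y))

def S_SORT2 : Prop := ∀ (N : ℕ) (P : Fin N → ℝ) g, Gen2 P g → ∀ (s : Bool) (k : ℕ)
  (p q : Fin k → ℝ), LinearIndependent ℚ p → LinearIndependent ℚ q →
  (∀ i, p i ∈ XX (GS2 P g 0)) → (∀ i, q i ∈ YY s (GS2 P g 0)) →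
  ∃ (B C : ℕ → Set ℝ) (ρ : ℝ ≃ₗ[ℚ] ℝ), (∀ n, B n ⊆ XX (GS2 P g n)) ∧
    (∀ n, C n ⊆ YY s (GS2 P g n)) ∧
    LinearIndependent ℚ (domF (fun n y => g n (sa s) y) p B C) ∧
    Submodule.span ℚ (Set.range (domF (fun n y => g n (sa s) y) p B C)) = ⊤ ∧
    (∀ i, ρ (domF (fun n y => g n (sa s) y) p B C i) =
      imF (fun n b => hh s (g n (ta s) b)) q B C i)

private theorem GEXH_cl_mono (h : S_CL) {S T : Set ℂ} (hST : S ⊆ T) : cl S ≤ cl T :=
  h.2.1 S T (hST.trans (h.1 T))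

private theorem GEXH_basis {N : ℕ} {P : Fin N → ℝ} {g : ℕ → Fin 4 → ℝ → ℝ} (hG : Gen2 P g) :
    IsTranscendenceBasis ℚ (algebraMap ℝ ℂ ∘
      (Sum.elim P (fun i : ℕ × Fin 4 × ℝ => g i.1 i.2.1 i.2.2))) := by
  have h : IsTranscendenceBasis ℚ
      (Sum.elim P (fun i : ℕ × Fin 4 × ℝ => g i.1 i.2.1 i.2.2)) := hG
  exact h.algebraMap_comp

private theorem EXH_GS_mono {N : ℕ} (P : Fin N → ℝ) (g : ℕ → Fin 4 → ℝ → ℝ) {m n : ℕ} (hmn : m ≤ n) :
    GS2 P g m ⊆ GS2 P g n := by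
  rintro z (hz | ⟨k, hk, a, c, hz⟩)
  · exact Or.inl hz
  · exact Or.inr ⟨k, lt_of_lt_of_le hk hmn, a, c, hz⟩

/-- `g n a c` is not in the algebraic closure of the others -/
theorem tNOT2 : S_CL → S_NOT2 := by
  intro hCL N P g hG n a c hmem
  have hb := GEXH_basis hG
  have htr := hb.1.transcendental_adjoin
    (s := {i | i ≠ (Sum.inr (n, a, c) : Fin N ⊕ (ℕ × Fin 4 × ℝ))}) (i := Sum.inr (n, a, c))
    (by simp)
  apply htr
  rw [← IntermediateField.isAlgebraic_adjoin_iff]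
  have hle : cl (GG2 P g n a c) ≤ cl ((algebraMap ℝ ℂ ∘
      (Sum.elim P (fun i : ℕ × Fin 4 × ℝ => g i.1 i.2.1 i.2.2))) ''
      {i | i ≠ (Sum.inr (n, a, c) : Fin N ⊕ (ℕ × Fin 4 × ℝ))}) := by
    apply GEXH_cl_mono hCL
    rintro z ((⟨i, hz⟩ | ⟨m, hm, a', c', hz⟩) | ⟨a', c', hne, hz⟩)
    · exact ⟨Sum.inl i, by simp, hz⟩
    · refine ⟨Sum.inr (m, a', c'), ?_, hz.symm⟩
      intro h
      have h2 := congrArg Prod.fst (Sum.inr_injective h)
      simp only at h2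
      omega
    · refine ⟨Sum.inr (n, a', c'), ?_, hz.symm⟩
      intro h
      exact hne (congrArg Prod.snd (Sum.inr_injective h))
  exact mem_cl.1 (hle hmem)

/-- exhaustion by the stages -/
theorem tEXH2 : S_CL → S_EXH2 := by
  classical
  intro hCL N P g hG z
  have hb := GEXH_basis hG
  have halg := hb.isAlgebraic_field
  have hz : z ∈ cl (Set.range (algebraMap ℝ ℂ ∘
      (Sum.elim P (fun i : ℕ × Fin 4 × ℝ => g i.1 i.2.1 i.2.2)))) :=
    mem_cl.2 (halg.isAlgebraic z)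
  obtain ⟨F, hF, hzF⟩ := hCL.2.2.1 _ z hz
  have hn : ∃ n, (F : Set ℂ) ⊆ GS2 P g n := by
    clear hzF
    induction F using Finset.induction_on with
    | empty => exact ⟨0, by simp⟩
    | insert w F hw ih =>
      obtain ⟨n, hn⟩ := ih (fun x hx => hF (by simp [Finset.mem_coe.1 hx]))
      have hw2 : ∃ m, w ∈ GS2 P g m := by
        obtain ⟨i, hi⟩ := hF (by simp : w ∈ ((insert w F : Finset ℂ) : Set ℂ))
        rcases i with i | ⟨m, a, c⟩
        · exact ⟨0, Or.inl ⟨i, hi⟩⟩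
        · exact ⟨m + 1, Or.inr ⟨m, Nat.lt_succ_self m, a, c, hi.symm⟩⟩
      obtain ⟨m, hm⟩ := hw2
      refine ⟨max n m, ?_⟩
      intro x hx
      rcases Finset.mem_insert.1 (Finset.mem_coe.1 hx) with rfl | hx
      · exact EXH_GS_mono P g (le_max_right n m) hm
      · exact EXH_GS_mono P g (le_max_left n m) (hn (Finset.mem_coe.2 hx))
  obtain ⟨n, hn⟩ := hn
  exact ⟨n, GEXH_cl_mono hCL hn hzF⟩

private theorem GVAL_false {x : ℝ} (hx : x ≠ 0) : ee false (hh false x) = ((|x| : ℝ) : ℂ) := by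
  simp only [ee, hh, jj, Bool.false_eq_true, if_false]
  rw [← Complex.ofReal_exp, Real.exp_log (abs_pos.2 hx)]

private theorem GVAL_true (x : ℝ) : ee true (hh true x) * (1 - (x : ℂ) * I) = 1 + (x : ℂ) * I := by
  simp only [ee, hh, jj, if_true]
  have h1 : ((2 * Real.arctan x : ℝ) : ℂ) * I = (Real.arctan x : ℂ) * I + (Real.arctan x : ℂ) * I := by
    push_cast
    ring
  have hs : Real.sqrt (1 + x ^ 2) ≠ 0 := (Real.sqrt_pos.2 (by positivity)).ne'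
  have hs2 : Real.sqrt (1 + x ^ 2) ^ 2 = 1 + x ^ 2 := Real.sq_sqrt (by positivity)
  have hsC : ((Real.sqrt (1 + x ^ 2) : ℝ) : ℂ) ≠ 0 := by exact_mod_cast hs
  have hs2C : ((Real.sqrt (1 + x ^ 2) : ℝ) : ℂ) ^ 2 = 1 + (x : ℂ) ^ 2 := by exact_mod_cast hs2
  have h2 : cexp ((Real.arctan x : ℂ) * I) * ((Real.sqrt (1 + x ^ 2) : ℝ) : ℂ) = 1 + (x : ℂ) * I := by
    rw [Complex.exp_mul_I, ← Complex.ofReal_cos, ← Complex.ofReal_sin, Real.cos_arctan, Real.sin_arctan]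
    push_cast
    field_simp
  rw [h1, Complex.exp_add]
  have h3 : (cexp ((Real.arctan x : ℂ) * I) * cexp ((Real.arctan x : ℂ) * I)) *
      ((Real.sqrt (1 + x ^ 2) : ℝ) : ℂ) ^ 2 = (1 + (x : ℂ) * I) ^ 2 := by
    rw [← h2]
    ring
  have h4 : (1 + (x : ℂ) ^ 2) = (1 + (x : ℂ) * I) * (1 - (x : ℂ) * I) := by
    linear_combination (x : ℂ) ^ 2 * Complex.I_sq
  rw [hs2C, h4] at h3
  have h5 : 1 + (x : ℂ) * I ≠ 0 := by
    intro h
    rw [h] at h2
    exact mul_ne_zero (Complex.exp_ne_zero _) hsC h2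
  apply mul_left_cancel₀ h5
  linear_combination h3

theorem tVAL2 : S_CL → S_NOT2 → S_VAL2 := by
  intro hCL hNOT N P g hG s n b
  obtain ⟨hc1, hc2, hc3, hc4⟩ := hCL
  have hx : g n (ta s) b ≠ 0 := by
    intro h
    apply hNOT N P g hG n (ta s) b
    rw [h, Complex.ofReal_zero]
    exact (cl _).zero_mem
  cases s with
  | false =>
    rw [GVAL_false hx]
    constructor
    · intro T hT
      rcases abs_choice (g n (ta false) b) with h | h
      · rw [h]; exact hT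
      · rw [h, Complex.ofReal_neg]; exact (cl T).neg_mem hT
    · intro T hT
      rcases abs_choice (g n (ta false) b) with h | h
      · rw [h] at hT; exact hT
      · rw [h, Complex.ofReal_neg] at hT
        have := (cl T).neg_mem hT
        rwa [neg_neg] at this
  | true =>
    have key := GVAL_true (g n (ta true) b)
    set x : ℂ := ((g n (ta true) b : ℝ) : ℂ) with hxdef
    set u : ℂ := ee true (hh true (g n (ta true) b)) with hu
    have h1 : (u + 1) * (1 - x * I) = 2 := by linear_combination key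
    have h2 : u + 1 ≠ 0 := by
      intro h
      rw [h, zero_mul] at h1
      exact two_ne_zero h1.symm
    have h3 : 1 - x * I ≠ 0 := by
      intro h
      rw [h, mul_zero] at h1
      exact two_ne_zero h1.symm
    constructor
    · intro T hT
      have h4 : u = (1 + x * I) / (1 - x * I) := by
        rw [eq_div_iff h3]; exact key
      rw [h4]
      have h5 : x * I ∈ cl T := (cl T).mul_mem hT (hc4 T)
      exact (cl T).div_mem ((cl T).add_mem (cl T).one_mem h5) ((cl T).sub_mem (cl T).one_mem h5)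
    · intro T hT
      have h4 : x = (u - 1) / (I * (u + 1)) := by
        rw [eq_div_iff (mul_ne_zero Complex.I_ne_zero h2)]
        linear_combination -key
      rw [h4]
      exact (cl T).div_mem ((cl T).sub_mem hT (cl T).one_mem)
        ((cl T).mul_mem (hc4 T) ((cl T).add_mem hT (cl T).one_mem))

private theorem GIND_lin {Y : Submodule ℚ ℝ} {t : ℝ → ℝ} (Z : ℝ → Submodule ℚ ℝ) (h1 : ∀ b, Y ≤ Z b)
    (h2 : ∀ b b', b' ≠ b → t b' ∈ Z b) (h3 : ∀ b, t b ∉ Z b) :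
    LinearIndependent ℚ (fun b => Y.mkQ (t b)) := by
  rw [linearIndependent_iff']
  intro F q hq b hb
  by_contra hqb
  have h4 : ∑ i ∈ F, q i • t i ∈ Y := by
    rw [← Submodule.ker_mkQ Y, LinearMap.mem_ker, map_sum]
    simpa only [map_smul] using hq
  have h5 : ∑ i ∈ F, q i • t i ∈ Z b := h1 b h4
  rw [← Finset.add_sum_erase F _ hb] at h5
  have h6 : ∑ i ∈ F.erase b, q i • t i ∈ Z b :=
    Submodule.sum_mem _ (fun i hi => (Z b).smul_mem _ (h2 b i (Finset.ne_of_mem_erase hi)))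
  have h7 : q b • t b ∈ Z b := by
    have := (Z b).sub_mem h5 h6
    simpa only [add_sub_cancel_right] using this
  have h8 := (Z b).smul_mem (q b)⁻¹ h7
  rw [smul_smul, inv_mul_cancel₀ hqb, one_smul] at h8
  exact h3 b h8

theorem tIND2 : S_CL → S_NOT2 → S_VAL2 → S_IND2 := by
  intro hCL hNOT hVAL N P g hG s n
  obtain ⟨hc1, hc2, hc3, hc4⟩ := hCL
  have hsub : ∀ (a : Fin 4) (c : ℝ), GS2 P g n ⊆ cl (GG2 P g n a c) :=
    fun a c z hz => hc1 _ (Or.inl hz)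
  have hmem : ∀ (a : Fin 4) (c c' : ℝ), c' ≠ c → ((g n a c' : ℝ) : ℂ) ∈ cl (GG2 P g n a c) := by
    intro a c c' h
    exact hc1 _ (Or.inr ⟨a, c', fun h' => h (Prod.mk.inj h').2, rfl⟩)
  constructor
  · refine GIND_lin (fun b => YY s (GG2 P g n (ta s) b)) ?_ ?_ ?_
    · intro b y hy
      exact hc2 _ _ (hsub _ _) hy
    · intro b b' hb
      exact (hVAL N P g hG s n b').1 _ (hmem _ _ _ hb)
    · intro b hb
      exact hNOT N P g hG n _ b ((hVAL N P g hG s n b).2 _ hb)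
  · refine GIND_lin (fun b => XX (GG2 P g n (sa s) b)) ?_ ?_ ?_
    · intro b y hy
      exact hc2 _ _ (hsub _ _) hy
    · intro b b' hb
      exact hmem _ _ _ hb
    · intro b hb
      exact hNOT N P g hG n _ b hb

private theorem GSORT_gs {N : ℕ} (P : Fin N → ℝ) (g : ℕ → Fin 4 → ℝ → ℝ) (n : ℕ) : GS2 P g n ⊆ GS2 P g (n + 1) := by
  rintro z (hz | ⟨m, hm, a, c, rfl⟩)
  · exact Or.inl hz
  · exact Or.inr ⟨m, Nat.lt_succ_of_lt hm, a, c, rfl⟩

private theorem GSORT_mem {N : ℕ} (P : Fin N → ℝ) (g : ℕ → Fin 4 → ℝ → ℝ) (n : ℕ) (a : Fin 4) (c : ℝ) :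
    ((g n a c : ℝ) : ℂ) ∈ GS2 P g (n + 1) :=
  Or.inr ⟨n, Nat.lt_succ_self n, a, c, rfl⟩

theorem tSORT2 : S_CL → S_EXH2 → S_VAL2 → S_IND2 → S_BF → S_SORT2 := by
  intro hCL hEXH hVAL hIND hBF N P g hg s k p q hp hq hpX hqY
  obtain ⟨c1, c2, -, -⟩ := hCL
  have hmono : ∀ n, cl (GS2 P g n) ≤ cl (GS2 P g (n + 1)) := fun n =>
    c2 _ _ ((GSORT_gs P g n).trans (c1 _))
  obtain ⟨B, C, hB, hC, li1, sp1, li2, sp2⟩ := hBF (fun n => XX (GS2 P g n)) (fun n => YY s (GS2 P g n))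
    (fun n b => hh s (g n (ta s) b)) (fun n y => g n (sa s) y) k p q
    (fun n x hx => hmono n hx) (fun n x hx => hmono n hx)
    (fun x => hEXH N P g hg (x : ℂ)) (fun x => hEXH N P g hg (ee s x))
    (fun n b => (hVAL N P g hg s n b).1 _ (c1 _ (GSORT_mem P g n (ta s) b)))
    (fun n y => c1 _ (GSORT_mem P g n (sa s) y))
    (fun n => (hIND N P g hg s n).1) (fun n => (hIND N P g hg s n).2) hp hq hpX hqY
  refine ⟨B, C, (Basis.mk li1 sp1.ge).equiv (Basis.mk li2 sp2.ge) (Equiv.refl _), hB, hC, li1, sp1,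
    fun i => ?_⟩
  have h1 := Basis.equiv_apply (b := Basis.mk li1 sp1.ge) (b' := Basis.mk li2 sp2.ge) (i := i)
    (e := Equiv.refl _)
  rw [Basis.mk_apply, Equiv.refl_apply, Basis.mk_apply] at h1
  exact h1

end EPI
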