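import Pool.Agent.Lib.EPI.G2

/-!
Generic elements over a given finite algebraically independent family `P`, base values.
-/

set_option autoImplicit false

open Complex Module Cardinal

namespace EPI

private theorem GENG_card {t : Set ℝ} (ht : IsTranscendenceBasis ℚ ((↑) : t → ℝ)) :
    #t = 𝔠 := by
  refine le_antisymm ?_ ?_
  · calc #t ≤ #ℝ := mk_set_le t
      _ = 𝔠 := mk_real
  · have h0 : Algebra.IsAlgebraic (Algebra.adjoin ℚ (Set.range ((↑) : t → ℝ))) ℝ :=
      ht.isAlgebraic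
    have h1 : #ℝ ≤ max #(Algebra.adjoin ℚ (Set.range ((↑) : t → ℝ))) ℵ₀ :=
      Algebra.IsAlgebraic.cardinalMk_le_max _ ℝ
    have h2 : #(MvPolynomial t ℚ) = #(Algebra.adjoin ℚ (Set.range ((↑) : t → ℝ))) :=
      Cardinal.mk_congr ht.1.aevalEquiv.toEquiv
    have h3 : #(MvPolynomial t ℚ) ≤ #ℚ ⊔ #t ⊔ ℵ₀ := MvPolynomial.cardinalMk_le_max
    have h4 : (#ℚ : Cardinal) = ℵ₀ := Cardinal.mk_eq_aleph0 ℚ
    rw [← h2] at h1
    have h5 : 𝔠 ≤ max #t ℵ₀ := by
      calc 𝔠 = #ℝ := mk_real.symm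
        _ ≤ max #(MvPolynomial t ℚ) ℵ₀ := h1
        _ ≤ max (#ℚ ⊔ #t ⊔ ℵ₀) ℵ₀ := max_le_max h3 le_rfl
        _ ≤ max #t ℵ₀ := by
          rw [h4]
          exact max_le (max_le (max_le (le_max_right _ _) (le_max_left _ _)) (le_max_right _ _))
            (le_max_right _ _)
    rcases le_max_iff.1 h5 with h | h
    · exact h
    · exact absurd h (not_le.2 aleph0_lt_continuum)

theorem tGENG {N : ℕ} (P : Fin N → ℝ) (hL : AlgebraicIndependent ℚ P) :
    ∃ g : ℕ → Fin 4 → ℝ → ℝ, Gen2 P g := by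
  classical
  have hs : AlgebraicIndepOn ℚ id (Set.range P) := hL.coe_range
  obtain ⟨t, hst, ht⟩ := exists_isTranscendenceBasis_superset hs
  have hct := GENG_card ht
  have hfin : (Set.range P).Finite := Set.finite_range _
  have hcd : #(↥(t \ Set.range P)) = #(ℕ × Fin 4 × ℝ) := by
    have h1 : #(↥(t \ Set.range P)) = 𝔠 := by
      have h2 : #t ≤ #(↥(t \ Set.range P)) + #(↥(Set.range P)) := by
        calc #t ≤ #(↥((t \ Set.range P) ∪ Set.range P)) := by
              refine mk_le_mk_of_subset ?_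
              intro x hx
              by_cases h : x ∈ Set.range P
              · exact Or.inr h
              · exact Or.inl ⟨hx, h⟩
          _ ≤ _ := mk_union_le _ _
      have h3 : #(↥(Set.range P)) < ℵ₀ := by
        rw [Cardinal.lt_aleph0_iff_finite]
        exact hfin.to_subtype
      refine le_antisymm ?_ ?_
      · calc _ ≤ #t := mk_le_mk_of_subset Set.sdiff_subset
          _ = 𝔠 := hct
      · by_contra hlt
        rw [not_le] at hlt
        have h4 : #(↥(t \ Set.range P)) + #(↥(Set.range P)) < 𝔠 :=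
          add_lt_of_lt aleph0_le_continuum hlt (h3.trans aleph0_lt_continuum)
        rw [hct] at h2
        exact absurd h2 (not_le.2 h4)
    rw [h1, mk_prod, mk_prod, mk_real]
    simp
  obtain ⟨e⟩ := Cardinal.eq.1 hcd
  refine ⟨fun n a c => ((e.symm (n, a, c)) : ℝ), ?_⟩
  unfold Gen2
  have hinj : Function.Injective P := hL.injective
  set F : (Fin N ⊕ (ℕ × Fin 4 × ℝ)) → ℝ := Sum.elim P
    (fun i : ℕ × Fin 4 × ℝ => ((e.symm (i.1, i.2.1, i.2.2)) : ℝ)) with hF
  have hFinj : Function.Injective F := by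
    refine Function.Injective.sumElim hinj ?_ ?_
    · intro a b hab
      have h1 : e.symm (a.1, a.2.1, a.2.2) = e.symm (b.1, b.2.1, b.2.2) := Subtype.ext hab
      exact e.symm.injective h1
    · intro a b hab
      exact (e.symm (b.1, b.2.1, b.2.2)).2.2 ⟨a, hab⟩
  have hrange : Set.range F = t := by
    rw [hF, Set.Sum.elim_range]
    refine Set.Subset.antisymm ?_ ?_
    · refine Set.union_subset hst ?_
      rintro x ⟨i, rfl⟩
      exact (e.symm (i.1, i.2.1, i.2.2)).2.1
    · intro x hx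
      by_cases h : x ∈ Set.range P
      · exact Or.inl h
      · refine Or.inr ⟨e ⟨x, hx, h⟩, ?_⟩
        simp
  rw [← isTranscendenceBasis_subtype_range hFinj, hrange]
  exact ht


/-- a finite algebraically independent family of reals over which `π, L, r` are algebraic -/
theorem tBASEG (hCL : S_CL) (L r : ℝ) (hL : AlgebraicIndependent ℚ ![Real.pi, L]) :
    ∃ (N : ℕ) (P : Fin N → ℝ), AlgebraicIndependent ℚ P ∧
      ((Real.pi : ℝ) : ℂ) ∈ cl (Set.range (fun i => ((P i : ℝ) : ℂ))) ∧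
      ((L : ℝ) : ℂ) ∈ cl (Set.range (fun i => ((P i : ℝ) : ℂ))) ∧
      ((r : ℝ) : ℂ) ∈ cl (Set.range (fun i => ((P i : ℝ) : ℂ))) := by
  have hpi : ((Real.pi : ℝ) : ℂ) ∈ cl (Set.range (fun i => ((![Real.pi, L] i : ℝ) : ℂ))) :=
    hCL.1 _ ⟨0, rfl⟩
  have hLm : ((L : ℝ) : ℂ) ∈ cl (Set.range (fun i => ((![Real.pi, L] i : ℝ) : ℂ))) :=
    hCL.1 _ ⟨1, rfl⟩
  by_cases hr : ((r : ℝ) : ℂ) ∈ cl (Set.range (fun i => ((![Real.pi, L] i : ℝ) : ℂ)))
  · exact ⟨2, ![Real.pi, L], hL, hpi, hLm, hr⟩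
  · have hC : AlgebraicIndependent ℚ (fun i => ((![Real.pi, L] i : ℝ) : ℂ)) := by
      have h := hL.map' (f := (Algebra.ofId ℝ ℂ).restrictScalars ℚ) (algebraMap ℝ ℂ).injective
      exact h
    have h3 : Transcendental (Algebra.adjoin ℚ
        (Set.range (fun i => ((![Real.pi, L] i : ℝ) : ℂ)))) ((r : ℝ) : ℂ) := by
      intro h4
      apply hr
      rw [mem_cl]
      exact IntermediateField.isAlgebraic_adjoin_iff.2 h4
    have h6 := (hC.option_iff_transcendental ((r : ℝ) : ℂ)).2 h3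
    have h7 : AlgebraicIndependent ℚ
        (fun o : Option (Fin 2) => o.elim r (fun i => ![Real.pi, L] i)) := by
      have hinj : Function.Injective ((Algebra.ofId ℝ ℂ).restrictScalars ℚ) :=
        (algebraMap ℝ ℂ).injective
      refine (AlgHom.algebraicIndependent_iff _ hinj).1 ?_
      have h8 : (fun o : Option (Fin 2) => o.elim ((r : ℝ) : ℂ)
          (fun i => ((![Real.pi, L] i : ℝ) : ℂ))) =
          ((Algebra.ofId ℝ ℂ).restrictScalars ℚ) ∘
            (fun o : Option (Fin 2) => o.elim r (fun i => ![Real.pi, L] i)) := by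
        funext o
        cases o <;> rfl
      rw [h8] at h6
      exact h6
    refine ⟨3, fun i => (finSuccEquiv 2 i).elim r (fun i => ![Real.pi, L] i),
      h7.comp (finSuccEquiv 2) (finSuccEquiv 2).injective, ?_, ?_, ?_⟩
    · exact hCL.1 _ ⟨1, rfl⟩
    · exact hCL.1 _ ⟨2, rfl⟩
    · exact hCL.1 _ ⟨0, rfl⟩

private theorem GENG_rat_ind {a b : ℝ}
    (h : ∀ p q : ℤ, (p : ℝ) * a + (q : ℝ) * b = 0 → p = 0 ∧ q = 0) :
    LinearIndependent ℚ ![a, b] := by
  rw [LinearIndependent.pair_iff]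
  intro s t hst
  have h1 : (((s.num * t.den : ℤ)) : ℝ) * a + (((t.num * s.den : ℤ)) : ℝ) * b = 0 := by
    rw [Rat.smul_def, Rat.smul_def] at hst
    have hs : (s : ℝ) * (s.den : ℝ) = (s.num : ℝ) := by
      have := Rat.mul_den_eq_num s
      exact_mod_cast this
    have ht : (t : ℝ) * (t.den : ℝ) = (t.num : ℝ) := by
      have := Rat.mul_den_eq_num t
      exact_mod_cast this
    push_cast
    rw [← hs, ← ht]
    have : (s : ℝ) * (s.den : ℝ) * (t.den : ℝ) * a + (t : ℝ) * (t.den : ℝ) * (s.den : ℝ) * b =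
      (s.den : ℝ) * (t.den : ℝ) * ((s : ℝ) * a + (t : ℝ) * b) := by ring
    rw [this, hst, mul_zero]
  obtain ⟨h2, h3⟩ := h _ _ h1
  constructor
  · have : s.num = 0 := by
      rcases mul_eq_zero.mp h2 with h4 | h4
      · exact h4
      · exact absurd h4 (by exact_mod_cast t.den_ne_zero)
    exact Rat.num_eq_zero.mp this
  · have : t.num = 0 := by
      rcases mul_eq_zero.mp h3 with h4 | h4
      · exact h4
      · exact absurd h4 (by exact_mod_cast s.den_ne_zero)
    exact Rat.num_eq_zero.mp this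

theorem tLOG1 (L : ℝ) (hL : L ≠ 0) : LinearIndependent ℚ ![L, Real.pi * L] := by
  apply GENG_rat_ind
  intro p q hpq
  have h1 : ((p : ℝ) + (q : ℝ) * Real.pi) * L = 0 := by rw [← hpq]; ring
  have h2 : (p : ℝ) + (q : ℝ) * Real.pi = 0 := by
    rcases mul_eq_zero.mp h1 with h | h
    · exact h
    · exact absurd h hL
  have hq : q = 0 := by
    by_contra hq
    apply irrational_pi
    have hq' : (q : ℝ) ≠ 0 := by exact_mod_cast hq
    refine ⟨-(p : ℚ) / (q : ℚ), ?_⟩
    push_cast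
    field_simp
    linarith
  refine ⟨?_, hq⟩
  rw [hq] at h2
  simp at h2
  exact h2

theorem tLOG2 (r : ℝ) (hr : 0 < r) (hq : ∀ q : ℚ, r ≠ Real.pi ^ (q : ℝ)) :
    LinearIndependent ℚ ![Real.log Real.pi, Real.log r] := by
  have hlp : 0 < Real.log Real.pi := Real.log_pos (by linarith [Real.pi_gt_three])
  apply GENG_rat_ind
  intro p q hpq
  have hq0 : q = 0 := by
    by_contra h0
    have hq' : (q : ℝ) ≠ 0 := by exact_mod_cast h0
    apply hq (-(p : ℚ) / (q : ℚ))
    have h1 : Real.log r = ((-(p : ℚ) / (q : ℚ) : ℚ) : ℝ) * Real.log Real.pi := by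
      push_cast
      field_simp
      linarith
    rw [Real.rpow_def_of_pos Real.pi_pos, mul_comm, ← h1, Real.exp_log hr]
  refine ⟨?_, hq0⟩
  rw [hq0] at hpq
  simp only [Int.cast_zero, zero_mul, add_zero, mul_eq_zero, Int.cast_eq_zero] at hpq
  rcases hpq with h | h
  · exact h
  · exact absurd h hlp.ne'

end EPI
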