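import Pool.Agent.Lib.EPI.Spec

/-!
MP_4c2ad3_nt, module GEN: existence of the generic elements.
-/

open Complex Module

namespace EPI

private theorem GEN_card {t : Set ℝ} (ht : IsTranscendenceBasis ℚ ((↑) : t → ℝ)) :
    Cardinal.mk t = Cardinal.continuum := by
  refine le_antisymm ?_ ?_
  · rw [← Cardinal.mk_real]
    exact Cardinal.mk_set_le t
  · haveI := ht.isAlgebraic
    have h1 : Cardinal.mk ℝ ≤ max (Cardinal.mk (Algebra.adjoin ℚ (Set.range ((↑) : t → ℝ)))) Cardinal.aleph0 :=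
      Algebra.IsAlgebraic.cardinalMk_le_max _ _
    have h2 : Cardinal.mk (Algebra.adjoin ℚ (Set.range ((↑) : t → ℝ))) = Cardinal.mk (MvPolynomial t ℚ) :=
      (Cardinal.mk_congr ht.1.aevalEquiv.toEquiv).symm
    have h3 : Cardinal.mk (MvPolynomial t ℚ) ≤ max (max (Cardinal.mk ℚ) (Cardinal.mk t)) Cardinal.aleph0 :=
      MvPolynomial.cardinalMk_le_max
    rw [h2, Cardinal.mk_real] at h1
    have h4 : Cardinal.continuum ≤ max (max (max (Cardinal.mk ℚ) (Cardinal.mk t)) Cardinal.aleph0) Cardinal.aleph0 :=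
      h1.trans (max_le_max h3 le_rfl)
    rw [Cardinal.mkRat] at h4
    by_contra hcon
    push Not at hcon
    have h5 := Cardinal.aleph0_lt_continuum
    have h6 : max (max (max Cardinal.aleph0 (Cardinal.mk t)) Cardinal.aleph0) Cardinal.aleph0 <
        Cardinal.continuum := max_lt (max_lt (max_lt h5 hcon) h5) h5
    exact absurd h4 (not_le.2 h6)

/-- **GEN** existence of the generic elements -/
theorem tGEN : S_GEN := by
  intro hπ
  have hs : AlgebraicIndepOn ℚ id ({Real.pi} : Set ℝ) := by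
    have h1 : AlgebraicIndependent ℚ (fun x : ({Real.pi} : Set ℝ) => (x : ℝ)) := by
      rw [algebraicIndependent_unique_type_iff]
      exact hπ
    exact h1
  obtain ⟨t, hst, ht⟩ := exists_isTranscendenceBasis_superset hs
  have hcard : Cardinal.mk (Fin 2 ⊕ (ℕ × Fin 4 × ℝ)) = Cardinal.mk t := by
    rw [GEN_card ht]
    simp [Cardinal.mk_real]
  obtain ⟨e0⟩ := Cardinal.eq.1 hcard
  have hπt : Real.pi ∈ t := hst rfl
  classical
  set e : (Fin 2 ⊕ (ℕ × Fin 4 × ℝ)) ≃ t := e0.trans (Equiv.swap (e0 (Sum.inl 0)) ⟨Real.pi, hπt⟩) with he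
  have he0 : e (Sum.inl 0) = ⟨Real.pi, hπt⟩ := by
    rw [he, Equiv.trans_apply, Equiv.swap_apply_left]
  refine ⟨(e (Sum.inl 1) : ℝ), fun n a c => (e (Sum.inr (n, a, c)) : ℝ), ?_⟩
  unfold Gen
  have h1 : IsTranscendenceBasis ℚ (((↑) : t → ℝ) ∘ e) := ht.comp_equiv e
  have h2 : (((↑) : t → ℝ) ∘ e) = Sum.elim ![Real.pi, (e (Sum.inl 1) : ℝ)]
      (fun i : ℕ × Fin 4 × ℝ => (e (Sum.inr (i.1, i.2.1, i.2.2)) : ℝ)) := by
    funext i
    rcases i with i | i
    · fin_cases i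
      · change ((e (Sum.inl 0)) : ℝ) = Real.pi
        rw [he0]
      · rfl
    · rfl
  rw [← h2]
  exact h1

end EPI
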