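import Pool.Agent.Lib.EPI.Spec

/-!
# Independence theorem on `π^π` (MP_4c2ad3_nt): PI1, the algebraic part of Lindemann's theorem for `π`
-/

set_option autoImplicit false

open Complex Module

namespace EPI

private theorem PI1_perm {K : Type} [Field K] [Algebra ℚ K] (P : Polynomial ℚ) (s : Finset K)
    (hs : ∀ x, x ∈ s ↔ (P ≠ 0 ∧ Polynomial.aeval x P = 0)) (σ : K ≃ₐ[ℚ] K) (T : Finset K)
    (hT : T ∈ s.powerset) : T.map σ.toEquiv.toEmbedding ∈ s.powerset := by
  rw [Finset.mem_powerset] at *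
  intro y hy
  rw [Finset.mem_map] at hy
  obtain ⟨x, hx, rfl⟩ := hy
  have h := (hs x).1 (hT hx)
  refine (hs _).2 ⟨h.1, ?_⟩
  change Polynomial.aeval (σ x) P = 0
  rw [Polynomial.aeval_algHom_apply σ x P, h.2, map_zero]

private theorem PI1_fixed {K : Type} [Field K] [Algebra ℚ K] (P : Polynomial ℚ) (s : Finset K)
    (hs : ∀ x, x ∈ s ↔ (P ≠ 0 ∧ Polynomial.aeval x P = 0)) (σ : K ≃ₐ[ℚ] K) :
    (∏ T ∈ s.powerset, (Polynomial.X - Polynomial.C (∑ β ∈ T, β))).map (σ : K →+* K) =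
      ∏ T ∈ s.powerset, (Polynomial.X - Polynomial.C (∑ β ∈ T, β)) := by
  rw [Polynomial.map_prod]
  refine Finset.prod_nbij' (fun T => T.map σ.toEquiv.toEmbedding)
    (fun T => T.map σ.symm.toEquiv.toEmbedding) (fun T hT => PI1_perm P s hs σ T hT)
    (fun T hT => PI1_perm P s hs σ.symm T hT) ?_ ?_ ?_
  · intro T _
    ext x
    simp
  · intro T _
    ext x
    simp
  · intro T _
    rw [Polynomial.map_sub, Polynomial.map_X, Polynomial.map_C, Finset.sum_map, map_sum]
    rfl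

private theorem PI1_fac (F : Polynomial ℤ) (hF : F ≠ 0) (h0 : (0 : ℂ) ∈ F.aroots ℂ)
    (hsum : ((F.aroots ℂ).map cexp).sum = 0) :
    ∃ (f : Polynomial ℤ) (m : ℕ), f.eval 0 ≠ 0 ∧ 0 < m ∧
      (m : ℂ) + ((f.aroots ℂ).map cexp).sum = 0 := by
  obtain ⟨f, hf, hnd⟩ := F.exists_eq_pow_rootMultiplicity_mul_and_not_dvd hF 0
  set m := F.rootMultiplicity 0
  have hev : f.eval 0 ≠ 0 := by
    intro h
    exact hnd (Polynomial.dvd_iff_isRoot.2 h)
  have hf0 : f ≠ 0 := by
    rintro rfl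
    exact hev (by simp)
  refine ⟨f, m, hev, ?_, ?_⟩
  · rcases Nat.eq_zero_or_pos m with hm | hm
    · exfalso
      rw [hm, pow_zero, one_mul] at hf
      rw [Polynomial.mem_aroots] at h0
      have h1 : Polynomial.aeval (0 : ℂ) f = 0 := by
        rw [← hf]
        exact h0.2
      have h2 : Polynomial.aeval (algebraMap ℤ ℂ 0) f = algebraMap ℤ ℂ (f.eval 0) :=
        Polynomial.aeval_algebraMap_apply_eq_algebraMap_eval 0 f
      rw [map_zero, h1] at h2
      exact hev (by simpa using h2.symm)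
    · exact hm
  · have hne : (Polynomial.X - Polynomial.C (0 : ℤ)) ^ m * f ≠ 0 := by
      rw [← hf]
      exact hF
    have h1 : F.aroots ℂ = m • {0} + f.aroots ℂ := by
      rw [hf, Polynomial.aroots_mul hne, Polynomial.aroots_pow]
      simp
    rw [h1, Multiset.map_add, Multiset.sum_add, Multiset.map_nsmul, Multiset.sum_nsmul] at hsum
    simpa using hsum

private theorem PI1_main {K : Type} [Field K] [Algebra ℚ K] (P : Polynomial ℚ)
    [P.IsSplittingField ℚ K] (z : ℂ) (hPne : P ≠ 0) (hsep : P.Separable)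
    (hPz : Polynomial.aeval z P = 0) (hexp : 1 + cexp z = 0) :
    ∃ (Q : Polynomial ℚ), Q ≠ 0 ∧ 0 ∈ (Q.map (algebraMap ℚ ℂ)).roots ∧
      ((Q.map (algebraMap ℚ ℂ)).roots.map cexp).sum = 0 := by
  classical
  have hgal : IsGalois ℚ K := IsGalois.of_separable_splitting_field (p := P) hsep
  have hfin : FiniteDimensional ℚ K := Polynomial.IsSplittingField.finiteDimensional K P
  have hsplit : (P.map (algebraMap ℚ K)).Splits := Polynomial.IsSplittingField.splits K P
  let φ : K →ₐ[ℚ] ℂ := IsAlgClosed.lift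
  obtain ⟨s, hs⟩ : ∃ s : Finset K, ∀ x, x ∈ s ↔ (P ≠ 0 ∧ Polynomial.aeval x P = 0) :=
    ⟨(P.aroots K).toFinset, fun x => by rw [Multiset.mem_toFinset, Polynomial.mem_aroots]⟩
  have hlift : (∏ T ∈ s.powerset, (Polynomial.X - Polynomial.C (∑ β ∈ T, β))) ∈
      Polynomial.lifts (algebraMap ℚ K) := by
    rw [Polynomial.lifts_iff_coeff_lifts]
    intro n
    rw [IsGalois.mem_range_algebraMap_iff_fixed]
    intro σ
    have h := congrArg (fun q => Polynomial.coeff q n) (PI1_fixed P s hs σ)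
    simp only [Polynomial.coeff_map] at h
    exact h
  rw [Polynomial.lifts_iff_set_range] at hlift
  obtain ⟨Q, hQ⟩ := hlift
  set M : Multiset ℂ := s.powerset.val.map (fun T => ∑ β ∈ T, φ β) with hM
  have hQC : Q.map (algebraMap ℚ ℂ) = (M.map fun a => Polynomial.X - Polynomial.C a).prod := by
    have h1 : algebraMap ℚ ℂ = (φ : K →+* ℂ).comp (algebraMap ℚ K) := φ.comp_algebraMap.symm
    rw [h1, ← Polynomial.map_map, hQ, Polynomial.map_prod, hM, Multiset.map_map]
    refine Finset.prod_congr rfl fun T _ => ?_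
    rw [Polynomial.map_sub, Polynomial.map_X, Polynomial.map_C, map_sum]
    rfl
  have hroots : (Q.map (algebraMap ℚ ℂ)).roots = M := by
    rw [hQC, Polynomial.roots_multiset_prod_X_sub_C]
  have h0M : (0 : ℂ) ∈ M := by
    rw [hM, Multiset.mem_map]
    exact ⟨∅, by simp, by simp⟩
  have hQ0 : Q ≠ 0 := by
    rintro rfl
    rw [Polynomial.map_zero, Polynomial.roots_zero] at hroots
    rw [← hroots] at h0M
    exact absurd h0M (Multiset.notMem_zero _)
  refine ⟨Q, hQ0, by rw [hroots]; exact h0M, ?_⟩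
  rw [hroots]
  have h1 : (M.map cexp).sum = ∏ β ∈ s, (1 + cexp (φ β)) := by
    rw [Finset.prod_one_add, hM, Multiset.map_map]
    refine Finset.sum_congr rfl fun T _ => ?_
    simp only [Function.comp]
    rw [Complex.exp_sum]
  rw [h1]
  have h2 : z ∈ φ '' P.rootSet K := by
    rw [hsplit.image_rootSet φ, Polynomial.mem_rootSet]
    exact ⟨hPne, hPz⟩
  obtain ⟨β, hβ, hβz⟩ := h2
  rw [Polynomial.mem_rootSet] at hβ
  refine Finset.prod_eq_zero ((hs β).2 hβ) ?_
  rw [hβz, hexp]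

theorem tPI1 : S_PI1 := by
  intro z hz hexp
  have hint : IsIntegral ℚ z := hz.isIntegral
  obtain ⟨P, hP⟩ : ∃ P : Polynomial ℚ, P = minpoly ℚ z := ⟨_, rfl⟩
  have hPne : P ≠ 0 := hP ▸ minpoly.ne_zero hint
  have hirr : Irreducible P := hP ▸ minpoly.irreducible hint
  have hsep : P.Separable := hirr.separable
  have hPz : Polynomial.aeval z P = 0 := hP ▸ minpoly.aeval ℚ z
  obtain ⟨Q, hQ0, h0M, hsum⟩ := @PI1_main P.SplittingField _ _ P
    (Polynomial.IsSplittingField.splittingField P) z hPne hsep hPz hexp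
  obtain ⟨b, hb, hbF⟩ := IsLocalization.integerNormalization_spec (nonZeroDivisors ℤ) Q
  obtain ⟨F, hF⟩ : ∃ F : Polynomial ℤ, F.map (algebraMap ℤ ℚ) = b • Q := ⟨_, hbF⟩
  have hb0 : (b : ℚ) ≠ 0 := by exact_mod_cast nonZeroDivisors.ne_zero hb
  have hbQ : b • Q = Polynomial.C (b : ℚ) * Q := by
    rw [Polynomial.C_mul', Int.cast_smul_eq_zsmul]
  have hF0 : F ≠ 0 := by
    rintro rfl
    rw [Polynomial.map_zero, hbQ] at hF
    exact mul_ne_zero (Polynomial.C_ne_zero.2 hb0) hQ0 hF.symm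
  have hFr : F.aroots ℂ = (Q.map (algebraMap ℚ ℂ)).roots := by
    have h1 : F.map (algebraMap ℤ ℂ) = Polynomial.C (b : ℂ) * Q.map (algebraMap ℚ ℂ) := by
      have h2 : algebraMap ℤ ℂ = (algebraMap ℚ ℂ).comp (algebraMap ℤ ℚ) := by
        ext
        simp
      rw [h2, ← Polynomial.map_map, hF, hbQ, Polynomial.map_mul, Polynomial.map_C]
      simp
    rw [Polynomial.aroots, h1, Polynomial.roots_C_mul]
    exact_mod_cast hb0
  refine PI1_fac F hF0 ?_ ?_
  · rw [hFr]
    exact h0M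
  · rw [hFr]
    exact hsum

end EPI
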