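import Pool.Agent.Lib.EPI.Spec

/-!
The analytic part of the theorem of Lindemann, applied (MP_4c2ad3_nt, project EPI, module PI2).
-/

open Complex Module

namespace EPI

/-- the integers in `ℂ` -/
private noncomputable def PI2_R : Subring ℂ := (Int.castRingHom ℂ).range

private theorem PI2_int (z : ℤ) : (z : ℂ) ∈ PI2_R := ⟨z, by simp⟩

/-- the identities of Newton for a multiset -/
private theorem PI2_newton (s : Multiset ℂ) (k : ℕ) (hk : 0 < k) :
    (s.map (fun x => x ^ k)).sum = (-1) ^ (k + 1) * k * s.esymm k -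
      ∑ b ∈ Finset.HasAntidiagonal.antidiagonal k with b.1 ∈ Set.Ioo 0 k,
        (-1) ^ b.1 * s.esymm b.1 * (s.map (fun x => x ^ b.2)).sum := by
  induction s using Quotient.inductionOn with
  | h l =>
    have hs : (Finset.univ : Finset (Fin l.length)).val.map l.get = (l : Multiset ℂ) := by
      rw [Fin.univ_val_map, List.ofFn_get]
    have hps : ∀ n : ℕ, MvPolynomial.aeval l.get (MvPolynomial.psum (Fin l.length) ℤ n) =
        ((l : Multiset ℂ).map (fun x => x ^ n)).sum := by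
      intro n
      rw [← hs, Multiset.map_map, MvPolynomial.psum, map_sum]
      simp only [map_pow, MvPolynomial.aeval_X]
      rfl
    have hes : ∀ n : ℕ, MvPolynomial.aeval l.get (MvPolynomial.esymm (Fin l.length) ℤ n) =
        (l : Multiset ℂ).esymm n := by
      intro n
      rw [MvPolynomial.aeval_esymm_eq_multiset_esymm, hs]
    have h := congrArg (MvPolynomial.aeval l.get)
      (MvPolynomial.psum_eq_mul_esymm_sub_sum (Fin l.length) ℤ k hk)
    simp only [map_sub, map_mul, map_sum, map_pow, map_neg, map_one, map_natCast, hps, hes] at h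
    exact h

private theorem PI2_pow (s : Multiset ℂ) (a : ℂ) (hE : ∀ j, a ^ j * s.esymm j ∈ PI2_R) (k : ℕ) :
    a ^ k * (s.map (fun x => x ^ k)).sum ∈ PI2_R := by
  induction k using Nat.strong_induction_on with
  | _ k ih =>
    rcases Nat.eq_zero_or_pos k with rfl | hk
    · have e : a ^ 0 * (s.map (fun x => x ^ 0)).sum = ((Multiset.card s : ℕ) : ℂ) := by simp
      rw [e]
      exact natCast_mem _ _
    · rw [PI2_newton s k hk, mul_sub, Finset.mul_sum]
      have h1 : (-1 : ℂ) ∈ PI2_R := neg_mem (one_mem _)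
      refine sub_mem ?_ (sum_mem fun b hb => ?_)
      · have e : a ^ k * ((-1) ^ (k + 1) * k * s.esymm k) =
            ((-1) ^ (k + 1) * k) * (a ^ k * s.esymm k) := by ring
        rw [e]
        exact mul_mem (mul_mem (pow_mem h1 _) (natCast_mem _ _)) (hE k)
      · obtain ⟨hb1, hb2⟩ := Finset.mem_filter.1 hb
        have hab : b.1 + b.2 = k := Finset.HasAntidiagonal.mem_antidiagonal.1 hb1
        have hb3 : 0 < b.1 := hb2.1
        have e : a ^ k * ((-1) ^ b.1 * s.esymm b.1 * (s.map (fun x => x ^ b.2)).sum) =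
            (-1) ^ b.1 * (a ^ b.1 * s.esymm b.1) * (a ^ b.2 * (s.map (fun x => x ^ b.2)).sum) := by
          rw [← hab, pow_add]; ring
        rw [e]
        exact mul_mem (mul_mem (pow_mem h1 _) (hE _)) (ih b.2 (by omega))

private theorem PI2_esymm (f : Polynomial ℤ) (j : ℕ) :
    (f.leadingCoeff : ℂ) ^ j * (f.aroots ℂ).esymm j ∈ PI2_R := by
  have hinj : Function.Injective (algebraMap ℤ ℂ) := (algebraMap ℤ ℂ).injective_int
  have hdeg : (f.map (algebraMap ℤ ℂ)).natDegree = f.natDegree :=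
    Polynomial.natDegree_map_eq_of_injective hinj f
  have hsp : (f.map (algebraMap ℤ ℂ)).Splits := IsAlgClosed.splits _
  rcases Nat.eq_zero_or_pos j with rfl | hj
  · have e : (f.leadingCoeff : ℂ) ^ 0 * (f.aroots ℂ).esymm 0 = 1 := by simp [Multiset.esymm]
    rw [e]
    exact one_mem _
  by_cases hjd : j ≤ f.natDegree
  · have h := Polynomial.coeff_eq_esymm_roots_of_splits hsp (k := f.natDegree - j)
      (by rw [hdeg]; exact Nat.sub_le _ _)
    rw [hdeg, Nat.sub_sub_self hjd, Polynomial.leadingCoeff_map_of_injective hinj,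
      Polynomial.coeff_map] at h
    simp only [eq_intCast] at h
    have e : (f.leadingCoeff : ℂ) ^ j * (f.aroots ℂ).esymm j =
        (f.leadingCoeff : ℂ) ^ (j - 1) * (-1) ^ j * ((f.coeff (f.natDegree - j) : ℤ) : ℂ) := by
      obtain ⟨i, rfl⟩ : ∃ i, j = i + 1 := ⟨j - 1, by omega⟩
      rw [h, Nat.add_sub_cancel, Polynomial.aroots_def]
      have h2 : ((-1 : ℂ) ^ (i + 1)) * (-1) ^ (i + 1) = 1 := by
        rw [← mul_pow]; simp
      calc (f.leadingCoeff : ℂ) ^ (i + 1) * (f.map (algebraMap ℤ ℂ)).roots.esymm (i + 1)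
          = (f.leadingCoeff : ℂ) ^ i * (((-1 : ℂ) ^ (i + 1)) * (-1) ^ (i + 1)) *
            ((f.leadingCoeff : ℂ) * (f.map (algebraMap ℤ ℂ)).roots.esymm (i + 1)) := by
            rw [h2]; ring
        _ = _ := by ring
    rw [e]
    exact mul_mem (mul_mem (pow_mem (PI2_int _) _) (pow_mem (neg_mem (one_mem _)) _)) (PI2_int _)
  · have hc : Multiset.card (f.aroots ℂ) < j := by
      refine lt_of_le_of_lt ?_ (not_le.1 hjd)
      rw [← hdeg, Polynomial.aroots_def]
      exact Polynomial.card_roots' _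
    have e : (f.aroots ℂ).esymm j = 0 := by
      unfold Multiset.esymm
      rw [Multiset.powersetCard_eq_empty j hc]
      simp
    rw [e, mul_zero]
    exact zero_mem _

private theorem PI2_sum (s : Multiset ℂ) (I : Finset ℕ) (u : ℕ → ℂ) :
    (s.map (fun x => ∑ k ∈ I, u k * x ^ k)).sum = ∑ k ∈ I, u k * (s.map (fun x => x ^ k)).sum := by
  induction s using Multiset.induction_on with
  | empty => simp
  | cons x s ih => simp [ih, mul_add, Finset.sum_add_distrib]

private theorem PI2_val (f g : Polynomial ℤ) (D : ℕ) (hg : g.natDegree ≤ D) :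
    (f.leadingCoeff : ℂ) ^ D * ((f.aroots ℂ).map (fun x => Polynomial.aeval x g)).sum ∈ PI2_R := by
  have e : ∀ x : ℂ, Polynomial.aeval x g =
      ∑ k ∈ Finset.range (g.natDegree + 1), (g.coeff k : ℂ) * x ^ k := by
    intro x
    rw [Polynomial.aeval_eq_sum_range]
    exact Finset.sum_congr rfl fun k _ => by rw [zsmul_eq_mul]
  simp only [e]
  rw [PI2_sum, Finset.mul_sum]
  refine sum_mem fun k hk => ?_
  have hkD : k ≤ D := (Nat.lt_succ_iff.1 (Finset.mem_range.1 hk)).trans hg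
  have e2 : (f.leadingCoeff : ℂ) ^ D * ((g.coeff k : ℂ) * ((f.aroots ℂ).map (fun x => x ^ k)).sum) =
      (f.leadingCoeff : ℂ) ^ (D - k) * (g.coeff k : ℂ) *
        ((f.leadingCoeff : ℂ) ^ k * ((f.aroots ℂ).map (fun x => x ^ k)).sum) := by
    obtain ⟨i, rfl⟩ : ∃ i, D = i + k := ⟨D - k, by omega⟩
    rw [Nat.add_sub_cancel, pow_add]; ring
  rw [e2]
  exact mul_mem (mul_mem (pow_mem (PI2_int _) _) (PI2_int _)) (PI2_pow _ _ (PI2_esymm f) k)

theorem tPI2 : S_PI2 := by
  intro f m hf hm heq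
  have hf0 : f ≠ 0 := by rintro rfl; simp at hf
  obtain ⟨c, hc⟩ := LindemannWeierstrass.exp_polynomial_approx f hf
  obtain ⟨a, haf⟩ : ∃ a : ℤ, a = f.leadingCoeff := ⟨_, rfl⟩
  have ha : a ≠ 0 := by rw [haf]; exact Polynomial.leadingCoeff_ne_zero.2 hf0
  obtain ⟨s, hs⟩ : ∃ s : Multiset ℂ, s = f.aroots ℂ := ⟨_, rfl⟩
  obtain ⟨d, hd⟩ : ∃ d : ℕ, d = f.natDegree := ⟨_, rfl⟩
  obtain ⟨C, hC⟩ : ∃ C : ℝ, C = |(a : ℝ)| ^ d * |c| := ⟨_, rfl⟩
  have hC0 : 0 ≤ C := by rw [hC]; positivity
  -- a large prime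
  have htend : Filter.Tendsto (fun n : ℕ => (Multiset.card s : ℝ) * C * (C ^ n / (n.factorial : ℝ)))
      Filter.atTop (nhds 0) := by
    have h := (FloorSemiring.tendsto_pow_div_factorial_atTop C).const_mul ((Multiset.card s : ℝ) * C)
    rwa [mul_zero] at h
  obtain ⟨Q, hQ⟩ := Filter.eventually_atTop.1 (htend.eventually_lt_const one_pos)
  obtain ⟨p, hpB, hp⟩ := Nat.exists_infinite_primes (Q + (f.eval 0).natAbs + m + a.natAbs + 1)
  obtain ⟨n, hn, gp, hgp, hr⟩ := hc p (by omega) hp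
  obtain ⟨G, hG⟩ : ∃ G : ℂ, G = (s.map (fun x => Polynomial.aeval x gp)).sum := ⟨_, rfl⟩
  obtain ⟨w, hw⟩ := PI2_val f gp (p * d) (by rw [hd]; omega)
  rw [← hs, ← hG, ← haf] at hw
  have hw' : (w : ℂ) = (a : ℂ) ^ (p * d) * G := by rw [← hw]; simp
  -- the estimate
  have hest : ‖(n : ℂ) * m + p * G‖ ≤ Multiset.card s * (|c| ^ p / ((p - 1).factorial : ℝ)) := by
    have e1 : (s.map (fun x => n • cexp x - p • Polynomial.aeval x gp)).sum =
        n * (s.map cexp).sum - p * G := by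
      rw [hG]
      simp only [zsmul_eq_mul, nsmul_eq_mul]
      rw [Multiset.sum_map_sub, Multiset.sum_map_mul_left, Multiset.sum_map_mul_left]
    have e2 : (n : ℂ) * m + p * G = -(s.map (fun x => n • cexp x - p • Polynomial.aeval x gp)).sum := by
      rw [e1]
      have h3 : (s.map cexp).sum = - (m : ℂ) := by
        rw [← hs] at heq
        exact (neg_eq_of_add_eq_zero_right heq).symm
      rw [h3]; ring
    rw [e2, norm_neg]
    refine (norm_multiset_sum_le _).trans ?_
    rw [Multiset.map_map]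
    refine (Multiset.sum_le_card_nsmul _ (|c| ^ p / ((p - 1).factorial : ℝ)) ?_).trans (le_of_eq ?_)
    · intro y hy
      obtain ⟨x, hx, rfl⟩ := Multiset.mem_map.1 hy
      rw [hs] at hx
      refine (hr hx).trans ?_
      refine div_le_div_of_nonneg_right ?_ (Nat.cast_nonneg _)
      rw [← abs_pow]
      exact le_abs_self _
    · rw [Multiset.card_map, nsmul_eq_mul]
  obtain ⟨N, hN⟩ : ∃ N : ℤ, N = a ^ (p * d) * (n * m) + p * w := ⟨_, rfl⟩
  have hNc : (N : ℂ) = (a : ℂ) ^ (p * d) * ((n : ℂ) * m + p * G) := by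
    rw [hN]
    push_cast
    rw [hw']
    ring
  have hNabs : |(N : ℝ)| < 1 := by
    have h1 : |(N : ℝ)| = ‖(N : ℂ)‖ := by rw [Complex.norm_intCast]
    rw [h1, hNc, norm_mul, norm_pow, Complex.norm_intCast]
    refine lt_of_le_of_lt (mul_le_mul_of_nonneg_left hest (by positivity)) ?_
    have h2 := hQ (p - 1) (by omega)
    refine lt_of_eq_of_lt ?_ h2
    have hpp : p = (p - 1) + 1 := by have := hp.pos; omega
    have h3 : |(a : ℝ)| ^ (p * d) * |c| ^ p = C * C ^ (p - 1) := by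
      rw [← pow_succ', ← hpp, hC, mul_pow, ← pow_mul, mul_comm p d]
    calc |(a : ℝ)| ^ (p * d) * (Multiset.card s * (|c| ^ p / ((p - 1).factorial : ℝ)))
        = Multiset.card s * ((|(a : ℝ)| ^ (p * d) * |c| ^ p) / ((p - 1).factorial : ℝ)) := by ring
      _ = _ := by rw [h3]; ring
  have hN0 : N = 0 := by
    have h1 : |N| < 1 := by exact_mod_cast hNabs
    exact Int.abs_lt_one_iff.1 h1
  have hdvd : (p : ℤ) ∣ a ^ (p * d) * (n * m) := by
    rw [hN0] at hN
    exact ⟨-w, by linear_combination -hN⟩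
  have hpp : Prime (p : ℤ) := Nat.prime_iff_prime_int.1 hp
  rcases hpp.dvd_or_dvd hdvd with h1 | h1
  · have h2 := Int.le_of_dvd (Int.natAbs_pos.2 ha |> fun h => by exact_mod_cast h)
      ((Int.dvd_natAbs.2 (hpp.dvd_of_dvd_pow h1)) : (p : ℤ) ∣ (a.natAbs : ℤ))
    omega
  · rcases hpp.dvd_or_dvd h1 with h2 | h2
    · exact hn h2
    · have h3 := Nat.le_of_dvd hm (by exact_mod_cast h2)
      omega

end EPI
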