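import Pool.Agent.Lib.EPI.Spec

/-!
MP_4c2ad3_nt, project EPI: transcendence degree of a tuple (modules TD1 and TUP).
-/

open Complex Module

namespace EPI

theorem tTD1 : S_CL → S_TD1 := by
  rintro - S n ⟨f, hf, hi⟩
  have hK : ∀ i, f i ∈ algebraicClosure (IntermediateField.adjoin ℚ S) ℂ := fun i => hi i
  let f' : Fin n → algebraicClosure (IntermediateField.adjoin ℚ S) ℂ := fun i => ⟨f i, hK i⟩
  have hf' : AlgebraicIndependent ℚ f' := by
    apply AlgebraicIndependent.of_comp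
      ((algebraicClosure (IntermediateField.adjoin ℚ S) ℂ).val.restrictScalars ℚ)
    exact hf
  have h1 := hf'.cardinalMk_le_trdeg
  rw [Cardinal.mk_fin] at h1
  have h2 := trdeg_add_eq ℚ (IntermediateField.adjoin ℚ S)
    (A := algebraicClosure (IntermediateField.adjoin ℚ S) ℂ)
  have h3 : Algebra.trdeg (IntermediateField.adjoin ℚ S)
      (algebraicClosure (IntermediateField.adjoin ℚ S) ℂ) = 0 := trdeg_eq_zero
  rw [h3, add_zero] at h2
  rw [h2]
  exact h1

private theorem TUP_zero (E : ℂ → ℂ) (hE : ∀ x y, E (x + y) = E x * E y) (h0 : ∀ x, E x ≠ 0) :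
    E 0 = 1 := by
  have h := hE 0 0
  rw [add_zero] at h
  exact (mul_eq_left₀ (h0 0)).mp h.symm

private theorem TUP_nat (E : ℂ → ℂ) (hE : ∀ x y, E (x + y) = E x * E y) (h0 : ∀ x, E x ≠ 0)
    (n : ℕ) (x : ℂ) : E (n * x) = E x ^ n := by
  induction n with
  | zero => simp [TUP_zero E hE h0]
  | succ n ih =>
    rw [pow_succ, ← ih, ← hE]
    push_cast
    ring_nf

private theorem TUP_neg (E : ℂ → ℂ) (hE : ∀ x y, E (x + y) = E x * E y) (h0 : ∀ x, E x ≠ 0)
    (x : ℂ) : E (-x) = (E x)⁻¹ := by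
  have h := hE x (-x)
  rw [add_neg_cancel, TUP_zero E hE h0] at h
  exact eq_inv_of_mul_eq_one_right h.symm

private theorem TUP_mem (E : ℂ → ℂ) (hE : ∀ x y, E (x + y) = E x * E y) (h0 : ∀ x, E x ≠ 0)
    (T : Set ℂ) (A : Set ℂ) (hA : ∀ x ∈ A, E x ∈ cl T) :
    ∀ v ∈ Submodule.span ℚ A, E v ∈ cl T := by
  intro v hv
  induction hv using Submodule.span_induction with
  | mem x hx => exact hA x hx
  | zero => rw [TUP_zero E hE h0]; exact (cl T).one_mem
  | add x y _ _ hx hy => rw [hE]; exact (cl T).mul_mem hx hy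
  | smul q x _ hx =>
    have hz : ∀ m : ℤ, E (m * x) ∈ cl T := by
      intro m
      rcases Int.eq_nat_or_neg m with ⟨k, rfl | rfl⟩
      · have h1 : E x ^ k ∈ cl T := pow_mem hx k
        rw [← TUP_nat E hE h0] at h1
        simpa using h1
      · have h1 : (E x ^ k)⁻¹ ∈ cl T := inv_mem (pow_mem hx k)
        rw [← TUP_nat E hE h0, ← TUP_neg E hE h0] at h1
        have h2 : ((-(k : ℤ) : ℤ) : ℂ) * x = -((k : ℂ) * x) := by push_cast; ring
        rw [h2]
        exact h1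
    refine mem_cl_of_pow (n := q.den) q.den_pos ?_
    rw [← TUP_nat E hE h0]
    have : ((q.den : ℕ) : ℂ) * (q • x) = ((q.num : ℤ) : ℂ) * x := by
      rw [Rat.smul_def, ← mul_assoc]
      congr 1
      have := Rat.den_mul_eq_num q
      exact_mod_cast this
    rw [this]
    exact hz _

theorem tTUP : S_CL → S_TD1 → S_TUP := by
  intro hCL hTD E hE h0 n z m hm
  obtain ⟨c1, c2, -, -⟩ := hCL
  apply hTD
  obtain ⟨f, hf, hi⟩ := hm
  refine ⟨f, hf, fun i => ?_⟩
  set T : Set ℂ := Set.range z ∪ Set.range (fun i => E (z i)) with hT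
  refine c2 _ T ?_ (hi i)
  rintro v (hv | ⟨w, hw, rfl⟩)
  · have h1 : Submodule.span ℚ (Set.range z) ≤ (cl T).toSubalgebra.toSubmodule := by
      rw [Submodule.span_le]
      rintro x ⟨j, rfl⟩
      exact c1 T (Or.inl ⟨j, rfl⟩)
    exact h1 hv
  · refine TUP_mem E hE h0 T (Set.range z) ?_ w hw
    rintro x ⟨j, rfl⟩
    exact c1 T (Or.inr ⟨j, rfl⟩)

end EPI
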