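import Pool.Agent.Lib.EPI.G3
import Pool.Agent.Lib.EPI.ASM2
import Pool.Agent.Lib.EPI.CL
import Pool.Agent.Lib.EPI.TUP
import Pool.Agent.Lib.EPI.CRIT
import Pool.Agent.Lib.EPI.BASE
import Pool.Agent.Lib.EPI.BF
import Pool.Agent.Lib.EPI.EP
import Pool.Agent.Lib.EPI.PI1
import Pool.Agent.Lib.EPI.PI2
import Pool.Agent.Lib.EPI.GEN

/-!
Assembly of the independence theorem on `π^π` (MP_4c2ad3_nt): the possible values.
-/

set_option autoImplicit false

open Complex Module

namespace EPI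

private theorem CORE_mono (hCL : S_CL) {S T : Set ℂ} (h : S ⊆ T) {n : ℕ} (hS : Ge S n) :
    Ge T n := by
  obtain ⟨f, hf, hS⟩ := hS
  exact ⟨f, hf, fun i => hCL.2.1 S T (h.trans (hCL.1 T)) (hS i)⟩

theorem tCORE (r L : ℝ) (hind : AlgebraicIndependent ℚ ![Real.pi, L]) (hr0 : 0 < r)
    (hq : ∀ q : ℚ, r ≠ Real.pi ^ (q : ℝ)) : Core r L := by
  have hCL : S_CL := tCL
  have hTUP : S_TUP := tTUP tCL (tTD1 tCL)
  have hBASE : S_BASE := tBASE tCL
  have hNOT : S_NOT2 := tNOT2 tCL
  have hVAL : S_VAL2 := tVAL2 tCL hNOT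
  have hSORT : S_SORT2 := tSORT2 tCL (tEXH2 tCL) hVAL (tIND2 tCL hNOT hVAL) (tBF tCHAIN)
  have hEP : S_EP := tEP
  have hHYP : S_HYP2 := tHYP2 tCL hNOT hVAL tEP (tCRIT tCL (tTD2 tCL))
  obtain ⟨N, P, hP, hpi, hLm, hrm⟩ := tBASEG tCL L r hind
  obtain ⟨g, hg⟩ := tGENG P hP
  have hsub : cl (Set.range (fun i => ((P i : ℝ) : ℂ))) ≤ cl (GS2 P g 0) :=
    hCL.2.1 _ _ (Set.subset_union_left.trans (hCL.1 _))
  have hpi0 := hsub hpi
  have hL0 := hsub hLm
  have hrm0 := hsub hrm
  have hLne : L ≠ 0 := by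
    rintro rfl
    have h1 := hind.transcendental 1
    exact h1 isAlgebraic_zero
  have l1 := tLOG1 L hLne
  have l2 := tLOG2 r hr0 hq
  have l3 : LinearIndependent ℚ ![2 * Real.pi] := by
    rw [linearIndependent_unique_iff]
    simp [Real.pi_ne_zero]
  have l4 : ∀ i, ![L, Real.pi * L] i ∈ XX (GS2 P g 0) := by
    intro i
    fin_cases i
    · exact hL0
    · change (((Real.pi * L : ℝ)) : ℂ) ∈ cl (GS2 P g 0)
      push_cast
      exact mul_mem hpi0 hL0
  have l5 : ∀ i, ![Real.log Real.pi, Real.log r] i ∈ YY false (GS2 P g 0) := by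
    intro i
    fin_cases i
    · change ee false (Real.log Real.pi) ∈ cl (GS2 P g 0)
      simp only [ee, jj, Bool.false_eq_true, if_false]
      rw [← Complex.ofReal_exp, Real.exp_log Real.pi_pos]
      exact hpi0
    · change ee false (Real.log r) ∈ cl (GS2 P g 0)
      simp only [ee, jj, Bool.false_eq_true, if_false]
      rw [← Complex.ofReal_exp, Real.exp_log hr0]
      exact hrm0
  have l6 : ∀ i, ![2 * Real.pi] i ∈ XX (GS2 P g 0) := by
    intro i
    fin_cases i
    change (((2 * Real.pi : ℝ)) : ℂ) ∈ cl (GS2 P g 0)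
    push_cast
    exact mul_mem (by simp) hpi0
  have l7 : ∀ i, ![2 * Real.pi] i ∈ YY true (GS2 P g 0) := by
    intro i
    fin_cases i
    change ee true (2 * Real.pi) ∈ cl (GS2 P g 0)
    simp only [ee, jj, if_true]
    have h1 : cexp (((2 * Real.pi : ℝ) : ℂ) * I) = 1 := by
      push_cast
      exact Complex.exp_two_pi_mul_I
    rw [h1]
    exact one_mem _
  obtain ⟨B0, C0, r0, hB0, hC0, hi0, hs0, hr0'⟩ := hSORT N P g hg false 2 ![L, Real.pi * L]
    ![Real.log Real.pi, Real.log r] l1 l2 l4 l5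
  obtain ⟨B1, C1, r1, hB1, hC1, hi1, hs1, hr1'⟩ := hSORT N P g hg true 1 ![2 * Real.pi]
    ![2 * Real.pi] l3 l3 l6 l7
  have v0 : r0 L = Real.log Real.pi := by
    have h := hr0' (Sum.inl 0)
    simpa [domF, imF] using h
  have v1 : r0 (Real.pi * L) = Real.log r := by
    have h := hr0' (Sum.inl 1)
    simpa [domF, imF] using h
  have v2 : r1 (2 * Real.pi) = 2 * Real.pi := by
    have h := hr1' (Sum.inl 0)
    simpa [domF, imF] using h
  obtain ⟨e1, e2, e3, e4, e5, e6, e7⟩ := hEP r0 r1 v2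
  obtain ⟨b1, b2⟩ := hBASE L hind
  have hH := hHYP N P g hg L r hr0 hpi0 hL0 hrm0 B0 C0 B1 C1 r0 r1 hB0 hC0 hB1 hC1 hi0 hs0 hi1 hs1 hr0' hr1'
  have main1 : ∀ (n : ℕ) (z : Fin n → ℂ), LinearIndependent ℚ z →
      (Submodule.span ℚ (Set.range z) ⊓ Submodule.span ℚ (Set.range (b3 L)) : Submodule ℚ ℂ) ≠
        Submodule.span ℚ (Set.range (b3 L)) →
      (n : Cardinal) ≤ Algebra.trdeg ℚ
        (IntermediateField.adjoin ℚ (Set.range z ∪ Set.range (fun i => EE r0 r1 (z i)))) := by
    intro n z hz hne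
    have hfin : FiniteDimensional ℚ (Submodule.span ℚ (Set.range z)) :=
      FiniteDimensional.span_of_finite ℚ (Set.finite_range z)
    have hn : finrank ℚ (Submodule.span ℚ (Set.range z)) = n := by
      rw [finrank_span_eq_card hz, Fintype.card_fin]
    have h1 := (b2 _ (inf_le_right (a := Submodule.span ℚ (Set.range z)))).1 hne
    have h2 := hH (Submodule.span ℚ (Set.range z)) hfin _ (CORE_mono hCL Set.subset_union_left h1)
    have h3 : finrank ℚ (Submodule.span ℚ (Set.range z) ⊓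
        Submodule.span ℚ (Set.range (b3 L)) : Submodule ℚ ℂ) ≤
        finrank ℚ (Submodule.span ℚ (Set.range z)) := Submodule.finrank_mono inf_le_left
    rw [Nat.add_sub_cancel' h3, hn] at h2
    exact hTUP (EE r0 r1) e1 e2 n z n h2
  refine ⟨EE r0 r1, e1, e3, e4, e5, e6, ?_, ?_, ?_, ?_⟩
  · have h := e7 false L
    simp only [jj, ee, Bool.false_eq_true, if_false] at h
    rw [h, v0, ← Complex.ofReal_exp, Real.exp_log Real.pi_pos]
  · have h := e7 false (Real.pi * L)
    simp only [jj, ee, Bool.false_eq_true, if_false] at h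
    rw [← Complex.ofReal_mul, h, v1, ← Complex.ofReal_exp, Real.exp_log hr0]
  · intro n z hz hnot
    refine main1 n z hz fun heq => hnot ?_
    have hle : Submodule.span ℚ (Set.range (b3 L)) ≤ Submodule.span ℚ (Set.range z) :=
      inf_eq_right.1 heq
    have hmem : ∀ i, b3 L i ∈ Submodule.span ℚ (Set.range z) :=
      fun i => hle (Submodule.subset_span ⟨i, rfl⟩)
    have m0 := hmem 0
    have m1 := hmem 1
    have m2 := hmem 2
    simp only [b3, Matrix.cons_val_zero, Matrix.cons_val_one, Matrix.cons_val_two, Matrix.head_cons,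
      Matrix.tail_cons] at m0 m1 m2
    rw [Complex.ofReal_mul] at m2
    intro x hx
    simp only [Set.mem_insert_iff, Set.mem_singleton_iff] at hx
    rcases hx with rfl | rfl | rfl
    · exact m0
    · exact m1
    · exact m2
  · intro n z hz
    by_cases heq : (Submodule.span ℚ (Set.range z) ⊓ Submodule.span ℚ (Set.range (b3 L)) :
        Submodule ℚ ℂ) = Submodule.span ℚ (Set.range (b3 L))
    · have hfin : FiniteDimensional ℚ (Submodule.span ℚ (Set.range z)) :=
        FiniteDimensional.span_of_finite ℚ (Set.finite_range z)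
      have hn : finrank ℚ (Submodule.span ℚ (Set.range z)) = n := by
        rw [finrank_span_eq_card hz, Fintype.card_fin]
      have hle : Submodule.span ℚ (Set.range (b3 L)) ≤ Submodule.span ℚ (Set.range z) :=
        inf_eq_right.1 heq
      have h3 : finrank ℚ (Submodule.span ℚ (Set.range (b3 L))) = 3 := by
        rw [finrank_span_eq_card b1, Fintype.card_fin]
      have h4 : 3 ≤ n := by
        rw [← h3, ← hn]
        exact Submodule.finrank_mono hle
      have h1 := (b2 _ (inf_le_right (a := Submodule.span ℚ (Set.range z)))).2 heq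
      have h2 := hH (Submodule.span ℚ (Set.range z)) hfin _ (CORE_mono hCL Set.subset_union_left h1)
      rw [heq, h3, hn] at h2
      have h5 := hTUP (EE r0 r1) e1 e2 n z _ h2
      have h6 : (n : Cardinal.{0}) = ((2 + (n - 3) : ℕ) : Cardinal.{0}) + 1 := by
        have h7 : n = 2 + (n - 3) + 1 := by omega
        exact_mod_cast congrArg (Nat.cast (R := Cardinal.{0})) h7
      rw [h6]
      gcongr
    · exact (main1 n z hz heq).trans (self_le_add_right _ _)


/-- necessity: a rational power of `π` does not occur -/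
theorem tCONV (r L : ℝ) (hL : L ≠ 0) (h : Core r L) : ∀ q : ℚ, r ≠ Real.pi ^ (q : ℝ) := by
  obtain ⟨E, e1, e3, -, -, -, eL, eR, -, -⟩ := h
  intro q hq
  have h0 : E 0 = 1 := (e3 0).2 ⟨0, by simp⟩
  have hn : ∀ (k : ℕ) (x : ℂ), E ((k : ℂ) * x) = E x ^ k := by
    intro k x
    induction k with
    | zero => simp [h0]
    | succ k ih => rw [pow_succ, ← ih, ← e1]; push_cast; ring_nf
  have hne : ∀ x : ℂ, E x ≠ 0 := by
    intro x hx
    have h1 := e1 x (-x)
    rw [add_neg_cancel, h0, hx, zero_mul] at h1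
    exact one_ne_zero h1
  have hinv : ∀ x : ℂ, E (-x) = (E x)⁻¹ := by
    intro x
    have h1 := e1 x (-x)
    rw [add_neg_cancel, h0] at h1
    exact eq_inv_of_mul_eq_one_right h1.symm
  have hz : ∀ (k : ℤ) (x : ℂ), E ((k : ℂ) * x) = E x ^ k := by
    intro k x
    rcases Int.eq_nat_or_neg k with ⟨m, rfl | rfl⟩
    · rw [Int.cast_natCast, hn, zpow_natCast]
    · rw [zpow_neg, zpow_natCast, ← hn, ← hinv]
      congr 1
      push_cast
      ring
  have hpow : r ^ q.den = Real.pi ^ q.num := by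
    rw [hq, ← Real.rpow_natCast, ← Real.rpow_mul Real.pi_pos.le, ← Real.rpow_intCast]
    congr 1
    exact_mod_cast Rat.mul_den_eq_num q
  have key : E ((q.den : ℂ) * ((Real.pi : ℂ) * L) + -((q.num : ℂ) * L)) = 1 := by
    rw [e1, hn, hinv, hz, eR, eL]
    have h1 : ((r : ℝ) : ℂ) ^ q.den = ((Real.pi : ℝ) : ℂ) ^ q.num := by exact_mod_cast hpow
    rw [h1, mul_inv_cancel₀]
    exact zpow_ne_zero _ (by exact_mod_cast Real.pi_ne_zero)
  obtain ⟨n, hnn⟩ := (e3 _).1 key
  have h2 := congrArg Complex.re hnn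
  simp at h2
  have h3 : ((q.den : ℝ) * Real.pi - (q.num : ℝ)) * L = 0 := by
    linear_combination h2
  rcases mul_eq_zero.1 h3 with h4 | h4
  · apply irrational_pi
    refine ⟨(q.num : ℚ) / (q.den : ℚ), ?_⟩
    have hd : (q.den : ℝ) ≠ 0 := by exact_mod_cast q.den_ne_zero
    push_cast
    field_simp
    linarith
  · exact hL h4

theorem tPI : Transcendental ℚ Real.pi := ASM2_pi tPI1 tPI2

theorem tEX : ∃ L : ℝ, AlgebraicIndependent ℚ ![Real.pi, L] := by
  obtain ⟨L, g, hg⟩ := tGEN tPI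
  refine ⟨L, ?_⟩
  have h := hg.1.comp Sum.inl Sum.inl_injective
  rwa [Sum.elim_comp_inl] at h

/-- an algebraic number other than `1` is not a rational power of `π` -/
theorem tALG (r : ℝ) (h1 : r ≠ 1) (hr : IsAlgebraic ℚ r) (q : ℚ) : r ≠ Real.pi ^ (q : ℝ) := by
  intro hq
  have hpow : r ^ q.den = Real.pi ^ q.num := by
    rw [hq, ← Real.rpow_natCast, ← Real.rpow_mul Real.pi_pos.le, ← Real.rpow_intCast]
    congr 1
    exact_mod_cast Rat.mul_den_eq_num q
  have h2 : IsAlgebraic ℚ (Real.pi ^ q.num) := by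
    rw [← hpow]
    exact hr.pow _
  have h3 : q.num ≠ 0 := by
    intro h3
    apply h1
    rw [hq, Rat.num_eq_zero.1 h3]
    simp
  have h4 : IsAlgebraic ℚ (Real.pi ^ q.num.natAbs) := by
    rcases Int.natAbs_eq q.num with h5 | h5
    · rw [h5, zpow_natCast] at h2
      exact h2
    · rw [h5, zpow_neg, zpow_natCast] at h2
      have h6 := h2.inv
      rwa [inv_inv] at h6
  exact tPI (h4.of_pow (Int.natAbs_pos.2 h3))

end EPI
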