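import Pool.Agent.Lib.EPI.Spec

/-!
Module HYP: the abstract criterion applied to the two lines.
-/

open Complex Module

namespace EPI

private theorem HYP_GS_mono {L : ℝ} {g : ℕ → Fin 4 → ℝ → ℝ} {n m : ℕ} (h : n ≤ m) :
    GS L g n ⊆ GS L g m := by
  rintro z (hz | ⟨k, hk, a, c, rfl⟩)
  · exact Or.inl hz
  · exact Or.inr ⟨k, lt_of_lt_of_le hk h, a, c, rfl⟩

private theorem HYP_mono (hCL : S_CL) {S T : Set ℂ} (h : S ⊆ T) : cl S ≤ cl T :=
  hCL.2.1 S T (h.trans (hCL.1 T))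

private theorem HYP_le (hCL : S_CL) (L : ℝ) (g : ℕ → Fin 4 → ℝ → ℝ) {n m : ℕ} (h : n ≤ m)
    (a : Fin 4) (c : ℝ) : cl (GS L g n) ≤ cl (GG L g m a c) :=
  HYP_mono hCL ((HYP_GS_mono h).trans Set.subset_union_left)

private theorem HYP_g (hCL : S_CL) (L : ℝ) (g : ℕ → Fin 4 → ℝ → ℝ) {d d' : ℕ × Fin 4 × ℝ}
    (hne : d' ≠ d) (hle : d'.1 ≤ d.1) :
    ((g d'.1 d'.2.1 d'.2.2 : ℝ) : ℂ) ∈ cl (GG L g d.1 d.2.1 d.2.2) := by
  apply hCL.1
  obtain ⟨n, a, c⟩ := d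
  obtain ⟨n', a', c'⟩ := d'
  simp only at hle ⊢
  rcases hle.lt_or_eq with h | rfl
  · exact Or.inl (Or.inr ⟨n', h, a', c', rfl⟩)
  · refine Or.inr ⟨a', c', ?_, rfl⟩
    intro h
    apply hne
    rw [h]

/-- the two cases of an index: `b h` is old and `E (b h)` is generic, or conversely -/
private def HYP_Q (L : ℝ) (g : ℕ → Fin 4 → ℝ → ℝ) (d : ℕ × Fin 4 × ℝ) (u v : ℂ) : Prop :=
  (u ∈ cl (GS L g d.1) ∧ ∀ T : Set ℂ, v ∈ cl T ↔ ((g d.1 d.2.1 d.2.2 : ℝ) : ℂ) ∈ cl T) ∨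
  (v ∈ cl (GS L g d.1) ∧ ∀ T : Set ℂ, u ∈ cl T ↔ ((g d.1 d.2.1 d.2.2 : ℝ) : ℂ) ∈ cl T)

private theorem HYP_old (hCL : S_CL) (L : ℝ) (g : ℕ → Fin 4 → ℝ → ℝ) {d d' : ℕ × Fin 4 × ℝ}
    {u v : ℂ} (hQ : HYP_Q L g d' u v) (hne : d' ≠ d) (hle : d'.1 ≤ d.1) :
    u ∈ cl (GG L g d.1 d.2.1 d.2.2) ∧ v ∈ cl (GG L g d.1 d.2.1 d.2.2) := by
  have hg := HYP_g hCL L g hne hle
  rcases hQ with ⟨h1, h2⟩ | ⟨h1, h2⟩
  · exact ⟨HYP_le hCL L g hle _ _ h1, (h2 _).2 hg⟩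
  · exact ⟨(h2 _).2 hg, HYP_le hCL L g hle _ _ h1⟩

private theorem HYP_new (hCL : S_CL) (hNOT : S_NOT) (L : ℝ) (g : ℕ → Fin 4 → ℝ → ℝ)
    (hG : Gen L g) {d : ℕ × Fin 4 × ℝ} {u v : ℂ} (hQ : HYP_Q L g d u v) :
    (u ∈ cl (GG L g d.1 d.2.1 d.2.2) ∧ v ∉ cl (GG L g d.1 d.2.1 d.2.2)) ∨
    (v ∈ cl (GG L g d.1 d.2.1 d.2.2) ∧ u ∉ cl (GG L g d.1 d.2.1 d.2.2)) := by
  have hg := hNOT L g hG d.1 d.2.1 d.2.2
  rcases hQ with ⟨h1, h2⟩ | ⟨h1, h2⟩
  · exact Or.inl ⟨HYP_le hCL L g le_rfl _ _ h1, fun h => hg ((h2 _).1 h)⟩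
  · exact Or.inr ⟨HYP_le hCL L g le_rfl _ _ h1, fun h => hg ((h2 _).1 h)⟩

private theorem HYP_jj (hCL : S_CL) (s : Bool) (x : ℝ) (T : Set ℂ) :
    jj s x ∈ cl T ↔ ((x : ℝ) : ℂ) ∈ cl T := by
  unfold jj
  cases s
  · simp
  · simp only [if_true]
    have hI := hCL.2.2.2 T
    constructor
    · intro h
      have h2 := (cl T).mul_mem h ((cl T).inv_mem hI)
      rwa [mul_assoc, mul_inv_cancel₀ I_ne_zero, mul_one] at h2
    · intro h
      exact (cl T).mul_mem h hI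

/-- the linear map `jj s` -/
private noncomputable def HYP_j (s : Bool) : ℝ →ₗ[ℚ] ℂ where
  toFun := jj s
  map_add' := by
    intro x y
    unfold jj
    cases s
    · simp
    · simp [add_mul]
  map_smul' := by
    intro q x
    unfold jj
    cases s
    · simp [Rat.smul_def]
    · simp [Rat.smul_def, mul_assoc]

private theorem HYP_j_apply (s : Bool) (x : ℝ) : HYP_j s x = jj s x := rfl

private theorem HYP_j_inj (s : Bool) : Function.Injective (HYP_j s) := by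
  intro x y h
  rw [HYP_j_apply, HYP_j_apply] at h
  unfold jj at h
  cases s
  · simpa using h
  · simpa using h

/-- indices of a line -/
private abbrev HYP_A (B C : ℕ → Set ℝ) : Type := (Σ n, B n) ⊕ (Σ n, C n)

/-- elements of a line -/
private noncomputable def HYP_b (g : ℕ → Fin 4 → ℝ → ℝ) (s : Bool) (B C : ℕ → Set ℝ) :
    HYP_A B C → ℂ :=
  Sum.elim (fun x => jj s (x.2 : ℝ)) (fun x => jj s (g x.1 (sa s) x.2))

/-- data of a line -/
private noncomputable def HYP_d (s : Bool) (B C : ℕ → Set ℝ) : HYP_A B C → ℕ × Fin 4 × ℝ :=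
  Sum.elim (fun x => (x.1, ta s, (x.2 : ℝ))) (fun x => (x.1, sa s, (x.2 : ℝ)))

private theorem HYP_line (hCL : S_CL) (hVAL : S_VAL) (L : ℝ) (g : ℕ → Fin 4 → ℝ → ℝ)
    (hG : Gen L g) (s : Bool) (B C : ℕ → Set ℝ) (ρ : ℝ → ℝ) (E : ℂ → ℂ) {k : ℕ}
    (p q : Fin k → ℝ) (hB : ∀ n, B n ⊆ XX (GS L g n)) (hC : ∀ n, C n ⊆ YY s (GS L g n))
    (hρ : ∀ i, ρ (domF (fun n y => g n (sa s) y) p B C i) =
      imF (fun n b => hh s (g n (ta s) b)) q B C i)
    (hE : ∀ x : ℝ, E (jj s x) = ee s (ρ x)) (h : HYP_A B C) :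
    HYP_Q L g (HYP_d s B C h) (HYP_b g s B C h) (E (HYP_b g s B C h)) := by
  rcases h with ⟨n, x⟩ | ⟨n, y⟩
  · left
    have e1 : HYP_b g s B C (Sum.inl ⟨n, x⟩) = jj s (x : ℝ) := rfl
    have e2 : HYP_d s B C (Sum.inl ⟨n, x⟩) = (n, ta s, (x : ℝ)) := rfl
    have e3 : ρ (x : ℝ) = hh s (g n (ta s) x) := hρ (Sum.inr (Sum.inl ⟨n, x⟩))
    rw [e1, e2, hE, e3]
    refine ⟨(HYP_jj hCL s _ _).2 (hB n x.2), fun T => ⟨?_, ?_⟩⟩
    · exact (hVAL L g hG s n x).2 T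
    · exact (hVAL L g hG s n x).1 T
  · right
    have e1 : HYP_b g s B C (Sum.inr ⟨n, y⟩) = jj s (g n (sa s) y) := rfl
    have e2 : HYP_d s B C (Sum.inr ⟨n, y⟩) = (n, sa s, (y : ℝ)) := rfl
    have e3 : ρ (g n (sa s) y) = (y : ℝ) := hρ (Sum.inr (Sum.inr ⟨n, y⟩))
    rw [e1, e2, hE, e3]
    exact ⟨hC n y.2, fun T => HYP_jj hCL s _ T⟩

private theorem HYP_d_inj (s : Bool) (B C : ℕ → Set ℝ) : Function.Injective (HYP_d s B C) := by
  have hs : ta s ≠ sa s := by cases s <;> decide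
  rintro (⟨n, x⟩ | ⟨n, x⟩) (⟨m, y⟩ | ⟨m, y⟩) h
  · have h' : ((n, ta s, (x : ℝ)) : ℕ × Fin 4 × ℝ) = (m, ta s, (y : ℝ)) := h
    simp only [Prod.mk.injEq, true_and] at h'
    obtain ⟨rfl, h2⟩ := h'
    have : x = y := Subtype.ext h2
    rw [this]
  · have h' : ((n, ta s, (x : ℝ)) : ℕ × Fin 4 × ℝ) = (m, sa s, (y : ℝ)) := h
    simp only [Prod.mk.injEq] at h'
    exact absurd h'.2.1 hs
  · have h' : ((n, sa s, (x : ℝ)) : ℕ × Fin 4 × ℝ) = (m, ta s, (y : ℝ)) := h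
    simp only [Prod.mk.injEq] at h'
    exact absurd h'.2.1.symm hs
  · have h' : ((n, sa s, (x : ℝ)) : ℕ × Fin 4 × ℝ) = (m, sa s, (y : ℝ)) := h
    simp only [Prod.mk.injEq, true_and] at h'
    obtain ⟨rfl, h2⟩ := h'
    have : x = y := Subtype.ext h2
    rw [this]

private theorem HYP_d_a (s : Bool) (B C : ℕ → Set ℝ) (h : HYP_A B C) :
    (HYP_d s B C h).2.1 = ta s ∨ (HYP_d s B C h).2.1 = sa s := by
  rcases h with ⟨n, x⟩ | ⟨n, y⟩
  · exact Or.inl rfl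
  · exact Or.inr rfl

private theorem HYP_d_inj2 (B0 C0 B1 C1 : ℕ → Set ℝ) :
    Function.Injective (Sum.elim (HYP_d false B0 C0) (HYP_d true B1 C1)) := by
  apply (HYP_d_inj false B0 C0).sumElim (HYP_d_inj true B1 C1)
  intro x y h
  have h1 := HYP_d_a false B0 C0 x
  have h2 := HYP_d_a true B1 C1 y
  rw [h] at h1
  rcases h1 with h1 | h1 <;> rcases h2 with h2 | h2 <;> rw [h1] at h2 <;>
    exact absurd h2 (by decide)

/-- the whole family -/
private noncomputable def HYP_F (L : ℝ) (g : ℕ → Fin 4 → ℝ → ℝ) (B0 C0 B1 C1 : ℕ → Set ℝ) :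
    (Fin 2 ⊕ HYP_A B0 C0) ⊕ (Fin 1 ⊕ HYP_A B1 C1) → ℂ :=
  Sum.elim (HYP_j false ∘ domF (fun n y => g n (sa false) y) ![L, Real.pi * L] B0 C0)
    (HYP_j true ∘ domF (fun n y => g n (sa true) y) ![2 * Real.pi] B1 C1)

/-- reindexing -/
private def HYP_psi (A B : Type) : Fin 3 ⊕ (A ⊕ B) → (Fin 2 ⊕ A) ⊕ (Fin 1 ⊕ B) :=
  Sum.elim ![Sum.inr (Sum.inl 0), Sum.inl (Sum.inl 0), Sum.inl (Sum.inl 1)]
    (Sum.elim (fun a => Sum.inl (Sum.inr a)) (fun b => Sum.inr (Sum.inr b)))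

private theorem HYP_psi_inj (A B : Type) : Function.Injective (HYP_psi A B) := by
  apply Function.Injective.sumElim
  · intro i j h
    fin_cases i <;> fin_cases j <;> simp_all
  · apply Function.Injective.sumElim
    · intro a b h
      simpa using h
    · intro a b h
      simpa using h
    · intro a b h
      simp at h
  · intro i x h
    fin_cases i <;> rcases x with x | x <;> simp at h

private theorem HYP_F_psi (L : ℝ) (g : ℕ → Fin 4 → ℝ → ℝ) (B0 C0 B1 C1 : ℕ → Set ℝ) :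
    HYP_F L g B0 C0 B1 C1 ∘ HYP_psi _ _ =
      Sum.elim (b3 L) (Sum.elim (HYP_b g false B0 C0) (HYP_b g true B1 C1)) := by
  funext i
  rcases i with i | (⟨n, x⟩ | ⟨n, x⟩) | (⟨n, x⟩ | ⟨n, x⟩)
  · fin_cases i
    · show jj true (2 * Real.pi) = 2 * (Real.pi : ℂ) * I
      simp [jj]
    · show jj false L = (L : ℂ)
      simp [jj]
    · show jj false (Real.pi * L) = ((Real.pi * L : ℝ) : ℂ)
      simp [jj]
  · rfl
  · rfl
  · rfl
  · rfl

private theorem HYP_disj : Disjoint (LinearMap.range (HYP_j false)) (LinearMap.range (HYP_j true)) := by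
  rw [Submodule.disjoint_def]
  rintro z ⟨x, hx⟩ ⟨y, hy⟩
  rw [← hy, HYP_j_apply] at hx
  rw [HYP_j_apply] at hx
  have h2 := congrArg Complex.re hx
  simp [jj] at h2
  rw [← hy, HYP_j_apply, ← hx, h2]
  simp [jj]

private theorem HYP_li (L : ℝ) (g : ℕ → Fin 4 → ℝ → ℝ) (B0 C0 B1 C1 : ℕ → Set ℝ)
    (hli0 : LinearIndependent ℚ (domF (fun n y => g n (sa false) y) ![L, Real.pi * L] B0 C0))
    (hli1 : LinearIndependent ℚ (domF (fun n y => g n (sa true) y) ![2 * Real.pi] B1 C1)) :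
    LinearIndependent ℚ
      (Sum.elim (b3 L) (Sum.elim (HYP_b g false B0 C0) (HYP_b g true B1 C1))) := by
  rw [← HYP_F_psi]
  refine LinearIndependent.comp ?_ _ (HYP_psi_inj _ _)
  refine LinearIndependent.sum_type ?_ ?_ ?_
  · exact hli0.map' (HYP_j false) (LinearMap.ker_eq_bot.2 (HYP_j_inj false))
  · exact hli1.map' (HYP_j true) (LinearMap.ker_eq_bot.2 (HYP_j_inj true))
  · refine HYP_disj.mono ?_ ?_
    · rw [Submodule.span_le]
      rintro z ⟨i, rfl⟩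
      exact ⟨_, rfl⟩
    · rw [Submodule.span_le]
      rintro z ⟨i, rfl⟩
      exact ⟨_, rfl⟩

private theorem HYP_sp (L : ℝ) (g : ℕ → Fin 4 → ℝ → ℝ) (B0 C0 B1 C1 : ℕ → Set ℝ)
    (hsp0 : Submodule.span ℚ
      (Set.range (domF (fun n y => g n (sa false) y) ![L, Real.pi * L] B0 C0)) = ⊤)
    (hsp1 : Submodule.span ℚ
      (Set.range (domF (fun n y => g n (sa true) y) ![2 * Real.pi] B1 C1)) = ⊤) :
    Submodule.span ℚ (Set.range
      (Sum.elim (b3 L) (Sum.elim (HYP_b g false B0 C0) (HYP_b g true B1 C1)))) = ⊤ := by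
  have hsub : ∀ i, HYP_F L g B0 C0 B1 C1 i ∈ Submodule.span ℚ (Set.range
      (Sum.elim (b3 L) (Sum.elim (HYP_b g false B0 C0) (HYP_b g true B1 C1)))) := by
    intro i
    have hs : ∃ j, HYP_psi _ _ j = i := by
      rcases i with (i | a) | (i | b)
      · fin_cases i
        · exact ⟨Sum.inl 1, rfl⟩
        · exact ⟨Sum.inl 2, rfl⟩
      · exact ⟨Sum.inr (Sum.inl a), rfl⟩
      · fin_cases i
        exact ⟨Sum.inl 0, rfl⟩
      · exact ⟨Sum.inr (Sum.inr b), rfl⟩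
    obtain ⟨j, rfl⟩ := hs
    apply Submodule.subset_span
    exact ⟨j, by rw [← HYP_F_psi]; rfl⟩
  have h0 : ∀ x : ℝ, HYP_j false x ∈ Submodule.span ℚ (Set.range
      (Sum.elim (b3 L) (Sum.elim (HYP_b g false B0 C0) (HYP_b g true B1 C1)))) := by
    intro x
    have hx : x ∈ Submodule.span ℚ
      (Set.range (domF (fun n y => g n (sa false) y) ![L, Real.pi * L] B0 C0)) := by
      rw [hsp0]; trivial
    have h2 := Submodule.mem_map_of_mem (f := HYP_j false) hx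
    rw [Submodule.map_span] at h2
    refine (Submodule.span_le.2 ?_) h2
    rintro z ⟨w, ⟨i, rfl⟩, rfl⟩
    exact hsub (Sum.inl i)
  have h1 : ∀ x : ℝ, HYP_j true x ∈ Submodule.span ℚ (Set.range
      (Sum.elim (b3 L) (Sum.elim (HYP_b g false B0 C0) (HYP_b g true B1 C1)))) := by
    intro x
    have hx : x ∈ Submodule.span ℚ
      (Set.range (domF (fun n y => g n (sa true) y) ![2 * Real.pi] B1 C1)) := by
      rw [hsp1]; trivial
    have h2 := Submodule.mem_map_of_mem (f := HYP_j true) hx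
    rw [Submodule.map_span] at h2
    refine (Submodule.span_le.2 ?_) h2
    rintro z ⟨w, ⟨i, rfl⟩, rfl⟩
    exact hsub (Sum.inr i)
  rw [eq_top_iff]
  intro z _
  have hz : z = HYP_j false z.re + HYP_j true z.im := by
    rw [HYP_j_apply, HYP_j_apply]
    simp [jj]
  rw [hz]
  exact Submodule.add_mem _ (h0 _) (h1 _)

private theorem HYP_alg (S : Set ℂ) (r : ℝ) (h : IsAlgebraic ℚ r) : ((r : ℝ) : ℂ) ∈ cl S := by
  rw [mem_cl]
  have h1 : IsAlgebraic ℚ ((r : ℝ) : ℂ) := h.algebraMap (A := ℂ)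
  exact h1.tower_top _

theorem tHYP : S_CL → S_NOT → S_VAL → S_EP → S_CRIT → S_HYP := by
  intro hCL hNOT hVAL hEP hCRIT L g hG r hr hr1 hra B0 C0 B1 C1 r0 r1 hB0 hC0 hB1 hC1 hli0 hsp0
    hli1 hsp1 hr0 hr1' V hV k hGe
  have h2pi : r1 (2 * Real.pi) = 2 * Real.pi := hr1' (Sum.inl 0)
  obtain ⟨hEadd, hEne, -, -, -, -, hEj⟩ := hEP r0 r1 h2pi
  have hQ : ∀ h, HYP_Q L g (Sum.elim (HYP_d false B0 C0) (HYP_d true B1 C1) h)
      (Sum.elim (HYP_b g false B0 C0) (HYP_b g true B1 C1) h)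
      (EE r0 r1 (Sum.elim (HYP_b g false B0 C0) (HYP_b g true B1 C1) h)) := by
    rintro (h | h)
    · exact HYP_line hCL hVAL L g hG false B0 C0 r0 (EE r0 r1) _ _ hB0 hC0 hr0
        (fun x => hEj false x) h
    · exact HYP_line hCL hVAL L g hG true B1 C1 r1 (EE r0 r1) _ _ hB1 hC1 hr1'
        (fun x => hEj true x) h
  refine hCRIT (EE r0 r1) hEadd hEne (HYP_A B0 C0 ⊕ HYP_A B1 C1) 3 (b3 L)
    (Sum.elim (HYP_b g false B0 C0) (HYP_b g true B1 C1))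
    (fun h => (Sum.elim (HYP_d false B0 C0) (HYP_d true B1 C1) h).1)
    (fun h => GG L g (Sum.elim (HYP_d false B0 C0) (HYP_d true B1 C1) h).1
      (Sum.elim (HYP_d false B0 C0) (HYP_d true B1 C1) h).2.1
      (Sum.elim (HYP_d false B0 C0) (HYP_d true B1 C1) h).2.2)
    (HYP_li L g B0 C0 B1 C1 hli0 hli1) (HYP_sp L g B0 C0 B1 C1 hsp0 hsp1) ?_ ?_ ?_ V hV k hGe
  · intro h h' hne hle
    exact HYP_old hCL L g (hQ h') (fun e => hne (HYP_d_inj2 B0 C0 B1 C1 e)) hle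
  · intro h i
    have hpi : ∀ n a c, ((Real.pi : ℝ) : ℂ) ∈ cl (GG L g n a c) := fun n a c =>
      hCL.1 _ (Or.inl (Or.inl (Or.inl rfl)))
    have hL : ∀ n a c, ((L : ℝ) : ℂ) ∈ cl (GG L g n a c) := fun n a c =>
      hCL.1 _ (Or.inl (Or.inl (Or.inr rfl)))
    have e0 : b3 L 0 = jj true (2 * Real.pi) := by
      show 2 * (Real.pi : ℂ) * I = _
      simp [jj]
    have e1 : b3 L 1 = jj false L := by
      show (L : ℂ) = _
      simp [jj]
    have e2 : b3 L 2 = jj false (Real.pi * L) := by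
      show ((Real.pi * L : ℝ) : ℂ) = _
      simp [jj]
    have v0 : EE r0 r1 (b3 L 0) = 1 := by
      rw [e0, hEj]
      simp only [if_true]
      rw [h2pi]
      simp [ee, jj, Complex.exp_two_pi_mul_I]
    have v1 : EE r0 r1 (b3 L 1) = ((Real.pi : ℝ) : ℂ) := by
      rw [e1, hEj]
      have : r0 L = Real.log Real.pi := hr0 (Sum.inl 0)
      simp only [Bool.false_eq_true, if_false]
      rw [this]
      simp only [ee, jj, Bool.false_eq_true, if_false]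
      rw [← Complex.ofReal_exp, Real.exp_log Real.pi_pos]
    have v2 : EE r0 r1 (b3 L 2) = ((r : ℝ) : ℂ) := by
      rw [e2, hEj]
      have : r0 (Real.pi * L) = Real.log r := hr0 (Sum.inl 1)
      simp only [Bool.false_eq_true, if_false]
      rw [this]
      simp only [ee, jj, Bool.false_eq_true, if_false]
      rw [← Complex.ofReal_exp, Real.exp_log hr]
    fin_cases i
    · constructor
      · show b3 L 0 ∈ _
        rw [e0, HYP_jj hCL]
        push_cast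
        exact (cl _).mul_mem (by simp) (hpi _ _ _)
      · show EE r0 r1 (b3 L 0) ∈ _
        rw [v0]
        exact (cl _).one_mem
    · constructor
      · show b3 L 1 ∈ _
        rw [e1, HYP_jj hCL]
        exact hL _ _ _
      · show EE r0 r1 (b3 L 1) ∈ _
        rw [v1]
        exact hpi _ _ _
    · constructor
      · show b3 L 2 ∈ _
        rw [e2, HYP_jj hCL]
        push_cast
        exact (cl _).mul_mem (hpi _ _ _) (hL _ _ _)
      · show EE r0 r1 (b3 L 2) ∈ _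
        rw [v2]
        exact HYP_alg _ _ hra
  · intro h
    exact HYP_new hCL hNOT L g hG (hQ h)

end EPI
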