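import Pool.Agent.Lib.EPI.Spec

/-!
Modules VAL and IND of the independence theorem on `π^π` (MP_4c2ad3_nt).
-/

open Complex Module

namespace EPI

private theorem VAL_false {x : ℝ} (hx : x ≠ 0) : ee false (hh false x) = ((|x| : ℝ) : ℂ) := by
  simp only [ee, hh, jj, Bool.false_eq_true, if_false]
  rw [← Complex.ofReal_exp, Real.exp_log (abs_pos.2 hx)]

private theorem VAL_true (x : ℝ) : ee true (hh true x) * (1 - (x : ℂ) * I) = 1 + (x : ℂ) * I := by
  simp only [ee, hh, jj, if_true]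
  have h1 : ((2 * Real.arctan x : ℝ) : ℂ) * I = (Real.arctan x : ℂ) * I + (Real.arctan x : ℂ) * I := by
    push_cast
    ring
  have hs : Real.sqrt (1 + x ^ 2) ≠ 0 := (Real.sqrt_pos.2 (by positivity)).ne'
  have hs2 : Real.sqrt (1 + x ^ 2) ^ 2 = 1 + x ^ 2 := Real.sq_sqrt (by positivity)
  have hsC : ((Real.sqrt (1 + x ^ 2) : ℝ) : ℂ) ≠ 0 := by exact_mod_cast hs
  have hs2C : ((Real.sqrt (1 + x ^ 2) : ℝ) : ℂ) ^ 2 = 1 + (x : ℂ) ^ 2 := by exact_mod_cast hs2
  have h2 : cexp ((Real.arctan x : ℂ) * I) * ((Real.sqrt (1 + x ^ 2) : ℝ) : ℂ) = 1 + (x : ℂ) * I := by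
    rw [Complex.exp_mul_I, ← Complex.ofReal_cos, ← Complex.ofReal_sin, Real.cos_arctan, Real.sin_arctan]
    push_cast
    field_simp
  rw [h1, Complex.exp_add]
  have h3 : (cexp ((Real.arctan x : ℂ) * I) * cexp ((Real.arctan x : ℂ) * I)) *
      ((Real.sqrt (1 + x ^ 2) : ℝ) : ℂ) ^ 2 = (1 + (x : ℂ) * I) ^ 2 := by
    rw [← h2]
    ring
  have h4 : (1 + (x : ℂ) ^ 2) = (1 + (x : ℂ) * I) * (1 - (x : ℂ) * I) := by
    linear_combination (x : ℂ) ^ 2 * Complex.I_sq
  rw [hs2C, h4] at h3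
  have h5 : 1 + (x : ℂ) * I ≠ 0 := by
    intro h
    rw [h] at h2
    exact mul_ne_zero (Complex.exp_ne_zero _) hsC h2
  apply mul_left_cancel₀ h5
  linear_combination h3

theorem tVAL : S_CL → S_NOT → S_VAL := by
  intro hCL hNOT L g hG s n b
  obtain ⟨hc1, hc2, hc3, hc4⟩ := hCL
  have hx : g n (ta s) b ≠ 0 := by
    intro h
    apply hNOT L g hG n (ta s) b
    rw [h, Complex.ofReal_zero]
    exact (cl _).zero_mem
  cases s with
  | false =>
    rw [VAL_false hx]
    constructor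
    · intro T hT
      rcases abs_choice (g n (ta false) b) with h | h
      · rw [h]; exact hT
      · rw [h, Complex.ofReal_neg]; exact (cl T).neg_mem hT
    · intro T hT
      rcases abs_choice (g n (ta false) b) with h | h
      · rw [h] at hT; exact hT
      · rw [h, Complex.ofReal_neg] at hT
        have := (cl T).neg_mem hT
        rwa [neg_neg] at this
  | true =>
    have key := VAL_true (g n (ta true) b)
    set x : ℂ := ((g n (ta true) b : ℝ) : ℂ) with hxdef
    set u : ℂ := ee true (hh true (g n (ta true) b)) with hu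
    have h1 : (u + 1) * (1 - x * I) = 2 := by linear_combination key
    have h2 : u + 1 ≠ 0 := by
      intro h
      rw [h, zero_mul] at h1
      exact two_ne_zero h1.symm
    have h3 : 1 - x * I ≠ 0 := by
      intro h
      rw [h, mul_zero] at h1
      exact two_ne_zero h1.symm
    constructor
    · intro T hT
      have h4 : u = (1 + x * I) / (1 - x * I) := by
        rw [eq_div_iff h3]; exact key
      rw [h4]
      have h5 : x * I ∈ cl T := (cl T).mul_mem hT (hc4 T)
      exact (cl T).div_mem ((cl T).add_mem (cl T).one_mem h5) ((cl T).sub_mem (cl T).one_mem h5)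
    · intro T hT
      have h4 : x = (u - 1) / (I * (u + 1)) := by
        rw [eq_div_iff (mul_ne_zero Complex.I_ne_zero h2)]
        linear_combination -key
      rw [h4]
      exact (cl T).div_mem ((cl T).sub_mem hT (cl T).one_mem)
        ((cl T).mul_mem (hc4 T) ((cl T).add_mem hT (cl T).one_mem))

private theorem IND_lin {Y : Submodule ℚ ℝ} {t : ℝ → ℝ} (Z : ℝ → Submodule ℚ ℝ) (h1 : ∀ b, Y ≤ Z b)
    (h2 : ∀ b b', b' ≠ b → t b' ∈ Z b) (h3 : ∀ b, t b ∉ Z b) :
    LinearIndependent ℚ (fun b => Y.mkQ (t b)) := by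
  rw [linearIndependent_iff']
  intro F q hq b hb
  by_contra hqb
  have h4 : ∑ i ∈ F, q i • t i ∈ Y := by
    rw [← Submodule.ker_mkQ Y, LinearMap.mem_ker, map_sum]
    simpa only [map_smul] using hq
  have h5 : ∑ i ∈ F, q i • t i ∈ Z b := h1 b h4
  rw [← Finset.add_sum_erase F _ hb] at h5
  have h6 : ∑ i ∈ F.erase b, q i • t i ∈ Z b :=
    Submodule.sum_mem _ (fun i hi => (Z b).smul_mem _ (h2 b i (Finset.ne_of_mem_erase hi)))
  have h7 : q b • t b ∈ Z b := by
    have := (Z b).sub_mem h5 h6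
    simpa only [add_sub_cancel_right] using this
  have h8 := (Z b).smul_mem (q b)⁻¹ h7
  rw [smul_smul, inv_mul_cancel₀ hqb, one_smul] at h8
  exact h3 b h8

theorem tIND : S_CL → S_NOT → S_VAL → S_IND := by
  intro hCL hNOT hVAL L g hG s n
  obtain ⟨hc1, hc2, hc3, hc4⟩ := hCL
  have hsub : ∀ (a : Fin 4) (c : ℝ), GS L g n ⊆ cl (GG L g n a c) :=
    fun a c z hz => hc1 _ (Or.inl hz)
  have hmem : ∀ (a : Fin 4) (c c' : ℝ), c' ≠ c → ((g n a c' : ℝ) : ℂ) ∈ cl (GG L g n a c) := by
    intro a c c' h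
    exact hc1 _ (Or.inr ⟨a, c', fun h' => h (Prod.mk.inj h').2, rfl⟩)
  constructor
  · refine IND_lin (fun b => YY s (GG L g n (ta s) b)) ?_ ?_ ?_
    · intro b y hy
      exact hc2 _ _ (hsub _ _) hy
    · intro b b' hb
      exact (hVAL L g hG s n b').1 _ (hmem _ _ _ hb)
    · intro b hb
      exact hNOT L g hG n _ b ((hVAL L g hG s n b).2 _ hb)
  · refine IND_lin (fun b => XX (GG L g n (sa s) b)) ?_ ?_ ?_
    · intro b y hy
      exact hc2 _ _ (hsub _ _) hy
    · intro b b' hb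
      exact hmem _ _ _ hb
    · intro b hb
      exact hNOT L g hG n _ b hb

end EPI
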