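import Pool.Agent.Lib.EPI.Spec

/-!
Module SORT of the independence theorem on `π^π` (MP_4c2ad3_nt): the linear bijection of one line.
-/

set_option autoImplicit false

open Complex Module

namespace EPI

private theorem SORT_gs (L : ℝ) (g : ℕ → Fin 4 → ℝ → ℝ) (n : ℕ) : GS L g n ⊆ GS L g (n + 1) := by
  rintro z (hz | ⟨m, hm, a, c, rfl⟩)
  · exact Or.inl hz
  · exact Or.inr ⟨m, Nat.lt_succ_of_lt hm, a, c, rfl⟩

private theorem SORT_mem (L : ℝ) (g : ℕ → Fin 4 → ℝ → ℝ) (n : ℕ) (a : Fin 4) (c : ℝ) :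
    ((g n a c : ℝ) : ℂ) ∈ GS L g (n + 1) :=
  Or.inr ⟨n, Nat.lt_succ_self n, a, c, rfl⟩

theorem tSORT : S_CL → S_EXH → S_VAL → S_IND → S_BF → S_SORT := by
  intro hCL hEXH hVAL hIND hBF L g hg s k p q hp hq hpX hqY
  obtain ⟨c1, c2, -, -⟩ := hCL
  have hmono : ∀ n, cl (GS L g n) ≤ cl (GS L g (n + 1)) := fun n =>
    c2 _ _ ((SORT_gs L g n).trans (c1 _))
  obtain ⟨B, C, hB, hC, li1, sp1, li2, sp2⟩ := hBF (fun n => XX (GS L g n)) (fun n => YY s (GS L g n))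
    (fun n b => hh s (g n (ta s) b)) (fun n y => g n (sa s) y) k p q
    (fun n x hx => hmono n hx) (fun n x hx => hmono n hx)
    (fun x => hEXH L g hg (x : ℂ)) (fun x => hEXH L g hg (ee s x))
    (fun n b => (hVAL L g hg s n b).1 _ (c1 _ (SORT_mem L g n (ta s) b)))
    (fun n y => c1 _ (SORT_mem L g n (sa s) y))
    (fun n => (hIND L g hg s n).1) (fun n => (hIND L g hg s n).2) hp hq hpX hqY
  refine ⟨B, C, (Basis.mk li1 sp1.ge).equiv (Basis.mk li2 sp2.ge) (Equiv.refl _), hB, hC, li1, sp1,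
    fun i => ?_⟩
  have h1 := Basis.equiv_apply (b := Basis.mk li1 sp1.ge) (b' := Basis.mk li2 sp2.ge) (i := i)
    (e := Equiv.refl _)
  rw [Basis.mk_apply, Equiv.refl_apply, Basis.mk_apply] at h1
  exact h1

end EPI
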