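import Pool.Agent.Lib.EPI.Defs

/-!
Specification of the modules of the independence theorem on `π^π` (MP_4c2ad3_nt).
Each `S_XXX` is proved as `theorem tXXX : S_XXX` (or from the `S_` listed in its docstring, in the
order given there). Complete proofs in the docstrings.
-/

open Complex Module

namespace EPI

/-- **PI1** (Lindemann, algebraic part). Let `z` be algebraic over `ℚ` and `1 + exp z = 0`.
There are a polynomial `f ∈ ℤ[X]`, `f(0) ≠ 0`, and an integer `m > 0` such that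
`m + ∑_{α ∈ roots of f in ℂ with multiplicity} e^α = 0`.
PROOF. `β_1 = z, …, β_d` the roots in `ℂ` of the minimal polynomial of `z` over `ℚ` (distinct).
`0 = ∏_j (1 + e^{β_j}) = ∑_{S ⊆ [d]} e^{α_S}`, `α_S = ∑_{j ∈ S} β_j`. The polynomial
`∏_S (X - α_S)` is invariant under the Galois group (work in the splitting field of the minimal
polynomial inside `ℂ`, an automorphism permutes the `β_j`, so it permutes the `α_S`), so it has
rational coefficients; divide by the power `X^m`, `m` = number of `S` with `α_S = 0`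
(`m ≥ 1` because of `S = ∅`), and multiply by a common denominator. -/
def S_PI1 : Prop := ∀ z : ℂ, IsAlgebraic ℚ z → 1 + cexp z = 0 →
  ∃ (f : Polynomial ℤ) (m : ℕ), f.eval 0 ≠ 0 ∧ 0 < m ∧
    (m : ℂ) + ((f.aroots ℂ).map cexp).sum = 0

/-- **PI2** (analytic part applied). No `f`, `m` as in PI1 exist.
PROOF. Mathlib: `LindemannWeierstrass.exp_polynomial_approx f hf` gives `c` such that for all large
primes `p` there are `n : ℤ`, `¬ p ∣ n`, `gp : ℤ[X]`, `natDegree gp ≤ p * natDegree f - 1` with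
`‖n • exp α - p • aeval α gp‖ ≤ c ^ p / (p - 1)!` for all roots `α` of `f`.
Sum over the roots with multiplicity: `‖- n m - p ∑ gp(α)‖ ≤ (number of roots) c^p / (p-1)!`.
Let `a` be the leading coefficient of `f`. `a α` is integral over `ℤ`
(`Polynomial.isIntegral_leadingCoeff_smul` or similar), so `a^(p natDegree f) ∑ gp(α)` is
integral, and it is rational (symmetric in the roots with multiplicity of a rational polynomial:
for every automorphism / by Newton, e.g. `∑_α α^k` is rational as the trace of the `k`-th power of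
the companion matrix, or by `Polynomial.sum_map_aroots...`, or because
`MvPolynomial.IsSymmetric` ... ; any proof), hence an integer `w`. So
`N = a^(p natDegree f) n m + p w` is an integer, not divisible by `p` if `p > m, |a|`, so `|N| ≥ 1`,
but `|N| ≤ |a|^(p natDegree f) (number of roots) c^p / (p-1)! < 1` for large `p`. -/
def S_PI2 : Prop := ∀ (f : Polynomial ℤ) (m : ℕ), f.eval 0 ≠ 0 → 0 < m →
    (m : ℂ) + ((f.aroots ℂ).map cexp).sum ≠ 0

/-- **CL** basic properties of `cl`. `cl S` is the relative algebraic closure of `ℚ(S)`.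
(1) `S ⊆ cl S`; (2) `S ⊆ cl T → cl S ≤ cl T` (algebraic over algebraic); (3) finite character:
`x ∈ cl S` implies `x ∈ cl F` for some finite `F ⊆ S` (the coefficients of an equation lie in
`ℚ(F)`, `IntermediateField.exists_finset_of_mem_adjoin` or similar); (4) `I ∈ cl S`. -/
def S_CL : Prop :=
  (∀ S : Set ℂ, S ⊆ cl S) ∧ (∀ S T : Set ℂ, S ⊆ cl T → cl S ≤ cl T) ∧
  (∀ (S : Set ℂ) (x : ℂ), x ∈ cl S → ∃ F : Finset ℂ, (F : Set ℂ) ⊆ S ∧ x ∈ cl (F : Set ℂ)) ∧
  (∀ S : Set ℂ, I ∈ cl S)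

/-- **TD1** `n` algebraically independent numbers in `cl S` give `trdeg ℚ(S) ≥ n`.
PROOF. `cl S` is algebraic over `F = ℚ(S)`, so `trdeg ℚ (cl S) = trdeg ℚ F`
(`Algebra.trdeg_add_eq` and `Algebra.trdeg_eq_zero`, or: a transcendence basis of `F` over `ℚ`
is one of `cl S`), and the `f i`, seen in `cl S`, are algebraically independent
(`AlgebraicIndependent.cardinalMk_le_trdeg`). -/
def S_TD1 : Prop := ∀ (S : Set ℂ) (n : ℕ), Ge S n →
  (n : Cardinal) ≤ Algebra.trdeg ℚ (IntermediateField.adjoin ℚ S)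

/-- **TD2** one step up. PROOF. `f : Fin n → ℂ` for `S`; add `x`: `x` is transcendental over
`cl T`, hence over `ℚ(f)`, because `f i ∈ cl S ≤ cl T`; use `AlgebraicIndependent.sumElim_iff`,
`algebraicIndependent_unique_type_iff` or the `Option` / `insert` lemmas. From S_CL. -/
def S_TD2 : Prop := ∀ (S S' T : Set ℂ) (x : ℂ) (n : ℕ), Ge S n → S ⊆ cl T → S ⊆ cl S' →
  x ∈ cl S' → x ∉ cl T → Ge S' (n + 1)

/-- **CRIT** abstract criterion for Schanuel's inequality (the heart). `E` a homomorphism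
`(ℂ,+) → ℂ^*`, `b0, b` a `ℚ`-basis of `ℂ`, `st` a stage function on the index set of `b`; for every
`h` the numbers `b h'`, `E (b h')` with `h' ≠ h`, `st h' ≤ st h` and the `b0 i`, `E (b0 i)` lie in
`cl (T h)`, and exactly one of `b h`, `E (b h)` does not.
PROOF. Induction on `dim V`. If `V ≤ D0 = span b0`, then `V ⊓ D0 = V`. Otherwise let `F` be the
finite set of the `h` which occur in an element of `V` (finite because `V` is finite dimensional),
nonempty, and `h ∈ F` with `st h` maximal. `V1 = {v ∈ V : coefficient of b h is 0}` has dimension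
`dim V - 1` and `V1 ⊓ D0 = V ⊓ D0`. By induction `Ge (V1 ∪ E V1) (k + (dim V1 - dim (V ⊓ D0)))`.
`V1` and `E V1` lie in `cl (T h)`: a rational combination `w = ∑ q_i x_i` of `b h'`s and `b0`s lies
there, and `E w ^ N = ∏ (E x_i)^(N q_i)` (`N` a common denominator), so `E w` lies there
(`mem_cl_of_pow`). Take `v ∈ V` with coefficient `c ≠ 0` at `h`, `v = c b_h + w`, `w` as above. If
`b h ∈ cl (T h)` and `E (b h) ∉ cl (T h)`: `E v = E (c b_h) E w` and `E (c b_h)^N = E (b h)^(N c)`,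
so `E v ∈ cl (T h)` would give `E (b h) ∈ cl (T h)`. If `E (b h) ∈ cl (T h)` and
`b h ∉ cl (T h)`: `v ∉ cl (T h)`. Apply S_TD2 with `S = V1 ∪ E V1`, `S' = V ∪ E V`, `T = T h`,
`x = v` or `E v`. From S_CL, S_TD2. -/
def S_CRIT : Prop := ∀ (E : ℂ → ℂ), (∀ x y, E (x + y) = E x * E y) → (∀ x, E x ≠ 0) →
  ∀ (ι : Type) (k0 : ℕ) (b0 : Fin k0 → ℂ) (b : ι → ℂ) (st : ι → ℕ) (T : ι → Set ℂ),
  LinearIndependent ℚ (Sum.elim b0 b) → Submodule.span ℚ (Set.range (Sum.elim b0 b)) = ⊤ →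
  (∀ h h', h' ≠ h → st h' ≤ st h → b h' ∈ cl (T h) ∧ E (b h') ∈ cl (T h)) →
  (∀ h i, b0 i ∈ cl (T h) ∧ E (b0 i) ∈ cl (T h)) →
  (∀ h, (b h ∈ cl (T h) ∧ E (b h) ∉ cl (T h)) ∨ (E (b h) ∈ cl (T h) ∧ b h ∉ cl (T h))) →
  ∀ V : Submodule ℚ ℂ, FiniteDimensional ℚ V → ∀ k : ℕ,
    Ge (((V ⊓ Submodule.span ℚ (Set.range b0) : Submodule ℚ ℂ) : Set ℂ) ∪
      E '' ((V ⊓ Submodule.span ℚ (Set.range b0) : Submodule ℚ ℂ) : Set ℂ)) k →
    Ge ((V : Set ℂ) ∪ E '' (V : Set ℂ))
      (k + (finrank ℚ V - finrank ℚ (V ⊓ Submodule.span ℚ (Set.range b0) : Submodule ℚ ℂ)))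

/-- **TUP** from the span to the tuple. PROOF. `V = span z` and `E V` lie in
`cl (range z ∪ range (E ∘ z))`: rational combinations, and `E (∑ q_i z_i) ^ N = ∏ E(z_i)^(N q_i)`,
so `Ge (range z ∪ range (E ∘ z)) m`; then S_TD1. From S_CL, S_TD1. -/
def S_TUP : Prop := ∀ (E : ℂ → ℂ), (∀ x y, E (x + y) = E x * E y) → (∀ x, E x ≠ 0) →
  ∀ (n : ℕ) (z : Fin n → ℂ) (m : ℕ),
  Ge ((Submodule.span ℚ (Set.range z) : Set ℂ) ∪ E '' (Submodule.span ℚ (Set.range z) : Set ℂ)) m →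
  (m : Cardinal) ≤ Algebra.trdeg ℚ
    (IntermediateField.adjoin ℚ (Set.range z ∪ Set.range (fun i => E (z i))))

/-- the three numbers `2 π i, L, π L` -/
noncomputable def b3 (L : ℝ) : Fin 3 → ℂ :=
  ![2 * (Real.pi : ℂ) * I, (L : ℂ), ((Real.pi * L : ℝ) : ℂ)]

/-- **BASE** `π, L` algebraically independent. For a proper subspace `W` of
`D0 = ⟨2πi, L, πL⟩_ℚ` there are `dim W` algebraically independent elements in `cl W`, and two of
them for `W = D0`; the three numbers are linearly independent.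
PROOF. Put `x = 2πi`, `y = L`, so `πL = κ x y`, `κ = 1/(2i)`; `x, y` are algebraically independent
over `ℚ`, also over `ℚ(i)` and its algebraic closure. `w = a x + b y + c κ x y` with rational
`(a,b,c) ≠ 0` is transcendental (nonconstant polynomial in `x, y` over the algebraic closure of `ℚ`);
this also gives the linear independence. `dim W = 1`: done. `dim W = 2`: show `x, y ∈ cl W`; then
`f = ![x, y]` works. If `c = 0` on `W`, then `W = ⟨x, y⟩`. Otherwise choose a basis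
`w2 = α x + β y ≠ 0`, `w1 = a x + b y + κ x y` of `W` (rational `α, β, a, b`). If `β ≠ 0`:
`y = (w2 - α x)/β`, so `x` is a root of `-(κ α/β) X^2 + (a - b α/β + κ w2/β) X + (b w2/β - w1)`,
whose coefficient of `X` is not `0` since `w2` is transcendental; so `x ∈ cl W`, then `y ∈ cl W`.
If `β = 0`: `x = w2/α ∈ cl W`, `y = (w1 - a x)/(b + κ x)`. `W = D0`: `x, y ∈ W`. S_CL may be used. -/
def S_BASE : Prop := ∀ L : ℝ, AlgebraicIndependent ℚ ![Real.pi, L] →
  LinearIndependent ℚ (b3 L) ∧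
  ∀ W : Submodule ℚ ℂ, W ≤ Submodule.span ℚ (Set.range (b3 L)) →
    (W ≠ Submodule.span ℚ (Set.range (b3 L)) → Ge (W : Set ℂ) (finrank ℚ W)) ∧
    (W = Submodule.span ℚ (Set.range (b3 L)) → Ge (W : Set ℂ) 2)

/-- **CHAIN** a basis from a chain of subspaces. PROOF. Span: `W n` lies in the span, by induction.
Independence: a relation involves finitely many `n`; let `n` be the largest one. The part with
index `n` lies in `W n ⊓ span (range (v n)) = ⊥`, so it vanishes, and `v n` is independent. -/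
def S_CHAIN : Prop := ∀ (W : ℕ → Submodule ℚ ℝ) (κ : ℕ → Type) (v : ∀ n, κ n → ℝ)
  (ι0 : Type) (p : ι0 → ℝ),
  LinearIndependent ℚ p → Submodule.span ℚ (Set.range p) = W 0 →
  (∀ n, LinearIndependent ℚ (v n)) →
  (∀ n, Disjoint (W n) (Submodule.span ℚ (Set.range (v n)))) →
  (∀ n, W n ⊔ Submodule.span ℚ (Set.range (v n)) = W (n + 1)) → (∀ x, ∃ n, x ∈ W n) →
  LinearIndependent ℚ (Sum.elim p (fun x : Σ n, κ n => v x.1 x.2)) ∧
  Submodule.span ℚ (Set.range (Sum.elim p (fun x : Σ n, κ n => v x.1 x.2))) = ⊤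

/-- **BF** the back and forth, pure linear algebra. `X n`, `Y n` increasing with union `ℝ`;
`t n b ∈ Y (n+1)`, linearly independent modulo `Y n` (all `b : ℝ`), `s n y ∈ X (n+1)`, linearly
independent modulo `X n`. PROOF. Choose recursively `D n ≤ X n`, `J n ≤ Y n`:
`D 0 = span p`, `J 0 = span q`; `B n` a basis of a complement of `D n` in `X n` (a set, `⊆ X n`),
`C n` a basis of a complement of `J n` in `Y n`; `D (n+1) = X n ⊔ span (s n '' C n)`,
`J (n+1) = Y n ⊔ span (t n '' B n)`. Domain: S_CHAIN with `W n = D n`, `κ n = B n ⊕ C n`,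
`v n = Sum.elim (b ↦ b) (y ↦ s n y)` (independent, and its span is a complement of `D n` in
`D (n+1)`: `B n` from `D n` to `X n`, `s n '' C n` is independent modulo `X n`). Image: `W n = J n`,
`κ n = B n ⊕ C n`, `v n = Sum.elim (b ↦ t n b) (y ↦ y)`. Reindex by `Equiv.sigmaSumDistrib`
(`Σ n, (B n ⊕ C n) ≃ (Σ n, B n) ⊕ (Σ n, C n)`). From S_CHAIN. -/
def S_BF : Prop := ∀ (X Y : ℕ → Submodule ℚ ℝ) (t s : ℕ → ℝ → ℝ) (k : ℕ) (p q : Fin k → ℝ),
  (∀ n, X n ≤ X (n + 1)) → (∀ n, Y n ≤ Y (n + 1)) → (∀ x, ∃ n, x ∈ X n) → (∀ x, ∃ n, x ∈ Y n) →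
  (∀ n b, t n b ∈ Y (n + 1)) → (∀ n y, s n y ∈ X (n + 1)) →
  (∀ n, LinearIndependent ℚ (fun b => (Y n).mkQ (t n b))) →
  (∀ n, LinearIndependent ℚ (fun y => (X n).mkQ (s n y))) →
  LinearIndependent ℚ p → LinearIndependent ℚ q → (∀ i, p i ∈ X 0) → (∀ i, q i ∈ Y 0) →
  ∃ B C : ℕ → Set ℝ, (∀ n, B n ⊆ X n) ∧ (∀ n, C n ⊆ Y n) ∧
    LinearIndependent ℚ (domF s p B C) ∧ Submodule.span ℚ (Set.range (domF s p B C)) = ⊤ ∧
    LinearIndependent ℚ (imF t q B C) ∧ Submodule.span ℚ (Set.range (imF t q B C)) = ⊤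

/-- **GEN** existence of the generic elements. PROOF. `π` transcendental, so `{π}` extends to a
transcendence basis of `ℝ` over `ℚ` (`exists_isTranscendenceBasis_superset`), which has the
cardinality of the continuum (otherwise `ℝ`, algebraic over a field of smaller cardinality, would
be smaller; `Algebra.IsAlgebraic.cardinalMk_le_max`, `Real.mk_real` / `Cardinal.mk_real`);
the rest without `π` is in bijection with `Unit ⊕ (ℕ × Fin 4 × ℝ)`. -/
def S_GEN : Prop := Transcendental ℚ Real.pi → ∃ (L : ℝ) (g : ℕ → Fin 4 → ℝ → ℝ), Gen L g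

/-- **NOT** `g n a c` is not in the algebraic closure of the others. PROOF. The family of `Gen`,
mapped to `ℂ`, is algebraically independent (`AlgebraicIndependent.map'` with an injective map);
`GG` is contained in the set of the other members (`π`, `L`, `g m` with `m < n`, `g n a' c'`), over
which the member `g n a c` is transcendental. -/
def S_NOT : Prop := ∀ L g, Gen L g → ∀ n a c, ((g n a c : ℝ) : ℂ) ∉ cl (GG L g n a c)

/-- **EXH** exhaustion. PROOF. `ℝ` is algebraic over `ℚ(basis)`, `ℂ` is algebraic over `ℝ`, so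
`z` is algebraic over `ℚ(` all `π, L, g )`, i.e. in `cl` of the union of all `GS n`; finite
character (S_CL) and monotonicity of `GS`. From S_CL. -/
def S_EXH : Prop := ∀ L g, Gen L g → ∀ z : ℂ, ∃ n, z ∈ cl (GS L g n)

/-- **VAL** the generic values. For `K = cl (GS n)`: (1) `ee s (hh s (g n (ta s) b))` lies in
`cl (GS (n+1))` (it is `|g|` resp. `(1 + i g)/(1 - i g)`; `g ≠ 0` because it is transcendental);
(2) if it lies in `cl T` then `g n (ta s) b ∈ cl T`, for every set `T`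
(`g = ± |g|`, resp. `g = -i (u - 1)/(u + 1)`, `u + 1 = 2/(1 - i g) ≠ 0`, and `i ∈ cl T`). From
S_CL, S_NOT (for `g ≠ 0`). -/
def S_VAL : Prop := ∀ L g, Gen L g → ∀ (s : Bool) (n : ℕ) (b : ℝ),
  (∀ T : Set ℂ, ((g n (ta s) b : ℝ) : ℂ) ∈ cl T → ee s (hh s (g n (ta s) b)) ∈ cl T) ∧
  (∀ T : Set ℂ, ee s (hh s (g n (ta s) b)) ∈ cl T → ((g n (ta s) b : ℝ) : ℂ) ∈ cl T)

/-- **IND** independence modulo the earlier stage. PROOF. (1) Suppose `∑ q_b t_b ∈ YY s (GS n)`,
`t_b = hh s (g n (ta s) b)`, finitely supported, some `q_b ≠ 0`. With `T = GG L g n (ta s) b`: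
`ee s (q_b t_b) = ee s (∑) / ∏_{b' ≠ b} ee s (q_b' t_b')` lies in `cl T` (S_VAL, roots of powers),
hence `ee s t_b ∈ cl T`, hence `g n (ta s) b ∈ cl T`, against S_NOT. (2) the same with `g` itself.
From S_CL, S_NOT, S_VAL. -/
def S_IND : Prop := ∀ L g, Gen L g → ∀ (s : Bool) (n : ℕ),
  LinearIndependent ℚ (fun b : ℝ => (YY s (GS L g n)).mkQ (hh s (g n (ta s) b))) ∧
  LinearIndependent ℚ (fun y : ℝ => (XX (GS L g n)).mkQ (g n (sa s) y))

/-- **SORT** one line (`s = false` real, `s = true` imaginary). PROOF. S_BF with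
`X n = XX (GS L g n)`, `Y n = YY s (GS L g n)`, `t n b = hh s (g n (ta s) b)`,
`s n y = g n (sa s) y`: monotone by S_CL, exhausting by S_EXH (applied to `x` resp. `ee s y`),
membership by S_CL and S_VAL, independence by S_IND. Then the two bases define the bijection `ρ`
(`Basis.mk`, `Basis.equiv`). From S_CL, S_EXH, S_VAL, S_IND, S_BF. -/
def S_SORT : Prop := ∀ L g, Gen L g → ∀ (s : Bool) (k : ℕ) (p q : Fin k → ℝ),
  LinearIndependent ℚ p → LinearIndependent ℚ q →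
  (∀ i, p i ∈ XX (GS L g 0)) → (∀ i, q i ∈ YY s (GS L g 0)) →
  ∃ (B C : ℕ → Set ℝ) (ρ : ℝ ≃ₗ[ℚ] ℝ), (∀ n, B n ⊆ XX (GS L g n)) ∧
    (∀ n, C n ⊆ YY s (GS L g n)) ∧
    LinearIndependent ℚ (domF (fun n y => g n (sa s) y) p B C) ∧
    Submodule.span ℚ (Set.range (domF (fun n y => g n (sa s) y) p B C)) = ⊤ ∧
    (∀ i, ρ (domF (fun n y => g n (sa s) y) p B C i) =
      imF (fun n b => hh s (g n (ta s) b)) q B C i)

/-- **EP** elementary properties of `EE r0 r1 = exp (r0 x + i r1 y)`. PROOF. Direct; kernel: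
`exp w = 1 ↔ w = 2 π i n`, so `r0 x = 0`, `r1 y = 2 π n = r1 (2 π n)` (`ℤ`-linearity), so `x = 0`,
`y = 2 π n`; surjectivity: `exp` is surjective onto `ℂ \ {0}` and `r0, r1` are bijective. -/
def S_EP : Prop := ∀ r0 r1 : ℝ ≃ₗ[ℚ] ℝ, r1 (2 * Real.pi) = 2 * Real.pi →
  (∀ x y, EE r0 r1 (x + y) = EE r0 r1 x * EE r0 r1 y) ∧ (∀ x, EE r0 r1 x ≠ 0) ∧
  (∀ x, EE r0 r1 x = 1 ↔ ∃ n : ℤ, x = n * (2 * Real.pi * I)) ∧
  (∀ y, y ≠ 0 → ∃ x, EE r0 r1 x = y) ∧
  (∀ z, EE r0 r1 ((starRingEnd ℂ) z) = (starRingEnd ℂ) (EE r0 r1 z)) ∧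
  (∀ x : ℝ, ∃ y : ℝ, 0 < y ∧ EE r0 r1 x = y) ∧
  (∀ (s : Bool) (x : ℝ), EE r0 r1 (jj s x) = ee s ((if s then r1 else r0) x))

/-- **HYP** Schanuel's inequality relative to the base. Given the two lines (S_SORT applied with
`p = ![L, π L]`, `q = ![log π, log r]` for `s = false` and `p = q = ![2 π]` for `s = true`), the
criterion S_CRIT applies. PROOF. Index set `ι = ((Σ n, B0 n) ⊕ (Σ n, C0 n)) ⊕ ((Σ n, B1 n) ⊕
(Σ n, C1 n))`, `st = n`, `b` = the element itself (real line) resp. times `i` (imaginary line):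
`jj s x` for `x ∈ B`, `jj s (g n (sa s) y)` for `y ∈ C`; `T` of an index = `GG L g n a c` with
`(a, c) = (ta s, x)` for `x ∈ B`, `(sa s, y)` for `y ∈ C`; `b0 = b3 L`. Linear independence and
span of `Sum.elim (b3 L) b`: from the two bases of `ℝ` (`ℂ = ℝ ⊕ i ℝ`). For `x ∈ B s n`:
`jj s x ∈ cl (GS n)`, `E (jj s x) = ee s (hh s (g n (ta s) x))`, in `cl T'` iff
`g n (ta s) x ∈ cl T'` (S_VAL); for `y ∈ C s n`: `E (jj s (g n (sa s) y)) = ee s y ∈ cl (GS n)`.
So for another index of stage `m ≤ n` both numbers lie in `cl (GS n ∪ {its own generic}) ⊆ cl T`,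
and for the index itself exactly one does (S_NOT). The base numbers and their `E`-values
`1, π, r` lie in `cl (GS 0)`. From S_CL, S_NOT, S_VAL, S_EP, S_CRIT. -/
def S_HYP : Prop := ∀ L g, Gen L g → ∀ r : ℝ, 0 < r → r ≠ 1 → IsAlgebraic ℚ r →
  ∀ (B0 C0 B1 C1 : ℕ → Set ℝ) (r0 r1 : ℝ ≃ₗ[ℚ] ℝ),
  (∀ n, B0 n ⊆ XX (GS L g n)) → (∀ n, C0 n ⊆ YY false (GS L g n)) →
  (∀ n, B1 n ⊆ XX (GS L g n)) → (∀ n, C1 n ⊆ YY true (GS L g n)) →
  LinearIndependent ℚ (domF (fun n y => g n (sa false) y) ![L, Real.pi * L] B0 C0) →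
  Submodule.span ℚ (Set.range (domF (fun n y => g n (sa false) y) ![L, Real.pi * L] B0 C0)) = ⊤ →
  LinearIndependent ℚ (domF (fun n y => g n (sa true) y) ![2 * Real.pi] B1 C1) →
  Submodule.span ℚ (Set.range (domF (fun n y => g n (sa true) y) ![2 * Real.pi] B1 C1)) = ⊤ →
  (∀ i, r0 (domF (fun n y => g n (sa false) y) ![L, Real.pi * L] B0 C0 i) =
    imF (fun n b => hh false (g n (ta false) b)) ![Real.log Real.pi, Real.log r] B0 C0 i) →
  (∀ i, r1 (domF (fun n y => g n (sa true) y) ![2 * Real.pi] B1 C1 i) =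
    imF (fun n b => hh true (g n (ta true) b)) ![2 * Real.pi] B1 C1 i) →
  ∀ V : Submodule ℚ ℂ, FiniteDimensional ℚ V → ∀ k : ℕ,
    Ge (((V ⊓ Submodule.span ℚ (Set.range (b3 L)) : Submodule ℚ ℂ) : Set ℂ) ∪
      EE r0 r1 '' ((V ⊓ Submodule.span ℚ (Set.range (b3 L)) : Submodule ℚ ℂ) : Set ℂ)) k →
    Ge ((V : Set ℂ) ∪ EE r0 r1 '' (V : Set ℂ))
      (k + (finrank ℚ V - finrank ℚ (V ⊓ Submodule.span ℚ (Set.range (b3 L)) : Submodule ℚ ℂ)))

/-- **LOG** the values on the base are independent, and everything lies in stage `0`.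
PROOF. `a log π + b log r = 0` with integers `a, b`: `π^a r^b = 1`, so `a = 0` (`π` transcendental,
`r` algebraic), then `b = 0` (`r ≠ 1`, `log r ≠ 0`). `L, π L` independent since `π` is irrational and
`L ≠ 0`. Membership: `ee false (log π) = π`, `ee false (log r) = r` (algebraic),
`ee true (2 π) = 1`. From S_CL. -/
def S_LOG : Prop := ∀ L g, Gen L g → ∀ r : ℝ, 0 < r → r ≠ 1 → IsAlgebraic ℚ r →
  LinearIndependent ℚ ![L, Real.pi * L] ∧
  LinearIndependent ℚ ![Real.log Real.pi, Real.log r] ∧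
  LinearIndependent ℚ ![2 * Real.pi] ∧
  (∀ i, ![L, Real.pi * L] i ∈ XX (GS L g 0)) ∧
  (∀ i, ![Real.log Real.pi, Real.log r] i ∈ YY false (GS L g 0)) ∧
  (∀ i, ![2 * Real.pi] i ∈ XX (GS L g 0)) ∧
  (∀ i, ![2 * Real.pi] i ∈ YY true (GS L g 0))

/-- the theorem (statement of the hand-in) -/
def Goal : Prop := ∀ r : ℝ, 0 < r → r ≠ 1 → IsAlgebraic ℚ r →
  ∃ (E : ℂ → ℂ) (L : ℝ),
    (∀ x y, E (x + y) = E x * E y) ∧
    (∀ x, E x = 1 ↔ ∃ n : ℤ, x = n * (2 * Real.pi * I)) ∧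
    (∀ y, y ≠ 0 → ∃ x, E x = y) ∧
    (∀ z, E ((starRingEnd ℂ) z) = (starRingEnd ℂ) (E z)) ∧
    (∀ x : ℝ, ∃ y : ℝ, 0 < y ∧ E x = y) ∧
    E (L : ℂ) = (Real.pi : ℂ) ∧ E ((Real.pi : ℂ) * (L : ℂ)) = (r : ℂ) ∧
    (∀ (n : ℕ) (z : Fin n → ℂ), LinearIndependent ℚ z →
      ¬ (({2 * (Real.pi : ℂ) * I, (L : ℂ), (Real.pi : ℂ) * (L : ℂ)} : Set ℂ) ⊆
        (Submodule.span ℚ (Set.range z) : Set ℂ)) →
      (n : Cardinal) ≤ Algebra.trdeg ℚ
        (IntermediateField.adjoin ℚ (Set.range z ∪ Set.range (fun i => E (z i))))) ∧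
    (∀ (n : ℕ) (z : Fin n → ℂ), LinearIndependent ℚ z →
      (n : Cardinal) ≤ Algebra.trdeg ℚ
        (IntermediateField.adjoin ℚ (Set.range z ∪ Set.range (fun i => E (z i)))) + 1)

/-- **ASM** assembly. PROOF. `π` transcendental: if `π` were algebraic, `z = i π` would be too
(and `1 + exp (i π) = 0`), against S_PI1, S_PI2. S_GEN gives `L, g`; S_LOG and S_SORT (twice) give
the two lines, `E = EE r0 r1`; S_EP the elementary properties (`r1 (2π) = 2π`, `r0 L = log π`,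
`r0 (π L) = log r` are the base entries). For a tuple `z`: `V = span z`, `finrank V = n`,
`W = V ⊓ span (b3 L)`. If `W ≠ span (b3 L)`: S_BASE gives `Ge W (finrank W)`, so (monotone) the
hypothesis of S_HYP with `k = finrank W`, `k + (n - finrank W) = n`; then S_TUP. If
`W = span (b3 L)`: `finrank W = 3`, `k = 2`, `2 + (n - 3) = n - 1`. If the three numbers are not
all in `V`, then `W ≠ span (b3 L)`. -/
def S_ASM : Prop := S_PI1 → S_PI2 → S_CL → S_TUP → S_BASE → S_GEN → S_SORT → S_EP → S_HYP →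
  S_LOG → Goal

end EPI
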